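import Mathlib
import Pool.Agent.U773.RS.Claim

/-! Linear forms with one free integer variable: the induction. -/

set_option autoImplicit false

open Finset Filter Topology

namespace Pool.Agent.U773.BD

open Pool.Agent.TH419.WI Pool.Agent.N671.OPN Pool.Agent.U773.SF Pool.Agent.U773.WN
  Pool.Agent.U773.RS

/-- elimination of a coordinate by an integral relation -/
lemma elimR {R : Type} [CommRing R] {n : ℕ} (y x : Fin (n + 1) → ℤ) (l0 : Fin (n + 1))
    (h : ∑ i, y i * x i = 0) (w : Fin (n + 1) → R) :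
    ∑ j : Fin n, ((y l0 : R) * w (l0.succAbove j) - (y (l0.succAbove j) : R) * w l0) *
      (x (l0.succAbove j) : R) = (y l0 : R) * ∑ i, w i * (x i : R) := by
  rw [Fin.sum_univ_succAbove _ l0] at h
  rw [Fin.sum_univ_succAbove _ l0]
  have h5 : ∀ j : Fin n, ((y l0 : R) * w (l0.succAbove j) - (y (l0.succAbove j) : R) * w l0) *
      (x (l0.succAbove j) : R) = (y l0 : R) * (w (l0.succAbove j) * (x (l0.succAbove j) : R)) -
      w l0 * ((y (l0.succAbove j) * x (l0.succAbove j) : ℤ) : R) := fun j => by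
    push_cast
    ring
  simp only [h5]
  rw [Finset.sum_sub_distrib, ← Finset.mul_sum, ← Finset.mul_sum, ← Int.cast_sum]
  have h6 : ∑ j : Fin n, y (l0.succAbove j) * x (l0.succAbove j) = -(y l0 * x l0) := by linarith
  rw [h6]
  push_cast
  ring

/-- the product of the free parts without one coordinate -/
lemma prod_free_le {S : Finset ℕ} (hS : ∀ p ∈ S, p.Prime) {n : ℕ} (x : Fin (n + 1) → ℤ)
    (hx : ∀ i, x i ≠ 0) (l0 : Fin (n + 1)) :
    ∏ j : Fin n, (free S (x (l0.succAbove j)) : ℝ) ≤ ∏ i, (free S (x i) : ℝ) := by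
  rw [Fin.prod_univ_succAbove _ l0]
  have h7 : (1 : ℝ) ≤ free S (x l0) := by exact_mod_cast free_pos hS (hx l0)
  have h8 : 0 ≤ ∏ j : Fin n, (free S (x (l0.succAbove j)) : ℝ) :=
    Finset.prod_nonneg fun _ _ => Nat.cast_nonneg _
  nlinarith

/-- the induction without the free variable -/
theorem claim1 (O : Type) [CommRing O] [IsDomain O] [CharZero O] [Module.Free ℤ O]
    [Module.Finite ℤ O] (ρ : O →+* ℝ) {S : Finset ℕ} (hS : ∀ p ∈ S, p.Prime)
    (θ : O) (T : AddSubgroup O) (hT : ∀ (a : ℤ) (τ : O), τ ∈ T → (a : O) * θ + τ = 0 → a = 0)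
    (n : ℕ) :
    ∀ (L : ℕ → ℝ) (_ : Tendsto L atTop atTop) (a : Fin n → ℤ) (τ : Fin n → O)
      (x : ℕ → Fin n → ℤ) (C δ : ℝ), 0 ≤ C → 0 < δ → (∀ i, τ i ∈ T) →
      (∀ᶠ t in atTop, ∀ i, x t i ≠ 0 ∧ |(x t i : ℝ)| ≤ Real.exp (C * L t)) →
      (∀ᶠ t in atTop, ∑ i, a i * x t i ≠ 0) →
      (∀ᶠ t in atTop, |ρ (∑ i, ((a i : O) * θ + τ i) * (x t i : O))| *
        ∏ i, (free S (x t i) : ℝ) ≤ |((∑ i, a i * x t i : ℤ) : ℝ)| * Real.exp (-(δ * L t))) →
      False := by
  classical
  induction n with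
  | zero =>
    intro L hL a τ x C δ hC hδ hτ h1 h2 h3
    obtain ⟨t, ht⟩ := h2.exists
    exact ht (by simp)
  | succ n ih =>
    intro L hL a τ x C δ hC hδ hτ h1 h2 h3
    set q : ℕ → ℤ := fun t => ∑ i, a i * x t i with hq
    set K : ℝ := ∑ j, |(a j : ℝ)| with hK
    have hK0 : 0 ≤ K := Finset.sum_nonneg fun _ _ => abs_nonneg _
    -- the large coordinate
    obtain ⟨i0, hi0, hfr⟩ : ∃ i0, a i0 ≠ 0 ∧ ∃ᶠ t in atTop, |(q t : ℝ)| ≤ K * |(x t i0 : ℝ)| := by
      by_contra hcon
      push Not at hcon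
      have h4 : ∀ᶠ t in atTop, ∀ i, a i ≠ 0 → ¬ |(q t : ℝ)| ≤ K * |(x t i : ℝ)| := by
        rw [Filter.eventually_all]
        intro i
        by_cases hi : a i = 0
        · exact Eventually.of_forall fun t h => absurd hi h
        · have h5 := hcon i hi
          filter_upwards [h5] with t ht _
          exact not_le.2 ht
      obtain ⟨t, ht, ht2⟩ := (h4.and h2).exists
      obtain ⟨i, hi, hle⟩ := exists_large a (x t) ht2
      exact ht i hi hle
    obtain ⟨ψ1, hψ1, hbig⟩ := Filter.extraction_of_frequently_atTop hfr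
    have hψ1t := hψ1.tendsto_atTop
    have h1' := hψ1t.eventually h1
    have h2' := hψ1t.eventually h2
    have h3' := hψ1t.eventually h3
    have hL' : Tendsto (fun t => L (ψ1 t)) atTop atTop := hL.comp hψ1t
    let φ : O →+* ℂ := (Complex.ofRealHom).comp ρ
    have hφ : ∀ x : O, φ x = ((ρ x : ℝ) : ℂ) := fun x => rfl
    have hreal : ∀ x : O, (φ x).im = 0 := fun x => Complex.ofReal_im _
    have hnorm : ∀ x : O, ‖φ x‖ = |ρ x| := fun x => by rw [hφ, Complex.norm_real]; rfl
    set v : Fin (n + 1) → O := fun i => (a i : O) * θ + τ i with hv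
    have hvi0 : v i0 ≠ 0 := fun h0 => hi0 (hT _ _ (hτ i0) h0)
    have hXX : ∀ (u : ℤ), mon (gS S) (fun w => u.natAbs.factorization (gS S w)) *
        (u / ((spart S u.natAbs : ℕ) : ℤ)) = u := fun u => mul_quot hS _
    obtain ⟨y, hy, hfreq⟩ := relP O φ hreal (gS S) (gS_pos hS) i0 v hvi0 C (δ / 2) hC (by positivity)
      (fun t => L (ψ1 t)) hL' (fun t l w => (x (ψ1 t) l).natAbs.factorization (gS S w))
      (fun t l => x (ψ1 t) l / ((spart S (x (ψ1 t) l).natAbs : ℕ) : ℤ))
      (by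
        filter_upwards [h1'] with t ht l
        exact (mon_le_abs hS (ht l).1).trans (ht l).2)
      (by
        filter_upwards [h1'] with t ht l
        exact quot_ne hS (ht l).1)
      (by
        filter_upwards [h1'] with t ht l
        rw [quot_abs hS]
        exact (free_le_abs _ _).trans (ht l).2)
      (by
        filter_upwards [h1', h3', ev_const hL' K (δ / 2) (by positivity)]
          with t ht h4 h5
        simp only [hXX, quot_abs hS]
        rw [hnorm]
        set u := x (ψ1 t) i0 with hu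
        have hu0 : u ≠ 0 := (ht i0).1
        have hfree : (1 : ℝ) ≤ free S u := by exact_mod_cast free_pos hS hu0
        have hprod : ∏ l, (free S (x (ψ1 t) l) : ℝ) =
            free S u * ∏ l ∈ univ.erase i0, (free S (x (ψ1 t) l) : ℝ) := by
          exact (Finset.mul_prod_erase univ (fun l => (free S (x (ψ1 t) l) : ℝ))
            (Finset.mem_univ i0)).symm
        have habs : |(u : ℝ)| = ((mon (gS S) (fun w => u.natAbs.factorization (gS S w)) : ℤ) : ℝ) *
            free S u := by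
          have h7 := hXX u
          have h8 : (u : ℝ) = ((mon (gS S) (fun w => u.natAbs.factorization (gS S w)) : ℤ) : ℝ) *
              ((u / ((spart S u.natAbs : ℕ) : ℤ) : ℤ) : ℝ) := by
            rw [← Int.cast_mul, h7]
          have h9 : (0 : ℝ) < ((mon (gS S) (fun w => u.natAbs.factorization (gS S w)) : ℤ) : ℝ) := by
            exact_mod_cast mon_pos (gS_pos hS) _
          conv_lhs => rw [h8]
          rw [abs_mul, abs_of_pos h9, quot_abs hS]
        have hP0 : 0 ≤ ∏ l ∈ univ.erase i0, (free S (x (ψ1 t) l) : ℝ) :=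
          Finset.prod_nonneg fun _ _ => Nat.cast_nonneg _
        rw [hprod] at h4
        have h10 := hbig t
        rw [habs] at h10
        set m := ((mon (gS S) (fun w => u.natAbs.factorization (gS S w)) : ℤ) : ℝ) with hm
        have hm0 : 0 < m := by
          rw [hm]
          exact_mod_cast mon_pos (gS_pos hS) _
        set Q := |ρ (∑ i, v i * (x (ψ1 t) i : O))| with hQ
        set PP := ∏ l ∈ univ.erase i0, (free S (x (ψ1 t) l) : ℝ) with hPP
        have he := Real.exp_pos (-(δ * L (ψ1 t)))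
        have h11 : Q * PP * free S u ≤ K * (m * free S u) * Real.exp (-(δ * L (ψ1 t))) := by
          calc Q * PP * free S u = Q * (free S u * PP) := by ring
            _ ≤ |(q (ψ1 t) : ℝ)| * Real.exp (-(δ * L (ψ1 t))) := h4
            _ ≤ _ := mul_le_mul_of_nonneg_right h10 he.le
        have h12 : Q * PP ≤ K * m * Real.exp (-(δ * L (ψ1 t))) := by
          have h13 : 0 < (free S u : ℝ) := by linarith
          nlinarith
        calc Q * PP ≤ K * (m * Real.exp (-(δ * L (ψ1 t)))) := by rw [← mul_assoc]; exact h12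
          _ ≤ Real.exp (δ / 2 * L (ψ1 t)) * (m * Real.exp (-(δ * L (ψ1 t)))) :=
              mul_le_mul_of_nonneg_right h5 (by positivity)
          _ = m * (Real.exp (δ / 2 * L (ψ1 t)) * Real.exp (-(δ * L (ψ1 t)))) := by ring
          _ = m * Real.exp (-(δ / 2 * L (ψ1 t))) := by
              rw [← Real.exp_add]; congr 2; ring)
    simp only [hXX] at hfreq
    obtain ⟨l0, hl0⟩ : ∃ l, y l ≠ 0 := by
      by_contra hcon
      push Not at hcon
      exact hy (funext hcon)
    obtain ⟨ψ2, hψ2, hrel⟩ := Filter.extraction_of_frequently_atTop hfreq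
    have hψ2t := hψ2.tendsto_atTop
    have hcast : ∀ (t : ℕ) (w : Fin (n + 1) → ℤ), ∑ i, w i * x t i = ∑ i, ((w i : ℤ) : ℤ) * ((x t i : ℤ) : ℤ) :=
      fun t w => rfl
    have helimZ : ∀ (c : Fin (n + 1) → ℤ) (t : ℕ), ∑ j : Fin n,
        (y l0 * c (l0.succAbove j) - y (l0.succAbove j) * c l0) * x (ψ1 (ψ2 t)) (l0.succAbove j) =
        y l0 * ∑ i, c i * x (ψ1 (ψ2 t)) i := by
      intro c t
      have := elimR y (x (ψ1 (ψ2 t))) l0 (hrel t) c
      simpa using this
    have hform : ∀ t : ℕ, ∑ j : Fin n, (((y l0 * a (l0.succAbove j) -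
        y (l0.succAbove j) * a l0 : ℤ) : O) * θ + ((y l0 : O) * τ (l0.succAbove j) -
        (y (l0.succAbove j) : O) * τ l0)) * ((x (ψ1 (ψ2 t)) (l0.succAbove j) : ℤ) : O) =
        (y l0 : O) * ∑ i, v i * ((x (ψ1 (ψ2 t)) i : ℤ) : O) := by
      intro t
      rw [← elimR y (x (ψ1 (ψ2 t))) l0 (hrel t) v]
      refine Finset.sum_congr rfl fun j _ => ?_
      simp only [hv]
      push_cast
      ring
    refine ih (fun t => L (ψ1 (ψ2 t))) (hL'.comp hψ2t)
      (fun j => y l0 * a (l0.succAbove j) - y (l0.succAbove j) * a l0)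
      (fun j => (y l0 : O) * τ (l0.succAbove j) - (y (l0.succAbove j) : O) * τ l0)
      (fun t j => x (ψ1 (ψ2 t)) (l0.succAbove j)) C δ hC hδ ?_ ?_ ?_ ?_
    · intro j
      refine T.sub_mem ?_ ?_
      · rw [← zsmul_eq_mul]
        exact T.zsmul_mem (hτ _) _
      · rw [← zsmul_eq_mul]
        exact T.zsmul_mem (hτ _) _
    · filter_upwards [hψ2t.eventually h1'] with t ht j
      exact ht _
    · filter_upwards [hψ2t.eventually h2'] with t ht
      rw [helimZ a t]
      exact mul_ne_zero hl0 ht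
    · filter_upwards [hψ2t.eventually h3', hψ2t.eventually h1'] with t ht h1t
      rw [helimZ a t, hform t, map_mul, map_intCast, abs_mul]
      push_cast
      rw [abs_mul]
      have h6 := prod_free_le hS (x (ψ1 (ψ2 t))) (fun i => (h1t i).1) l0
      have hy0 : 0 ≤ |(y l0 : ℝ)| := abs_nonneg _
      calc |(y l0 : ℝ)| * |ρ (∑ i, v i * ((x (ψ1 (ψ2 t)) i : ℤ) : O))| *
            ∏ j : Fin n, (free S (x (ψ1 (ψ2 t)) (l0.succAbove j)) : ℝ)
          ≤ |(y l0 : ℝ)| * |ρ (∑ i, v i * ((x (ψ1 (ψ2 t)) i : ℤ) : O))| *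
            ∏ i, (free S (x (ψ1 (ψ2 t)) i) : ℝ) := by gcongr
        _ = |(y l0 : ℝ)| * (|ρ (∑ i, v i * ((x (ψ1 (ψ2 t)) i : ℤ) : O))| *
            ∏ i, (free S (x (ψ1 (ψ2 t)) i) : ℝ)) := by ring
        _ ≤ |(y l0 : ℝ)| * (|((∑ i, a i * x (ψ1 (ψ2 t)) i : ℤ) : ℝ)| *
            Real.exp (-(δ * L (ψ1 (ψ2 t))))) := mul_le_mul_of_nonneg_left ht hy0
        _ = _ := by push_cast; ring

end Pool.Agent.U773.BD
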