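import Mathlib
import Pool.Agent.U773.BD.Claim

/-! Linear forms with one free integer variable: the induction. -/

set_option autoImplicit false

open Finset Filter Topology

namespace Pool.Agent.U773.BD

open Pool.Agent.TH419.WI Pool.Agent.N671.OPN Pool.Agent.U773.SF Pool.Agent.U773.WN
  Pool.Agent.U773.RS

/-- the induction with the free variable `mon (gS S) (e t) * N t` -/
theorem claimN (O : Type) [CommRing O] [IsDomain O] [CharZero O] [Module.Free ℤ O]
    [Module.Finite ℤ O] (ρ : O →+* ℝ) {S : Finset ℕ} (hS : ∀ p ∈ S, p.Prime)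
    (θ : O) (T : AddSubgroup O) (hT : ∀ (a : ℤ) (τ : O), τ ∈ T → (a : O) * θ + τ = 0 → a = 0)
    (n : ℕ) :
    ∀ (L : ℕ → ℝ) (_ : Tendsto L atTop atTop) (a : Fin n → ℤ) (τ : Fin n → O) (c : O)
      (x : ℕ → Fin n → ℤ) (e : ℕ → Fin S.card → ℕ) (N : ℕ → ℤ) (C δ : ℝ), 0 ≤ C → 0 < δ →
      (∀ i, τ i ∈ T) → c ∈ T → c ≠ 0 →
      (∀ᶠ t in atTop, ∀ i, x t i ≠ 0 ∧ |(x t i : ℝ)| ≤ Real.exp (C * L t)) →
      (∀ᶠ t in atTop, ((mon (gS S) (e t) : ℤ) : ℝ) ≤ Real.exp (C * L t)) →
      (∀ᶠ t in atTop, N t ≠ 0 ∧ |(N t : ℝ)| ≤ Real.exp (C * L t)) →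
      (∀ᶠ t in atTop, ∑ i, a i * x t i ≠ 0) →
      (∀ᶠ t in atTop, |ρ (∑ i, ((a i : O) * θ + τ i) * (x t i : O) +
          c * ((mon (gS S) (e t) * N t : ℤ) : O))| *
        ∏ i, (free S (x t i) : ℝ) ≤ |((∑ i, a i * x t i : ℤ) : ℝ)| * Real.exp (-(δ * L t))) →
      (∀ᶠ t in atTop, |ρ (∑ i, ((a i : O) * θ + τ i) * (x t i : O) +
          c * ((mon (gS S) (e t) * N t : ℤ) : O))| *
        ∏ i, (free S (x t i) : ℝ) ≤ ((mon (gS S) (e t) : ℤ) : ℝ) * Real.exp (-(δ * L t))) →
      False := by
  classical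
  induction n with
  | zero =>
    intro L hL a τ c x e N C δ hC hδ hτ hcT hc h1 he hN hq h3' h3
    obtain ⟨t, ht⟩ := hq.exists
    exact ht (by simp)
  | succ n ih =>
    intro L hL a τ c x e N C δ hC hδ hτ hcT hc h1 he hN hq h3' h3
    have hmpos : ∀ t, (0 : ℝ) < ((mon (gS S) (e t) : ℤ) : ℝ) := fun t => by
      exact_mod_cast mon_pos (gS_pos hS) _
    let φ : O →+* ℂ := (Complex.ofRealHom).comp ρ
    have hφ : ∀ x : O, φ x = ((ρ x : ℝ) : ℂ) := fun x => rfl
    have hreal : ∀ x : O, (φ x).im = 0 := fun x => Complex.ofReal_im _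
    have hnorm : ∀ x : O, ‖φ x‖ = |ρ x| := fun x => by rw [hφ, Complex.norm_real]; rfl
    have hXX : ∀ (u : ℤ), mon (gS S) (fun w => u.natAbs.factorization (gS S w)) *
        (u / ((spart S u.natAbs : ℕ) : ℤ)) = u := fun u => mul_quot hS _
    set v : Fin (n + 1) → O := fun i => (a i : O) * θ + τ i with hv
    obtain ⟨y, hy, hfreq⟩ := relP O φ hreal (gS S) (gS_pos hS) (0 : Fin (n + 2)) (Fin.cons c v)
      (by rw [Fin.cons_zero]; exact hc) C δ hC hδ L hL
      (fun t => Fin.cons (e t) (fun l w => (x t l).natAbs.factorization (gS S w)))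
      (fun t => Fin.cons (N t) (fun l => x t l / ((spart S (x t l).natAbs : ℕ) : ℤ)))
      (by
        filter_upwards [h1, he] with t ht h4 l
        refine Fin.cases ?_ (fun l => ?_) l
        · simpa using h4
        · simp only [Fin.cons_succ]
          exact (mon_le_abs hS (ht l).1).trans (ht l).2)
      (by
        filter_upwards [h1, hN] with t ht h4 l
        refine Fin.cases ?_ (fun l => ?_) l
        · simpa using h4.1
        · simp only [Fin.cons_succ]
          exact quot_ne hS (ht l).1)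
      (by
        filter_upwards [h1, hN] with t ht h4 l
        refine Fin.cases ?_ (fun l => ?_) l
        · simpa using h4.2
        · simp only [Fin.cons_succ]
          rw [quot_abs hS]
          exact (free_le_abs _ _).trans (ht l).2)
      (by
        filter_upwards [h3] with t h4
        have h5 : (univ : Finset (Fin (n + 2))).erase 0 = univ.image Fin.succ := by
          ext l
          simp only [mem_erase, mem_univ, and_true, mem_image, true_and]
          constructor
          · intro hl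
            exact ⟨l.pred hl, Fin.succ_pred l hl⟩
          · rintro ⟨j, rfl⟩
            exact Fin.succ_ne_zero j
        rw [h5, Finset.prod_image (fun a _ b _ h => Fin.succ_injective _ h), hnorm,
          Fin.sum_univ_succ]
        simp only [Fin.cons_zero, Fin.cons_succ, hXX, quot_abs hS]
        rw [add_comm]
        exact h4)
    obtain ⟨ψ, hψ, hrel⟩ := Filter.extraction_of_frequently_atTop hfreq
    have hψt := hψ.tendsto_atTop
    have hrel' : ∀ t, y 0 * (mon (gS S) (e (ψ t)) * N (ψ t)) +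
        ∑ i : Fin (n + 1), y i.succ * x (ψ t) i = 0 := by
      intro t
      have h4 := hrel t
      rw [Fin.sum_univ_succ] at h4
      simpa only [Fin.cons_zero, Fin.cons_succ, hXX] using h4
    have hL' : Tendsto (fun t => L (ψ t)) atTop atTop := hL.comp hψt
    by_cases hy0 : y 0 = 0
    · -- a relation between the `x i`
      obtain ⟨l0, hl0⟩ : ∃ l : Fin (n + 1), y l.succ ≠ 0 := by
        by_contra hcon
        push Not at hcon
        apply hy
        funext l
        refine Fin.cases ?_ (fun l => ?_) l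
        · simpa using hy0
        · simpa using hcon l
      have hrelx : ∀ t, ∑ i : Fin (n + 1), y i.succ * x (ψ t) i = 0 := fun t => by
        have := hrel' t
        rwa [hy0, zero_mul, zero_add] at this
      set z : Fin (n + 1) → ℤ := fun i => y i.succ with hz
      have hy1 : (1 : ℝ) ≤ |(z l0 : ℝ)| := by
        have : 1 ≤ |z l0| := Int.one_le_abs hl0
        exact_mod_cast this
      have helimZ : ∀ (w : Fin (n + 1) → ℤ) (t : ℕ), ∑ j : Fin n,
          (z l0 * w (l0.succAbove j) - z (l0.succAbove j) * w l0) * x (ψ t) (l0.succAbove j) =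
          z l0 * ∑ i, w i * x (ψ t) i := by
        intro w t
        have := elimR z (x (ψ t)) l0 (hrelx t) w
        simpa using this
      have hform : ∀ t : ℕ, ∑ j : Fin n, (((z l0 * a (l0.succAbove j) -
          z (l0.succAbove j) * a l0 : ℤ) : O) * θ + ((z l0 : O) * τ (l0.succAbove j) -
          (z (l0.succAbove j) : O) * τ l0)) * ((x (ψ t) (l0.succAbove j) : ℤ) : O) =
          (z l0 : O) * ∑ i, v i * ((x (ψ t) i : ℤ) : O) := by
        intro t
        rw [← elimR z (x (ψ t)) l0 (hrelx t) v]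
        refine Finset.sum_congr rfl fun j _ => ?_
        simp only [hv]
        push_cast
        ring
      refine ih (fun t => L (ψ t)) hL'
        (fun j => z l0 * a (l0.succAbove j) - z (l0.succAbove j) * a l0)
        (fun j => (z l0 : O) * τ (l0.succAbove j) - (z (l0.succAbove j) : O) * τ l0)
        ((z l0 : O) * c) (fun t j => x (ψ t) (l0.succAbove j)) (fun t => e (ψ t))
        (fun t => N (ψ t)) C (δ / 2) hC (by positivity) ?_ ?_ ?_ ?_ ?_ ?_ ?_ ?_ ?_
      · intro j
        refine T.sub_mem ?_ ?_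
        · rw [← zsmul_eq_mul]
          exact T.zsmul_mem (hτ _) _
        · rw [← zsmul_eq_mul]
          exact T.zsmul_mem (hτ _) _
      · rw [← zsmul_eq_mul]
        exact T.zsmul_mem hcT _
      · exact mul_ne_zero (by exact_mod_cast hl0) hc
      · filter_upwards [hψt.eventually h1] with t ht j
        exact ht _
      · exact hψt.eventually he
      · exact hψt.eventually hN
      · filter_upwards [hψt.eventually hq] with t ht
        rw [helimZ a t]
        exact mul_ne_zero hl0 ht
      · filter_upwards [hψt.eventually h3', hψt.eventually h1,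
          ev_const hL' 1 (δ / 2) (by positivity)] with t ht h1t h5
        rw [hform t, mul_assoc, ← mul_add, map_mul, map_intCast, abs_mul, helimZ a t]
        have h6 := prod_free_le hS (x (ψ t)) (fun i => (h1t i).1) l0
        have hy0 : 0 ≤ |(z l0 : ℝ)| := abs_nonneg _
        set Λ := |ρ (∑ i, v i * ((x (ψ t) i : ℤ) : O) +
          c * ((mon (gS S) (e (ψ t)) * N (ψ t) : ℤ) : O))| with hΛ
        have hΛ0 : 0 ≤ Λ := abs_nonneg _
        rw [Int.cast_mul, abs_mul]
        set m := |((∑ i, a i * x (ψ t) i : ℤ) : ℝ)| with hm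
        have hm0 : 0 ≤ m := abs_nonneg _
        calc |(z l0 : ℝ)| * Λ * ∏ j : Fin n, (free S (x (ψ t) (l0.succAbove j)) : ℝ)
            ≤ |(z l0 : ℝ)| * Λ * ∏ i, (free S (x (ψ t) i) : ℝ) := by gcongr
          _ = |(z l0 : ℝ)| * (Λ * ∏ i, (free S (x (ψ t) i) : ℝ)) := by ring
          _ ≤ |(z l0 : ℝ)| * (m * Real.exp (-(δ * L (ψ t)))) :=
              mul_le_mul_of_nonneg_left ht hy0
          _ = |(z l0 : ℝ)| * m * (1 * Real.exp (-(δ * L (ψ t)))) := by ring
          _ ≤ |(z l0 : ℝ)| * m * (Real.exp (δ / 2 * L (ψ t)) * Real.exp (-(δ * L (ψ t)))) := by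
              gcongr
          _ = |(z l0 : ℝ)| * m * Real.exp (-(δ / 2 * L (ψ t))) := by
              rw [← Real.exp_add]; congr 2; ring
      · filter_upwards [hψt.eventually h3, hψt.eventually h1,
          ev_const hL' |(z l0 : ℝ)| (δ / 2) (by positivity)] with t ht h1t h5
        rw [hform t, mul_assoc, ← mul_add, map_mul, map_intCast, abs_mul]
        have h6 := prod_free_le hS (x (ψ t)) (fun i => (h1t i).1) l0
        have hy0 : 0 ≤ |(z l0 : ℝ)| := abs_nonneg _
        set Λ := |ρ (∑ i, v i * ((x (ψ t) i : ℤ) : O) +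
          c * ((mon (gS S) (e (ψ t)) * N (ψ t) : ℤ) : O))| with hΛ
        have hΛ0 : 0 ≤ Λ := abs_nonneg _
        set m := ((mon (gS S) (e (ψ t)) : ℤ) : ℝ) with hm
        have hm0 : 0 < m := hmpos _
        calc |(z l0 : ℝ)| * Λ * ∏ j : Fin n, (free S (x (ψ t) (l0.succAbove j)) : ℝ)
            ≤ |(z l0 : ℝ)| * Λ * ∏ i, (free S (x (ψ t) i) : ℝ) := by gcongr
          _ = |(z l0 : ℝ)| * (Λ * ∏ i, (free S (x (ψ t) i) : ℝ)) := by ring
          _ ≤ |(z l0 : ℝ)| * (m * Real.exp (-(δ * L (ψ t)))) :=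
              mul_le_mul_of_nonneg_left ht hy0
          _ ≤ Real.exp (δ / 2 * L (ψ t)) * (m * Real.exp (-(δ * L (ψ t)))) :=
              mul_le_mul_of_nonneg_right h5 (by positivity)
          _ = m * (Real.exp (δ / 2 * L (ψ t)) * Real.exp (-(δ * L (ψ t)))) := by ring
          _ = m * Real.exp (-(δ / 2 * L (ψ t))) := by
              rw [← Real.exp_add]; congr 2; ring
    · -- the free variable can be eliminated
      have hy1 : (0 : ℝ) < |(y 0 : ℝ)| := abs_pos.2 (by exact_mod_cast hy0)
      have hform : ∀ t : ℕ, ∑ i : Fin (n + 1), (((y 0 * a i : ℤ) : O) * θ + ((y 0 : O) * τ i -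
          (y i.succ : O) * c)) * ((x (ψ t) i : ℤ) : O) =
          (y 0 : O) * (∑ i, v i * ((x (ψ t) i : ℤ) : O) +
            c * ((mon (gS S) (e (ψ t)) * N (ψ t) : ℤ) : O)) := by
        intro t
        have h4 : ∑ i : Fin (n + 1), (y i.succ : O) * ((x (ψ t) i : ℤ) : O) =
            -((y 0 : O) * ((mon (gS S) (e (ψ t)) * N (ψ t) : ℤ) : O)) := by
          have h5 := congrArg (fun u : ℤ => (u : O)) (hrel' t)
          simp only [Int.cast_add, Int.cast_mul, Int.cast_sum, Int.cast_zero] at h5
          push_cast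
          linear_combination h5
        have h6 : ∀ i : Fin (n + 1), (((y 0 * a i : ℤ) : O) * θ + ((y 0 : O) * τ i -
          (y i.succ : O) * c)) * ((x (ψ t) i : ℤ) : O) = (y 0 : O) * (v i * ((x (ψ t) i : ℤ) : O)) -
          c * ((y i.succ : O) * ((x (ψ t) i : ℤ) : O)) := by
          intro i
          simp only [hv]
          push_cast
          ring
        simp only [h6]
        rw [Finset.sum_sub_distrib, ← Finset.mul_sum, ← Finset.mul_sum, h4]
        ring
      have hsum : ∀ t, ∑ i : Fin (n + 1), (y 0 * a i) * x (ψ t) i = y 0 * ∑ i, a i * x (ψ t) i := by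
        intro t
        rw [Finset.mul_sum]
        exact Finset.sum_congr rfl fun i _ => by ring
      refine claim1 O ρ hS θ T hT (n + 1) (fun t => L (ψ t)) hL' (fun i => y 0 * a i)
        (fun i => (y 0 : O) * τ i - (y i.succ : O) * c) (fun t => x (ψ t)) C δ hC hδ ?_ ?_ ?_ ?_
      · intro i
        refine T.sub_mem ?_ ?_
        · rw [← zsmul_eq_mul]
          exact T.zsmul_mem (hτ _) _
        · rw [← zsmul_eq_mul]
          exact T.zsmul_mem hcT _
      · exact hψt.eventually h1
      · filter_upwards [hψt.eventually hq] with t ht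
        rw [hsum]
        exact mul_ne_zero hy0 ht
      · filter_upwards [hψt.eventually h3'] with t h4
        rw [hform, hsum, map_mul, map_intCast, abs_mul]
        push_cast
        rw [abs_mul]
        set Λ := |ρ (∑ i, v i * ((x (ψ t) i : ℤ) : O) +
          c * ((mon (gS S) (e (ψ t)) * N (ψ t) : ℤ) : O))| with hΛ
        have h5 : Λ * ∏ i, (free S (x (ψ t) i) : ℝ) ≤
            |((∑ i, a i * x (ψ t) i : ℤ) : ℝ)| * Real.exp (-(δ * L (ψ t))) := h4
        push_cast at h5 ⊢
        have h6 : |(y 0 : ℝ)| * (Λ * ∏ i, (free S (x (ψ t) i) : ℝ)) ≤ |(y 0 : ℝ)| *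
            (|∑ i, (a i : ℝ) * (x (ψ t) i : ℝ)| * Real.exp (-(δ * L (ψ t)))) :=
          mul_le_mul_of_nonneg_left h5 hy1.le
        convert h6 using 1
        · simp only [hΛ]
          push_cast
          ring
        · ring

end Pool.Agent.U773.BD
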