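import Mathlib
import Pool.Agent.U773.BD.ClaimN

/-! The distance of the elements `(∑ X_l θ_l) / D` of a rational vector space to the integers. -/

set_option autoImplicit false

open Finset Filter Topology

namespace Pool.Agent.U773.BD

open Pool.Agent.TH419.WI Pool.Agent.N671.OPN Pool.Agent.U773.SF Pool.Agent.U773.WN
  Pool.Agent.U773.RS

theorem main0 {r : ℕ} (θ : Fin r → ℝ) (hθ : ∀ l, IsAlgebraic ℚ (θ l)) (ℓ : ℝ →ₗ[ℚ] ℚ)
    (hℓ : ℓ 1 = 0) {S : Finset ℕ} (hS : ∀ p ∈ S, p.Prime) (C ε : ℝ) (hε : 0 < ε) :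
    ∃ U : ℕ, ∀ N : ℕ, U ≤ N → ∀ (D : ℕ) (X : Fin r → ℤ) (M : ℤ),
      0 < D → (∀ p : ℕ, p.Prime → p ∣ D → p ∈ S) → (D : ℝ) ≤ Real.exp (C * N) →
      (∀ l, X l ≠ 0 ∧ |(X l : ℝ)| ≤ Real.exp (C * N)) →
      ℓ (∑ l, θ l * X l) ≠ 0 →
      min (D : ℝ) |((ℓ (∑ l, θ l * X l) : ℚ) : ℝ)| * Real.exp (-(ε * N)) <
        |∑ l, θ l * X l - D * M| * ∏ l, (free S (X l) : ℝ) := by
  classical
  by_contra hcon
  push Not at hcon
  choose N hN D X M hD0 hDS hDC hX hq0 hsm using hcon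
  have hNt : Tendsto (fun t => (N t : ℝ)) atTop atTop :=
    tendsto_natCast_atTop_atTop.comp (tendsto_atTop_mono hN tendsto_id)
  have hD1 : ∀ t, (1 : ℝ) ≤ D t := fun t => by exact_mod_cast hD0 t
  have hC0 : 0 ≤ C := by
    by_contra hneg
    push Not at hneg
    have h1 := hDC 1
    have h3 : (1 : ℝ) ≤ N 1 := by exact_mod_cast hN 1
    have h4 : Real.exp (C * N 1) < 1 := by
      rw [Real.exp_lt_one_iff]
      nlinarith
    linarith [hD1 1]
  have hN0 : ∀ t, (0 : ℝ) ≤ N t := fun t => Nat.cast_nonneg _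
  have hℓX : ∀ Y : Fin r → ℤ, ℓ (∑ l, θ l * Y l) = ∑ l, ℓ (θ l) * Y l := by
    intro Y
    rw [map_sum]
    refine Finset.sum_congr rfl fun l _ => ?_
    have h1 : θ l * (Y l : ℝ) = ((Y l : ℤ) : ℚ) • θ l := by
      rw [Rat.smul_def]
      push_cast
      ring
    rw [h1, map_smul, smul_eq_mul, mul_comm]
  -- a common denominator
  obtain ⟨m, hm0, c, hc⟩ : ∃ m : ℤ, 0 < m ∧ ∃ c : Fin r → ℤ, ∀ l, (c l : ℚ) = m * ℓ (θ l) := by
    refine ⟨∏ l, ((ℓ (θ l)).den : ℤ), Finset.prod_pos fun l _ => by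
      exact_mod_cast (ℓ (θ l)).den_pos, fun l => (∏ j ∈ univ.erase l, ((ℓ (θ j)).den : ℤ)) *
        (ℓ (θ l)).num, fun l => ?_⟩
    rw [← Finset.prod_erase_mul univ _ (mem_univ l)]
    push_cast
    rw [mul_assoc, Rat.den_mul_eq_num]
  have hmR : (1 : ℝ) ≤ m := by exact_mod_cast hm0
  have hmQ : (m : ℚ) ≠ 0 := by exact_mod_cast hm0.ne'
  have hq : ∀ t, ((∑ l, c l * X t l : ℤ) : ℚ) = m * ℓ (∑ l, θ l * X t l) := by
    intro t
    rw [hℓX, Finset.mul_sum]
    push_cast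
    refine Finset.sum_congr rfl fun l _ => ?_
    rw [hc]
    ring
  have hqne : ∀ t, ∑ l, c l * X t l ≠ 0 := by
    intro t h0
    have h1 := hq t
    rw [h0, Int.cast_zero] at h1
    rcases mul_eq_zero.1 h1.symm with h | h
    · exact hmQ h
    · exact hq0 t h
  have hqR : ∀ t, |((ℓ (∑ l, θ l * X t l) : ℚ) : ℝ)| ≤ |((∑ l, c l * X t l : ℤ) : ℝ)| := by
    intro t
    have h1 : ((∑ l, c l * X t l : ℤ) : ℝ) = m * ((ℓ (∑ l, θ l * X t l) : ℚ) : ℝ) := by
      have := congrArg (fun u : ℚ => (u : ℝ)) (hq t)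
      simpa using this
    rw [h1, abs_mul, abs_of_pos (by linarith : (0 : ℝ) < m)]
    exact le_mul_of_one_le_left (abs_nonneg _) hmR
  obtain ⟨l0, hl0⟩ : ∃ l0, c l0 ≠ 0 := by
    by_contra hcon
    push Not at hcon
    exact hqne 0 (Finset.sum_eq_zero fun l _ => by rw [hcon l, zero_mul])
  obtain ⟨A, d, hd, hfin, hA⟩ := exists_order θ hθ
  have hdR : (d : ℝ) ≠ 0 := by exact_mod_cast hd
  let ρ : A →+* ℝ := A.val.toRingHom
  have hρ : ∀ y : A, ρ y = (y : ℝ) := fun y => rfl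
  set V : Submodule ℚ ℝ := LinearMap.ker ℓ with hV
  have hV1 : (1 : ℝ) ∈ V := hℓ
  have hVz : ∀ (c : ℤ) (y : ℝ), y ∈ V → (c : ℝ) * y ∈ V := fun c y hy => by
    rw [← zsmul_eq_mul]
    exact V.toAddSubgroup.zsmul_mem hy c
  set T : AddSubgroup A := V.toAddSubgroup.comap ρ.toAddMonoidHom with hTdef
  have hTm : ∀ y : A, y ∈ T ↔ ℓ (ρ y) = 0 := fun y => Iff.rfl
  have hℓint : ∀ (a : ℤ) (y : ℝ), ℓ ((a : ℝ) * y) = a * ℓ y := by
    intro a y
    have h1 : (a : ℝ) * y = ((a : ℤ) : ℚ) • y := by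
      rw [Rat.smul_def]
      push_cast
      rfl
    rw [h1, map_smul, smul_eq_mul]
  have hℓ0 : ℓ (θ l0) ≠ 0 := by
    intro h0
    have h1 := hc l0
    rw [h0, mul_zero] at h1
    exact hl0 (by exact_mod_cast h1)
  have hdQ : (d : ℚ) ≠ 0 := by exact_mod_cast hd
  have hT : ∀ (a : ℤ) (τ : A), τ ∈ T → (a : A) * ⟨(d : ℝ) * θ l0, hA l0⟩ + τ = 0 → a = 0 := by
    intro a τ hτ h0
    have h1 : (a : ℝ) * ((d : ℝ) * θ l0) + ρ τ = 0 := by
      have := congrArg ρ h0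
      rw [map_add, map_mul, map_intCast, map_zero, hρ] at this
      exact this
    have h2 := congrArg ℓ h1
    rw [map_add, hℓint, hℓint, (hTm τ).1 hτ, map_zero, add_zero] at h2
    rcases mul_eq_zero.1 h2 with h | h
    · exact_mod_cast h
    · exact absurd h (mul_ne_zero hdQ hℓ0)
  set τ : Fin r → A := fun l => (c l0 : A) * ⟨(d : ℝ) * θ l, hA l⟩ -
    (c l : A) * ⟨(d : ℝ) * θ l0, hA l0⟩ with hτdef
  have hτT : ∀ l, τ l ∈ T := by
    intro l
    rw [hTm]
    have h1 : ρ (τ l) = (c l0 : ℝ) * (d * θ l) - (c l : ℝ) * (d * θ l0) := by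
      simp only [hτdef]
      rw [map_sub, map_mul, map_mul, map_intCast, map_intCast]
      rfl
    rw [h1, map_sub, hℓint, hℓint, hℓint, hℓint, hc, hc]
    ring
  set K : ℝ := ∑ l, |θ l| + 1 with hK
  have hK0 : 0 ≤ K := by positivity
  have hDne : ∀ t, (D t : ℤ) ≠ 0 := fun t => by have := hD0 t; omega
  have hDS' : ∀ t, ∀ p : ℕ, p.Prime → p ∣ ((D t : ℤ)).natAbs → p ∈ S := fun t p hp h => by
    rw [Int.natAbs_natCast] at h
    exact hDS t p hp h
  have hprod1 : ∀ t, 1 ≤ ∏ l, (free S (X t l) : ℝ) := by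
    intro t
    rw [← Nat.cast_prod]
    have : 0 < ∏ l, free S (X t l) := Finset.prod_pos fun l _ => free_pos hS (hX t l).1
    exact_mod_cast this
  have hMb : ∀ t, |(M t : ℝ)| ≤ K * Real.exp (C * N t) := by
    intro t
    have hDp : (0 : ℝ) < D t := by linarith [hD1 t]
    have h1 := hsm t
    set Λ := ∑ l, θ l * (X t l : ℝ) - D t * M t with hΛ
    have h2 : |Λ| ≤ D t := by
      have h3 : |Λ| ≤ |Λ| * ∏ l, (free S (X t l) : ℝ) :=
        le_mul_of_one_le_right (abs_nonneg _) (hprod1 t)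
      have h4 : Real.exp (-(ε * N t)) ≤ 1 := by
        rw [Real.exp_le_one_iff]
        have := mul_nonneg hε.le (hN0 t)
        linarith
      have h5 : min (D t : ℝ) |((ℓ (∑ l, θ l * X t l) : ℚ) : ℝ)| * Real.exp (-(ε * N t)) ≤
          D t * 1 :=
        mul_le_mul (min_le_left _ _) h4 (Real.exp_pos _).le hDp.le
      linarith
    have h6 : |∑ l, θ l * (X t l : ℝ)| ≤ (∑ l, |θ l|) * Real.exp (C * N t) := by
      refine (Finset.abs_sum_le_sum_abs _ _).trans ?_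
      rw [Finset.sum_mul]
      refine Finset.sum_le_sum fun j _ => ?_
      rw [abs_mul]
      exact mul_le_mul_of_nonneg_left (hX t j).2 (abs_nonneg _)
    have h7 : D t * (M t : ℝ) = ∑ l, θ l * (X t l : ℝ) - Λ := by
      rw [hΛ]; ring
    have h8 : 1 ≤ Real.exp (C * N t) := Real.one_le_exp (mul_nonneg hC0 (hN0 t))
    have h9 : D t * |(M t : ℝ)| ≤ (∑ l, |θ l|) * Real.exp (C * N t) + D t := by
      rw [← abs_of_pos hDp, ← abs_mul, h7, abs_of_pos hDp]
      exact (abs_sub _ _).trans (add_le_add h6 h2)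
    have h10 : D t * |(M t : ℝ)| ≤ D t * (K * Real.exp (C * N t)) := by
      refine h9.trans ?_
      have h11 : 0 ≤ (∑ l, |θ l|) * Real.exp (C * N t) := by positivity
      calc (∑ l, |θ l|) * Real.exp (C * N t) + D t
          ≤ D t * ((∑ l, |θ l|) * Real.exp (C * N t)) + D t * Real.exp (C * N t) := by
            refine add_le_add (le_mul_of_one_le_left h11 (hD1 t)) (le_mul_of_one_le_right hDp.le h8)
        _ = D t * (K * Real.exp (C * N t)) := by rw [hK]; ring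
    exact le_of_mul_le_mul_left h10 hDp
  set C' : ℝ := C + 1 with hC'
  have hC'0 : 0 ≤ C' := by positivity
  have hCC : ∀ t, Real.exp (C * N t) ≤ Real.exp (C' * N t) := fun t => by
    apply Real.exp_le_exp.2
    have := hN0 t
    rw [hC']
    nlinarith
  have hform : ∀ t, ρ (∑ l, ((c l : A) * ⟨(d : ℝ) * θ l0, hA l0⟩ + τ l) * (X t l : A)) =
      (c l0 * d) * ∑ l, θ l * (X t l : ℝ) := by
    intro t
    rw [map_sum, Finset.mul_sum]
    refine Finset.sum_congr rfl fun l _ => ?_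
    have h1 : (c l : A) * ⟨(d : ℝ) * θ l0, hA l0⟩ + τ l =
        (c l0 : A) * ⟨(d : ℝ) * θ l, hA l⟩ := by
      simp only [hτdef]
      ring
    rw [h1, map_mul, map_mul, map_intCast, map_intCast]
    have h2 : ρ ⟨(d : ℝ) * θ l, hA l⟩ = d * θ l := rfl
    rw [h2]
    ring
  have hcd : ((c l0 : ℝ) * d) ≠ 0 := mul_ne_zero (by exact_mod_cast hl0) hdR
  have hsm' : ∀ᶠ t in atTop, |((c l0 : ℝ) * d) * (∑ l, θ l * (X t l : ℝ) - D t * M t)| *
      ∏ l, (free S (X t l) : ℝ) ≤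
      min (D t : ℝ) |((ℓ (∑ l, θ l * X t l) : ℚ) : ℝ)| * Real.exp (-(ε / 2 * N t)) := by
    filter_upwards [ev_const hNt |(c l0 : ℝ) * d| (ε / 2) (by positivity)] with t ht
    have h1 := hsm t
    have hDp : (0 : ℝ) < D t := by linarith [hD1 t]
    set m' := min (D t : ℝ) |((ℓ (∑ l, θ l * X t l) : ℚ) : ℝ)| with hm'
    have hm'0 : 0 ≤ m' := le_min hDp.le (abs_nonneg _)
    rw [abs_mul]
    calc |(c l0 : ℝ) * d| * |∑ l, θ l * (X t l : ℝ) - D t * M t| * ∏ l, (free S (X t l) : ℝ)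
        = |(c l0 : ℝ) * d| * (|∑ l, θ l * (X t l : ℝ) - D t * M t| *
          ∏ l, (free S (X t l) : ℝ)) := by ring
      _ ≤ |(c l0 : ℝ) * d| * (m' * Real.exp (-(ε * N t))) :=
          mul_le_mul_of_nonneg_left h1 (abs_nonneg _)
      _ ≤ Real.exp (ε / 2 * N t) * (m' * Real.exp (-(ε * N t))) := by gcongr
      _ = m' * (Real.exp (ε / 2 * N t) * Real.exp (-(ε * N t))) := by ring
      _ = m' * Real.exp (-(ε / 2 * N t)) := by
          rw [← Real.exp_add]; congr 2; ring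
  set e : ℕ → Fin S.card → ℕ := fun t w => ((D t : ℤ)).natAbs.factorization (gS S w) with he
  have hme : ∀ t, mon (gS S) (e t) = (D t : ℤ) := by
    intro t
    simp only [he]
    rw [mon_spart, spart_self hS (Int.natAbs_ne_zero.2 (hDne _)) (hDS' _), Int.natAbs_natCast]
  have hmeR : ∀ t, ((mon (gS S) (e t) : ℤ) : ℝ) = D t := fun t => by
    rw [hme]; simp
  by_cases hM0 : ∃ᶠ t in atTop, M t = 0
  · obtain ⟨χ, hχ, hχM⟩ := Filter.extraction_of_frequently_atTop hM0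
    have hχt := hχ.tendsto_atTop
    refine claim1 A ρ hS _ T hT r (fun t => (N (χ t) : ℝ)) (hNt.comp hχt) c τ
      (fun t => X (χ t)) C (ε / 2) hC0 (by positivity) hτT
      (Eventually.of_forall fun t i => hX _ i) (Eventually.of_forall fun t => hqne _) ?_
    filter_upwards [hχt.eventually hsm'] with t ht
    rw [hform]
    rw [hχM t, Int.cast_zero, mul_zero, sub_zero] at ht
    refine ht.trans (mul_le_mul_of_nonneg_right ?_ (Real.exp_pos _).le)
    exact (min_le_right _ _).trans (hqR _)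
  · rw [Filter.not_frequently] at hM0
    have hfe : ∀ t, ρ (∑ l, ((c l : A) * ⟨(d : ℝ) * θ l0, hA l0⟩ + τ l) * (X t l : A) +
        (-((c l0 * d : ℤ) : A)) * ((mon (gS S) (e t) * M t : ℤ) : A)) =
        ((c l0 : ℝ) * d) * (∑ l, θ l * (X t l : ℝ) - D t * M t) := by
      intro t
      rw [map_add, hform, map_mul, map_neg, map_intCast, hme, map_intCast]
      push_cast
      ring
    refine claimN A ρ hS _ T hT r (fun t => (N t : ℝ)) hNt c τ (-((c l0 * d : ℤ) : A)) X e M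
      C' (ε / 2) hC'0 (by positivity) hτT ?_ ?_
      (Eventually.of_forall fun t i => ⟨(hX _ i).1, (hX _ i).2.trans (hCC _)⟩) ?_ ?_
      (Eventually.of_forall fun t => hqne t) ?_ ?_
    · rw [hTm, map_neg, map_neg, map_intCast]
      have := hℓint (c l0 * d) 1
      rw [mul_one, hℓ, mul_zero] at this
      rw [this, neg_zero]
    · rw [neg_ne_zero]
      exact_mod_cast mul_ne_zero hl0 hd
    · refine Eventually.of_forall fun t => ?_
      rw [hmeR]
      exact (hDC _).trans (hCC _)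
    · filter_upwards [hM0, ev_const hNt K 1 one_pos] with t ht h1
      refine ⟨ht, (hMb _).trans ?_⟩
      calc K * Real.exp (C * N t) ≤ Real.exp (1 * N t) * Real.exp (C * N t) :=
            mul_le_mul_of_nonneg_right h1 (Real.exp_pos _).le
        _ ≤ _ := by
            rw [← Real.exp_add]
            apply Real.exp_le_exp.2
            rw [hC']
            linarith
    · filter_upwards [hsm'] with t ht
      rw [hfe]
      refine ht.trans (mul_le_mul_of_nonneg_right ?_ (Real.exp_pos _).le)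
      exact (min_le_right _ _).trans (hqR _)
    · filter_upwards [hsm'] with t ht
      rw [hfe, hmeR]
      refine ht.trans (mul_le_mul_of_nonneg_right ?_ (Real.exp_pos _).le)
      exact min_le_left _ _

/-- the `S`-free part, `1` for `x = 0` -/
def fr (S : Finset ℕ) (x : ℤ) : ℕ := if x = 0 then 1 else free S x

/-- the main inequality, zero coordinates allowed -/
theorem main {r : ℕ} (θ : Fin r → ℝ) (hθ : ∀ l, IsAlgebraic ℚ (θ l)) (ℓ : ℝ →ₗ[ℚ] ℚ)
    (hℓ : ℓ 1 = 0) {S : Finset ℕ} (hS : ∀ p ∈ S, p.Prime) (C ε : ℝ) (hε : 0 < ε) :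
    ∃ U : ℕ, ∀ N : ℕ, U ≤ N → ∀ (D : ℕ) (X : Fin r → ℤ) (M : ℤ),
      0 < D → (∀ p : ℕ, p.Prime → p ∣ D → p ∈ S) → (D : ℝ) ≤ Real.exp (C * N) →
      (∀ l, |(X l : ℝ)| ≤ Real.exp (C * N)) →
      min (D : ℝ) |((ℓ (∑ l, θ l * X l) : ℚ) : ℝ)| * Real.exp (-(ε * N)) ≤
        |∑ l, θ l * X l - D * M| * ∏ l, (fr S (X l) : ℝ) := by
  classical
  have H : ∀ J : Finset (Fin r), ∃ U : ℕ, ∀ N : ℕ, U ≤ N → ∀ (D : ℕ) (X : Fin J.card → ℤ)
      (M : ℤ), 0 < D → (∀ p : ℕ, p.Prime → p ∣ D → p ∈ S) → (D : ℝ) ≤ Real.exp (C * N) →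
      (∀ l, X l ≠ 0 ∧ |(X l : ℝ)| ≤ Real.exp (C * N)) →
      ℓ (∑ l, θ (J.equivFin.symm l) * X l) ≠ 0 →
      min (D : ℝ) |((ℓ (∑ l, θ (J.equivFin.symm l) * X l) : ℚ) : ℝ)| * Real.exp (-(ε * N)) <
        |∑ l, θ (J.equivFin.symm l) * X l - D * M| * ∏ l, (free S (X l) : ℝ) := fun J =>
    main0 (fun l => θ (J.equivFin.symm l)) (fun l => hθ _) ℓ hℓ hS C ε hε
  choose U hU using H
  refine ⟨univ.sup U, fun N hN D X M hD hDS hDC hX => ?_⟩
  by_cases h0 : ℓ (∑ l, θ l * X l) = 0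
  · rw [h0, Rat.cast_zero, abs_zero, min_eq_right (Nat.cast_nonneg _), zero_mul]
    exact mul_nonneg (abs_nonneg _) (Finset.prod_nonneg fun _ _ => Nat.cast_nonneg _)
  set J : Finset (Fin r) := univ.filter (fun l => X l ≠ 0) with hJ
  have hJ' : ∀ j ∈ J, X j ≠ 0 := fun j hj => (mem_filter.1 hj).2
  have hJm : ∀ l : Fin J.card, X (J.equivFin.symm l) ≠ 0 := fun l =>
    hJ' _ (J.equivFin.symm l).2
  have e1 : ∑ l : Fin J.card, θ (J.equivFin.symm l) * (X (J.equivFin.symm l) : ℝ) =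
      ∑ l, θ l * X l := by
    rw [Equiv.sum_comp J.equivFin.symm (fun j : J => θ j * (X j : ℝ)),
      Finset.sum_coe_sort J (fun j => θ j * (X j : ℝ))]
    apply Finset.sum_subset (Finset.subset_univ _)
    intro l _ hl
    have : X l = 0 := by
      by_contra h
      exact hl (by simp [hJ, h])
    rw [this, Int.cast_zero, mul_zero]
  have e2 : ∏ l : Fin J.card, (free S (X (J.equivFin.symm l)) : ℝ) =
      ∏ l, (fr S (X l) : ℝ) := by
    rw [Equiv.prod_comp J.equivFin.symm (fun j : J => (free S (X j) : ℝ)),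
      Finset.prod_coe_sort J (fun j => (free S (X j) : ℝ)), hJ, Finset.prod_filter]
    refine Finset.prod_congr rfl fun l _ => ?_
    unfold fr
    by_cases h : X l = 0
    · simp [h]
    · simp [h]
  have h1 := hU J N ((Finset.le_sup (mem_univ J)).trans hN) D
    (fun l => X (J.equivFin.symm l)) M hD hDS hDC (fun l => ⟨hJm l, hX _⟩)
  rw [e1, e2] at h1
  exact (h1 h0).le

end Pool.Agent.U773.BD
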