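import Mathlib
import Pool.Agent.U773.BD.Main

/-! Common words of the expansions of an irrational algebraic number and of other numbers. -/

set_option autoImplicit false

open Finset Filter Topology

namespace Pool.Agent.U773.BD

open Pool.Agent.TH419.WI Pool.Agent.N671.OPN Pool.Agent.U773.SF Pool.Agent.U773.WN
  Pool.Agent.U773.RS

/-- the number written by the `m` digits of `y` after the place `n` in base `b` -/
noncomputable def blk (b : ℕ) (y : ℝ) (n m : ℕ) : ℤ := ⌊(b : ℝ) ^ (n + m) * y⌋ % (b : ℤ) ^ m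

lemma blk_spec (b : ℕ) (y : ℝ) (n m : ℕ) : ∃ M : ℤ,
    (blk b y n m : ℝ) ≤ (b : ℝ) ^ (n + m) * y - (b : ℝ) ^ m * M ∧
    (b : ℝ) ^ (n + m) * y - (b : ℝ) ^ m * M < blk b y n m + 1 := by
  refine ⟨⌊(b : ℝ) ^ (n + m) * y⌋ / (b : ℤ) ^ m, ?_⟩
  have h1 : ((⌊(b : ℝ) ^ (n + m) * y⌋ : ℤ) : ℝ) = blk b y n m +
      (b : ℝ) ^ m * ((⌊(b : ℝ) ^ (n + m) * y⌋ / (b : ℤ) ^ m : ℤ) : ℝ) := by
    have := Int.emod_add_mul_ediv ⌊(b : ℝ) ^ (n + m) * y⌋ ((b : ℤ) ^ m)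
    unfold blk
    exact_mod_cast this.symm
  have h2 := Int.floor_le ((b : ℝ) ^ (n + m) * y)
  have h3 := Int.lt_floor_add_one ((b : ℝ) ^ (n + m) * y)
  constructor <;> linarith

lemma blk_nonneg {b : ℕ} (hb : 2 ≤ b) (y : ℝ) (n m : ℕ) : 0 ≤ blk b y n m :=
  Int.emod_nonneg _ (by positivity)

lemma blk_lt {b : ℕ} (hb : 2 ≤ b) (y : ℝ) (n m : ℕ) : blk b y n m < (b : ℤ) ^ m :=
  Int.emod_lt_of_pos _ (by positivity)

lemma exists_fun (W : Submodule ℚ ℝ) {x : ℝ} (hx : x ∉ W) :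
    ∃ ℓ : ℝ →ₗ[ℚ] ℚ, ℓ x = 1 ∧ ∀ y ∈ W, ℓ y = 0 := by
  obtain ⟨f, hf, hW⟩ := Submodule.exists_le_ker_of_notMem hx
  refine ⟨(f x)⁻¹ • f, by simp [hf], fun y hy => ?_⟩
  have : f y = 0 := hW hy
  simp [this]

lemma exists_fun_irr {x : ℝ} (hx : Irrational x) : ∃ ℓ : ℝ →ₗ[ℚ] ℚ, ℓ x = 1 ∧ ℓ 1 = 0 := by
  obtain ⟨ℓ, h1, h2⟩ := exists_fun (Submodule.span ℚ {1}) (x := x) (by
    intro h
    obtain ⟨q, hq⟩ := Submodule.mem_span_singleton.1 h
    apply hx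
    refine ⟨q, ?_⟩
    rw [← hq, Rat.smul_def, mul_one])
  exact ⟨ℓ, h1, h2 1 (Submodule.mem_span_singleton_self _)⟩

lemma fun_int (ℓ : ℝ →ₗ[ℚ] ℚ) (a : ℤ) (y : ℝ) : ℓ ((a : ℝ) * y) = a * ℓ y := by
  have h1 : (a : ℝ) * y = ((a : ℤ) : ℚ) • y := by
    rw [Rat.smul_def]
    push_cast
    rfl
  rw [h1, map_smul, smul_eq_mul]

lemma free_neg (S : Finset ℕ) (x : ℤ) : free S (-x) = free S x := by
  unfold free
  rw [Int.natAbs_neg]

/-- `S` with the primes of `b` -/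
def Sb (S : Finset ℕ) (b : ℕ) : Finset ℕ := S ∪ b.primeFactors

lemma Sb_prime {S : Finset ℕ} (hS : ∀ p ∈ S, p.Prime) (b : ℕ) : ∀ p ∈ Sb S b, p.Prime := by
  intro p hp
  rcases mem_union.1 hp with h | h
  · exact hS p h
  · exact Nat.prime_of_mem_primeFactors h

lemma Sb_pow {S : Finset ℕ} {b : ℕ} (hb : 2 ≤ b) (k : ℕ) :
    ∀ p : ℕ, p.Prime → p ∣ b ^ k → p ∈ Sb S b := fun p hp h =>
  mem_union_right _ (Nat.mem_primeFactors.2 ⟨hp, hp.dvd_of_dvd_pow h, by omega⟩)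

lemma fr_le {S : Finset ℕ} (hS : ∀ p ∈ S, p.Prime) {b : ℕ} (hb : 2 ≤ b) (k : ℕ) (v : ℤ) :
    fr (Sb S b) (v * (b : ℤ) ^ k) ≤ fr S v := by
  have hbk : ((b : ℤ) ^ k) ≠ 0 := by positivity
  unfold fr
  by_cases hv : v = 0
  · simp [hv]
  · rw [if_neg hv, if_neg (mul_ne_zero hv hbk), free_mul (Sb_prime hS b) hv hbk,
      free_unit (Sb_prime hS b) hbk (by
        intro p hp hd
        rw [Int.natAbs_pow, Int.natAbs_natCast] at hd
        exact Sb_pow hb k p hp hd), mul_one]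
    exact free_anti hS (Sb_prime hS b) Finset.subset_union_left v

lemma fr_unit {S : Finset ℕ} (hS : ∀ p ∈ S, p.Prime) {u : ℤ} (hu : u ≠ 0)
    (h : ∀ p : ℕ, p.Prime → p ∣ u.natAbs → p ∈ S) : fr S u = 1 := by
  unfold fr
  rw [if_neg hu, free_unit hS hu h]

lemma fr_pos {S : Finset ℕ} (hS : ∀ p ∈ S, p.Prime) (x : ℤ) : 1 ≤ fr S x := by
  unfold fr
  split_ifs with h
  · exact le_rfl
  · exact free_pos hS h

lemma fr_neg (S : Finset ℕ) (x : ℤ) : fr S (-x) = fr S x := by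
  unfold fr
  simp only [free_neg, neg_eq_zero]

lemma fr_le_max (S : Finset ℕ) (x : ℤ) : (fr S x : ℝ) ≤ max 1 |(x : ℝ)| := by
  unfold fr
  split_ifs with h
  · simp
  · exact (free_le_abs S x).trans (le_max_right _ _)

lemma size_b {b : ℕ} (hb : 2 ≤ b) {C : ℝ} {m n : ℕ} (hn : (n : ℝ) ≤ C * m) {v : ℝ}
    (hv : |v| ≤ Real.exp (C * m)) :
    |v * (b : ℝ) ^ n| ≤ Real.exp ((|C| + |C| * Real.log b) * m) := by
  have hb1 : (1 : ℝ) < b := by exact_mod_cast hb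
  have hlb : 0 < Real.log b := Real.log_pos hb1
  have hm0 : (0 : ℝ) ≤ m := Nat.cast_nonneg _
  have h1 : (b : ℝ) ^ n = Real.exp (Real.log b * n) := by
    rw [Real.exp_mul, Real.exp_log (by linarith), Real.rpow_natCast]
  rw [abs_mul, abs_of_pos (by positivity : (0 : ℝ) < (b : ℝ) ^ n), h1]
  calc |v| * Real.exp (Real.log b * n) ≤ Real.exp (C * m) * Real.exp (Real.log b * n) := by gcongr
    _ = Real.exp (C * m + Real.log b * n) := (Real.exp_add _ _).symm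
    _ ≤ _ := by
        apply Real.exp_le_exp.2
        have h2 : C * m ≤ |C| * m := mul_le_mul_of_nonneg_right (le_abs_self _) hm0
        have h3 : Real.log b * n ≤ Real.log b * (|C| * m) :=
          mul_le_mul_of_nonneg_left (hn.trans h2) hlb.le
        calc C * m + Real.log b * n ≤ |C| * m + Real.log b * (|C| * m) := add_le_add h2 h3
          _ = _ := by ring

lemma pow_eq_exp {b : ℕ} (hb : 2 ≤ b) (y : ℝ) : (b : ℝ) ^ y = Real.exp (Real.log b * y) := by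
  have hb1 : (1 : ℝ) < b := by exact_mod_cast hb
  rw [Real.rpow_def_of_pos (by linarith)]

/-- common words of `x` and of `(∑ v_l θ_l) / D`, general form -/
theorem words_gen {r : ℕ} (x : ℝ) (hx : IsAlgebraic ℚ x) (θ : Fin r → ℝ)
    (hθ : ∀ l, IsAlgebraic ℚ (θ l)) (ℓ : ℝ →ₗ[ℚ] ℚ) (hℓ : ℓ 1 = 0) {S : Finset ℕ}
    (hS : ∀ p ∈ S, p.Prime) {b : ℕ} (hb : 2 ≤ b) (C δ : ℝ) (hδ : 0 < δ) :
    ∃ U : ℕ, ∀ m : ℕ, U ≤ m → ∀ (n n' D : ℕ) (v : Fin r → ℤ),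
      (n : ℝ) ≤ C * m → (n' : ℝ) ≤ C * m → 0 < D → (∀ p : ℕ, p.Prime → p ∣ D → p ∈ Sb S b) →
      (D : ℝ) ≤ Real.exp (C * m) → (∀ l, |(v l : ℝ)| ≤ Real.exp (C * m)) →
      blk b x n m = blk b ((∑ l, θ l * v l) / D) n' m →
      min (D : ℝ) |(D : ℝ) * b ^ n * ((ℓ x : ℚ) : ℝ) -
          b ^ n' * ∑ l, ((ℓ (θ l) : ℚ) : ℝ) * v l| * (b : ℝ) ^ ((1 - δ) * (m : ℝ)) ≤
        D * ∏ l, (fr S (v l) : ℝ) := by
  classical
  have hb1 : (1 : ℝ) < b := by exact_mod_cast hb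
  have hlb : 0 < Real.log b := Real.log_pos hb1
  obtain ⟨U, hU⟩ := main (Fin.cons x θ : Fin (r + 1) → ℝ)
    (by
      intro l
      refine Fin.cases ?_ (fun l => ?_) l
      · simpa using hx
      · simpa using hθ l) ℓ hℓ (Sb_prime hS b) (|C| + |C| * Real.log b) (δ * Real.log b)
    (by positivity)
  refine ⟨U, fun m hm n n' D v hn hn' hD0 hDS hDC hv hbl => ?_⟩
  have hDR : (0 : ℝ) < D := by exact_mod_cast hD0
  obtain ⟨M1, h1, h1'⟩ := blk_spec b x n m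
  obtain ⟨M2, h2, h2'⟩ := blk_spec b ((∑ l, θ l * v l) / D) n' m
  rw [← hbl] at h2 h2'
  have hbm : (0 : ℝ) < (b : ℝ) ^ m := by positivity
  have key := hU m hm D (Fin.cons ((D : ℤ) * (b : ℤ) ^ n) fun l => -(v l * (b : ℤ) ^ n'))
    (M1 - M2) hD0 hDS (by
      have := size_b hb (n := 0) (C := C) (m := m) (v := (D : ℝ)) (by
        have := (Nat.cast_nonneg (α := ℝ) n).trans hn
        simpa using this) (by rwa [abs_of_pos hDR])
      rwa [pow_zero, mul_one, abs_of_pos hDR] at this) (by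
      intro l
      refine Fin.cases ?_ (fun l => ?_) l
      · rw [Fin.cons_zero]
        push_cast
        exact size_b hb hn (by rwa [abs_of_pos hDR])
      · rw [Fin.cons_succ]
        push_cast
        rw [abs_neg]
        exact size_b hb hn' (hv l))
  have hsum : ∑ l : Fin (r + 1), (Fin.cons x θ : Fin (r + 1) → ℝ) l *
      (((Fin.cons ((D : ℤ) * (b : ℤ) ^ n) fun l => -(v l * (b : ℤ) ^ n') :
        Fin (r + 1) → ℤ) l : ℤ) : ℝ) =
      D * b ^ n * x - b ^ n' * ∑ l, θ l * v l := by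
    rw [Fin.sum_univ_succ]
    simp only [Fin.cons_zero, Fin.cons_succ]
    push_cast
    rw [Finset.mul_sum, sub_eq_add_neg, ← Finset.sum_neg_distrib]
    congr 1
    · ring
    · exact Finset.sum_congr rfl fun l _ => by ring
  have hℓs : ((ℓ (D * b ^ n * x - b ^ n' * ∑ l, θ l * (v l : ℝ)) : ℚ) : ℝ) =
      (D : ℝ) * b ^ n * ((ℓ x : ℚ) : ℝ) - b ^ n' * ∑ l, ((ℓ (θ l) : ℚ) : ℝ) * v l := by
    have e1 : (D : ℝ) * b ^ n * x = (((D : ℤ) * (b : ℤ) ^ n : ℤ) : ℝ) * x := by push_cast; ring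
    have e2 : (b : ℝ) ^ n' * ∑ l, θ l * (v l : ℝ) =
        (((b : ℤ) ^ n' : ℤ) : ℝ) * ∑ l, ((v l : ℤ) : ℝ) * θ l := by
      push_cast
      congr 1
      exact Finset.sum_congr rfl fun l _ => mul_comm _ _
    rw [e1, e2, map_sub, fun_int, fun_int, map_sum]
    simp only [fun_int]
    push_cast
    congr 2
    exact Finset.sum_congr rfl fun l _ => mul_comm _ _
  rw [hsum, hℓs, Fin.prod_univ_succ] at key
  simp only [Fin.cons_zero, Fin.cons_succ] at key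
  rw [fr_unit (Sb_prime hS b) (u := (D : ℤ) * (b : ℤ) ^ n) (by positivity) (by
    intro p hp hd
    rw [Int.natAbs_mul, Int.natAbs_natCast, Int.natAbs_pow, Int.natAbs_natCast] at hd
    rcases (hp.dvd_mul).1 hd with h | h
    · exact hDS p hp h
    · exact Sb_pow hb n p hp h), Nat.cast_one, one_mul] at key
  have hprod : ∏ l, (fr (Sb S b) (-(v l * (b : ℤ) ^ n')) : ℝ) ≤ ∏ l, (fr S (v l) : ℝ) := by
    refine Finset.prod_le_prod (fun _ _ => Nat.cast_nonneg _) fun l _ => ?_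
    rw [fr_neg]
    exact_mod_cast fr_le hS hb n' (v l)
  have hdist : |(D : ℝ) * b ^ n * x - b ^ n' * ∑ l, θ l * (v l : ℝ) - D * ((M1 - M2 : ℤ) : ℝ)| *
      (b : ℝ) ^ m ≤ D := by
    have e3 : (D : ℝ) * b ^ n * x - b ^ n' * ∑ l, θ l * (v l : ℝ) - D * ((M1 - M2 : ℤ) : ℝ) =
        D * ((b ^ n * x - M1) - (b ^ n' * ((∑ l, θ l * (v l : ℝ)) / D) - M2)) := by
      push_cast
      field_simp
      ring
    rw [e3, abs_mul, abs_of_pos hDR, mul_assoc]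
    refine mul_le_of_le_one_right hDR.le ?_
    rw [← abs_of_pos hbm, ← abs_mul, abs_le]
    rw [pow_add] at h1 h1' h2 h2'
    constructor <;> nlinarith
  set E := min (D : ℝ) |(D : ℝ) * b ^ n * ((ℓ x : ℚ) : ℝ) -
          b ^ n' * ∑ l, ((ℓ (θ l) : ℚ) : ℝ) * v l| with hE
  have h5 : (b : ℝ) ^ ((1 - δ) * (m : ℝ)) = Real.exp (-(δ * Real.log b * m)) * (b : ℝ) ^ m := by
    have : (b : ℝ) ^ m = Real.exp (Real.log b * m) := by
      rw [← pow_eq_exp hb, Real.rpow_natCast]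
    rw [pow_eq_exp hb, this, ← Real.exp_add]
    congr 1
    ring
  rw [h5]
  have hP0 : 0 ≤ ∏ l, (fr S (v l) : ℝ) := Finset.prod_nonneg fun _ _ => Nat.cast_nonneg _
  calc E * (Real.exp (-(δ * Real.log b * m)) * (b : ℝ) ^ m)
      = E * Real.exp (-(δ * Real.log b * m)) * (b : ℝ) ^ m := by ring
    _ ≤ (|(D : ℝ) * b ^ n * x - b ^ n' * ∑ l, θ l * (v l : ℝ) - D * ((M1 - M2 : ℤ) : ℝ)| *
          ∏ l, (fr (Sb S b) (-(v l * (b : ℤ) ^ n')) : ℝ)) * (b : ℝ) ^ m :=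
        mul_le_mul_of_nonneg_right key hbm.le
    _ ≤ (|(D : ℝ) * b ^ n * x - b ^ n' * ∑ l, θ l * (v l : ℝ) - D * ((M1 - M2 : ℤ) : ℝ)| *
          ∏ l, (fr S (v l) : ℝ)) * (b : ℝ) ^ m := by gcongr
    _ = (|(D : ℝ) * b ^ n * x - b ^ n' * ∑ l, θ l * (v l : ℝ) - D * ((M1 - M2 : ℤ) : ℝ)| *
          (b : ℝ) ^ m) * ∏ l, (fr S (v l) : ℝ) := by ring
    _ ≤ D * ∏ l, (fr S (v l) : ℝ) := mul_le_mul_of_nonneg_right hdist hP0

end Pool.Agent.U773.BD
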