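import Mathlib
import Pool.Agent.U773.BD.Words

/-! Corollaries on common words. -/

set_option autoImplicit false

open Finset Filter Topology

namespace Pool.Agent.U773.BD

open Pool.Agent.TH419.WI Pool.Agent.N671.OPN Pool.Agent.U773.SF Pool.Agent.U773.WN
  Pool.Agent.U773.RS

theorem words {r : ℕ} (x : ℝ) (hx : IsAlgebraic ℚ x) (θ : Fin r → ℝ)
    (hθ : ∀ l, IsAlgebraic ℚ (θ l)) (hind : x ∉ Submodule.span ℚ (insert 1 (Set.range θ)))
    {S : Finset ℕ} (hS : ∀ p ∈ S, p.Prime) {b : ℕ} (hb : 2 ≤ b) (C δ : ℝ) (hδ : 0 < δ) :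
    ∃ U : ℕ, ∀ m : ℕ, U ≤ m → ∀ (n n' D : ℕ) (v : Fin r → ℤ),
      (n : ℝ) ≤ C * m → (n' : ℝ) ≤ C * m → 0 < D → (∀ p : ℕ, p.Prime → p ∣ D → p ∈ Sb S b) →
      (D : ℝ) ≤ Real.exp (C * m) → (∀ l, |(v l : ℝ)| ≤ Real.exp (C * m)) →
      blk b x n m = blk b ((∑ l, θ l * v l) / D) n' m →
      (b : ℝ) ^ ((1 - δ) * (m : ℝ)) ≤ ∏ l, (fr S (v l) : ℝ) := by
  obtain ⟨ℓ, h1, h2⟩ := exists_fun _ hind
  have h3 : ℓ 1 = 0 := h2 _ (Submodule.subset_span (Set.mem_insert _ _))
  have h4 : ∀ l, ℓ (θ l) = 0 := fun l => h2 _ (Submodule.subset_span (Or.inr ⟨l, rfl⟩))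
  obtain ⟨U, hU⟩ := words_gen x hx θ hθ ℓ h3 hS hb C δ hδ
  refine ⟨U, fun m hm n n' D v hn hn' hD0 hDS hDC hv hbl => ?_⟩
  have key := hU m hm n n' D v hn hn' hD0 hDS hDC hv hbl
  have hDR : (0 : ℝ) < D := by exact_mod_cast hD0
  simp only [h1, h4, Rat.cast_zero, zero_mul, Finset.sum_const_zero, mul_zero, sub_zero,
    Rat.cast_one, mul_one] at key
  have hb1 : (1 : ℝ) ≤ (b : ℝ) ^ n := one_le_pow₀ (by exact_mod_cast (by omega : 1 ≤ b))
  rw [abs_of_pos (by positivity), min_eq_left (le_mul_of_one_le_right hDR.le hb1)] at key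
  exact le_of_mul_le_mul_left key hDR

/-- two different units are not close to each other -/
theorem unit_diff {S : Finset ℕ} (hS : ∀ p ∈ S, p.Prime) (C ε : ℝ) (hε : 0 < ε) :
    ∃ U : ℕ, ∀ N : ℕ, U ≤ N → ∀ u w : ℤ, 0 < u → 0 < w →
      (∀ p : ℕ, p.Prime → p ∣ u.natAbs → p ∈ S) → (∀ p : ℕ, p.Prime → p ∣ w.natAbs → p ∈ S) →
      (u : ℝ) ≤ Real.exp (C * N) → (w : ℝ) ≤ Real.exp (C * N) → u ≠ w →
      (u : ℝ) * Real.exp (-(ε * N)) < |(u : ℝ) - w| := by
  classical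
  by_contra hcon
  push Not at hcon
  choose N hN u w hu hw huS hwS huC hwC hne hsm using hcon
  have hNt : Tendsto (fun t => (N t : ℝ)) atTop atTop :=
    tendsto_natCast_atTop_atTop.comp (tendsto_atTop_mono hN tendsto_id)
  have hC' : ∀ t, Real.exp (C * N t) ≤ Real.exp (|C| * N t) := fun t =>
    Real.exp_le_exp.2 (mul_le_mul_of_nonneg_right (le_abs_self _) (Nat.cast_nonneg _))
  have hmon : ∀ z : ℤ, 0 < z → (∀ p : ℕ, p.Prime → p ∣ z.natAbs → p ∈ S) →
      mon (gS S) (fun i => z.natAbs.factorization (gS S i)) = z := by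
    intro z hz hzS
    rw [mon_spart, spart_self hS (Int.natAbs_ne_zero.2 hz.ne') hzS, Int.natCast_natAbs,
      abs_of_pos hz]
  obtain ⟨y, hy, hfreq⟩ := relP ℤ (Int.castRingHom ℂ) (fun x => by simp) (gS S) (gS_pos hS)
    (0 : Fin 2) ![1, -1] (by simp) |C| ε (abs_nonneg _) hε (fun t => (N t : ℝ)) hNt
    (fun t => ![fun i => (u t).natAbs.factorization (gS S i),
      fun i => (w t).natAbs.factorization (gS S i)])
    (fun t => ![1, 1])
    (by
      refine Eventually.of_forall fun t l => ?_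
      fin_cases l
      · simp only [Fin.zero_eta, Matrix.cons_val_zero]
        rw [hmon _ (hu t) (huS t)]
        exact (huC t).trans (hC' t)
      · simp only [Fin.mk_one, Matrix.cons_val_one, Matrix.cons_val_zero]
        rw [hmon _ (hw t) (hwS t)]
        exact (hwC t).trans (hC' t))
    (by
      refine Eventually.of_forall fun t l => ?_
      fin_cases l <;> simp)
    (by
      refine Eventually.of_forall fun t l => ?_
      have h1 : 1 ≤ Real.exp (|C| * N t) := Real.one_le_exp (by positivity)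
      fin_cases l <;> simpa using h1)
    (by
      refine Eventually.of_forall fun t => ?_
      have h5 : (univ : Finset (Fin 2)).erase 0 = {1} := by decide
      rw [h5, Finset.prod_singleton, Fin.sum_univ_two]
      simp only [Matrix.cons_val_zero, Matrix.cons_val_one, mul_one]
      rw [hmon _ (hu t) (huS t), hmon _ (hw t) (hwS t)]
      have h6 : ((Int.castRingHom ℂ) (1 * ((u t : ℤ) : ℤ) + -1 * ((w t : ℤ) : ℤ))) =
          (((u t : ℝ) - w t : ℝ) : ℂ) := by
        simp [sub_eq_add_neg]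
      rw [show (Int.cast (u t) : ℤ) = u t from rfl, show (Int.cast (w t) : ℤ) = w t from rfl, h6,
        Complex.norm_real, Real.norm_eq_abs, Int.cast_one, abs_one, mul_one]
      exact hsm t)
  obtain ⟨ψ, hψ, hrel⟩ := Filter.extraction_of_frequently_atTop hfreq
  have hrel' : ∀ t, y 0 * u (ψ t) + y 1 * w (ψ t) = 0 := by
    intro t
    have h4 := hrel t
    rw [Fin.sum_univ_two] at h4
    simp only [Matrix.cons_val_zero, Matrix.cons_val_one, mul_one] at h4
    rwa [hmon _ (hu _) (huS _), hmon _ (hw _) (hwS _)] at h4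
  have hy1 : y 1 ≠ 0 := by
    intro h0
    have h1 := hrel' 0
    rw [h0, zero_mul, add_zero] at h1
    rcases mul_eq_zero.1 h1 with h | h
    · apply hy
      funext l
      fin_cases l
      · exact h
      · exact h0
    · exact (hu _).ne' h
  -- `(u - w) y 1 = u (y 1 + y 0)`
  have hlin : ∀ t, (y 1) * (u (ψ t) - w (ψ t)) = u (ψ t) * (y 1 + y 0) := fun t => by
    have := hrel' t
    linear_combination -this
  have hne0 : y 1 + y 0 ≠ 0 := by
    intro h0
    have h1 := hlin 0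
    rw [h0, mul_zero] at h1
    rcases mul_eq_zero.1 h1 with h | h
    · exact hy1 h
    · exact hne _ (sub_eq_zero.1 h)
  obtain ⟨t, ht⟩ := ((hNt.comp hψ.tendsto_atTop).eventually_gt_atTop
    (Real.log |(y 1 : ℝ)| / ε)).exists
  simp only [Function.comp] at ht
  have huR : (0 : ℝ) < u (ψ t) := by exact_mod_cast hu (ψ t)
  have hy1R : (0 : ℝ) < |(y 1 : ℝ)| := abs_pos.2 (by exact_mod_cast hy1)
  have h1 : |(y 1 : ℝ)| * |(u (ψ t) : ℝ) - w (ψ t)| = u (ψ t) * |((y 1 + y 0 : ℤ) : ℝ)| := by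
    rw [← abs_mul, ← abs_of_pos huR, ← abs_mul, abs_of_pos huR]
    congr 1
    exact_mod_cast hlin t
  have h2 : (1 : ℝ) ≤ |((y 1 + y 0 : ℤ) : ℝ)| := by
    have : 1 ≤ |y 1 + y 0| := Int.one_le_abs hne0
    exact_mod_cast this
  have h3 : |(y 1 : ℝ)| < Real.exp (ε * N (ψ t)) := by
    rw [div_lt_iff₀ hε] at ht
    rw [← Real.log_lt_iff_lt_exp hy1R]
    linarith
  have h4 : (u (ψ t) : ℝ) ≤ |(y 1 : ℝ)| * (u (ψ t) * Real.exp (-(ε * N (ψ t)))) := by
    calc (u (ψ t) : ℝ) ≤ u (ψ t) * |((y 1 + y 0 : ℤ) : ℝ)| := le_mul_of_one_le_right huR.le h2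
      _ = |(y 1 : ℝ)| * |(u (ψ t) : ℝ) - w (ψ t)| := h1.symm
      _ ≤ _ := mul_le_mul_of_nonneg_left (hsm _) hy1R.le
  have h5 : |(y 1 : ℝ)| * (u (ψ t) * Real.exp (-(ε * N (ψ t)))) < u (ψ t) := by
    calc |(y 1 : ℝ)| * (u (ψ t) * Real.exp (-(ε * N (ψ t))))
        < Real.exp (ε * N (ψ t)) * (u (ψ t) * Real.exp (-(ε * N (ψ t)))) :=
          mul_lt_mul_of_pos_right h3 (by positivity)
      _ = u (ψ t) * (Real.exp (ε * N (ψ t)) * Real.exp (-(ε * N (ψ t)))) := by ring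
      _ = u (ψ t) := by rw [← Real.exp_add]; simp
  linarith

/-- `x` and its multiples by units have no common long words -/
theorem words_unit (x : ℝ) (hx : IsAlgebraic ℚ x) (hirr : Irrational x)
    {S : Finset ℕ} (hS : ∀ p ∈ S, p.Prime) {b : ℕ} (hb : 2 ≤ b) (C : ℝ) :
    ∃ U : ℕ, ∀ m : ℕ, U ≤ m → ∀ n n' D w : ℕ,
      (n : ℝ) ≤ C * m → (n' : ℝ) ≤ C * m → 0 < D → 0 < w →
      (∀ p : ℕ, p.Prime → p ∣ D → p ∈ Sb S b) → (∀ p : ℕ, p.Prime → p ∣ w → p ∈ Sb S b) →
      (D : ℝ) ≤ Real.exp (C * m) → (w : ℝ) ≤ Real.exp (C * m) →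
      blk b x n m = blk b (x * w / D) n' m → D * b ^ n = w * b ^ n' := by
  have hb1 : (1 : ℝ) < b := by exact_mod_cast hb
  have hlb : 0 < Real.log b := Real.log_pos hb1
  obtain ⟨ℓ, hℓx, hℓ1⟩ := exists_fun_irr hirr
  have hSp := Sb_prime hS b
  have hSb : ∀ p : ℕ, p.Prime → ∀ k, p ∣ b ^ k → p ∈ Sb (Sb S b) b := fun p hp k h =>
    Sb_pow hb k p hp h
  obtain ⟨U1, hU1⟩ := words_gen x hx (fun _ : Fin 1 => x) (fun _ => hx) ℓ hℓ1 hSp hb C (1 / 2)
    (by norm_num)
  obtain ⟨U2, hU2⟩ := unit_diff hSp (|C| + |C| * Real.log b) (Real.log b / 4) (by positivity)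
  refine ⟨U1 + U2 + 1, fun m hm n n' D w hn hn' hD0 hw0 hDS hwS hDC hwC hbl => ?_⟩
  by_contra hne
  have hDR : (0 : ℝ) < D := by exact_mod_cast hD0
  have hwR : (0 : ℝ) < w := by exact_mod_cast hw0
  have h1 := hU1 m (by omega) n n' D (fun _ => (w : ℤ)) hn hn' hD0
    (fun p hp h => mem_union_left _ (hDS p hp h)) hDC (fun _ => by
      rw [Int.cast_natCast, abs_of_pos hwR]; exact hwC) (by simpa using hbl)
  have hDb : 0 < D * b ^ n := by positivity
  have hwb : 0 < w * b ^ n' := by positivity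
  have h2 := hU2 m (by omega) ((D * b ^ n : ℕ) : ℤ) ((w * b ^ n' : ℕ) : ℤ)
    (by exact_mod_cast hDb) (by exact_mod_cast hwb)
    (fun p hp h => by
      rw [Int.natAbs_natCast] at h
      rcases (hp.dvd_mul).1 h with h | h
      · exact hDS p hp h
      · exact Sb_pow hb n p hp h)
    (fun p hp h => by
      rw [Int.natAbs_natCast] at h
      rcases (hp.dvd_mul).1 h with h | h
      · exact hwS p hp h
      · exact Sb_pow hb n' p hp h)
    (by
      have := size_b hb hn (v := (D : ℝ)) (by rwa [abs_of_pos hDR])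
      rw [abs_of_pos (by positivity)] at this
      push_cast
      exact this)
    (by
      have := size_b hb hn' (v := (w : ℝ)) (by rwa [abs_of_pos hwR])
      rw [abs_of_pos (by positivity)] at this
      push_cast
      exact this)
    (by exact_mod_cast hne)
  simp only [Finset.univ_unique, Finset.sum_singleton, Finset.prod_singleton, hℓx,
    Rat.cast_one, mul_one, one_mul] at h1
  rw [fr_unit hSp (u := (w : ℤ)) (by exact_mod_cast hw0.ne') (by
    intro p hp h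
    rw [Int.natAbs_natCast] at h
    exact hwS p hp h), Nat.cast_one, mul_one] at h1
  push_cast at h1 h2
  have hm1 : (1 : ℝ) ≤ m := by exact_mod_cast (by omega : 1 ≤ m)
  have hbn : (1 : ℝ) ≤ (b : ℝ) ^ n := one_le_pow₀ hb1.le
  have he : Real.exp (-(Real.log b / 4 * m)) ≤ 1 := by
    rw [Real.exp_le_one_iff]
    have : 0 ≤ Real.log b / 4 * m := by positivity
    linarith
  have h3 : (D : ℝ) * Real.exp (-(Real.log b / 4 * m)) ≤
      min (D : ℝ) |(D : ℝ) * b ^ n - b ^ n' * w| := by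
    refine le_min (mul_le_of_le_one_right hDR.le he) ?_
    rw [mul_comm ((b : ℝ) ^ n')]
    refine le_trans ?_ h2.le
    exact mul_le_mul_of_nonneg_right (le_mul_of_one_le_right hDR.le hbn) (Real.exp_pos _).le
  have h4 : (D : ℝ) * Real.exp (-(Real.log b / 4 * m)) * (b : ℝ) ^ ((1 - 1 / 2) * (m : ℝ)) ≤ D :=
    (mul_le_mul_of_nonneg_right h3 (by positivity)).trans h1
  rw [pow_eq_exp hb, mul_assoc, ← Real.exp_add] at h4
  have h5 : Real.exp (-(Real.log b / 4 * m) + Real.log b * ((1 - 1 / 2) * m)) ≤ 1 :=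
    le_of_mul_le_mul_left (by rwa [mul_one]) hDR
  rw [Real.exp_le_one_iff] at h5
  nlinarith

end Pool.Agent.U773.BD
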