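import Mathlib
import Pool.Agent.U773.BD.Cor

/-! Integers whose expansion contains a long word of the expansion of an algebraic number. -/

set_option autoImplicit false

open Finset Filter Topology

namespace Pool.Agent.U773.BD

open Pool.Agent.TH419.WI Pool.Agent.N671.OPN Pool.Agent.U773.SF Pool.Agent.U773.WN
  Pool.Agent.U773.RS

lemma irr_not_mem {r : ℕ} {x : ℝ} (hirr : Irrational x) :
    x ∉ Submodule.span ℚ (insert 1 (Set.range (fun _ : Fin r => (1 : ℝ)))) := by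
  intro h
  have h1 : Submodule.span ℚ (insert 1 (Set.range (fun _ : Fin r => (1 : ℝ)))) ≤
      Submodule.span ℚ {(1 : ℝ)} := by
    refine Submodule.span_mono ?_
    rintro y (rfl | ⟨l, rfl⟩)
    · rfl
    · rfl
  obtain ⟨q, hq⟩ := Submodule.mem_span_singleton.1 (h1 h)
  apply hirr
  refine ⟨q, ?_⟩
  rw [← hq, Rat.smul_def, mul_one]

lemma blk_int {b : ℕ} (hb : 2 ≤ b) (Z h m : ℕ) :
    blk b ((Z : ℝ) / ((b ^ (h + m) : ℕ) : ℝ)) 0 m = (((Z / b ^ h) % b ^ m : ℕ) : ℤ) := by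
  have hb0 : (0 : ℝ) < b := by positivity
  unfold blk
  have h1 : (b : ℝ) ^ (0 + m) * ((Z : ℝ) / ((b ^ (h + m) : ℕ) : ℝ)) = (Z : ℝ) / ((b ^ h : ℕ) : ℝ) := by
    push_cast
    rw [zero_add, pow_add]
    field_simp
  rw [h1]
  have h2 : ⌊(Z : ℝ) / ((b ^ h : ℕ) : ℝ)⌋ = ((Z / b ^ h : ℕ) : ℤ) := by
    rw [← Nat.floor_div_eq_div (K := ℝ), Int.natCast_floor_eq_floor (by positivity)]
  rw [h2]
  push_cast
  rfl

theorem integers {r : ℕ} (x : ℝ) (hx : IsAlgebraic ℚ x) (hirr : Irrational x)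
    {S : Finset ℕ} (hS : ∀ p ∈ S, p.Prime) {b : ℕ} (hb : 2 ≤ b) (C δ : ℝ) (hδ : 0 < δ) :
    ∃ U : ℕ, ∀ m : ℕ, U ≤ m → ∀ (n h Z : ℕ) (v : Fin r → ℤ),
      (n : ℝ) ≤ C * m → (h : ℝ) ≤ C * m → (Z : ℤ) = ∑ l, v l →
      (∀ l, |(v l : ℝ)| ≤ Real.exp (C * m)) →
      (((Z / b ^ h) % b ^ m : ℕ) : ℤ) = blk b x n m →
      (b : ℝ) ^ ((1 - δ) * (m : ℝ)) ≤ ∏ l, (fr S (v l) : ℝ) := by
  have hb1 : (1 : ℝ) < b := by exact_mod_cast hb
  have hlb : 0 < Real.log b := Real.log_pos hb1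
  set C1 : ℝ := |C| + (|C| + 1) * Real.log b with hC1
  have hCC : C ≤ C1 := by
    have := le_abs_self C
    have : 0 ≤ (|C| + 1) * Real.log b := by positivity
    linarith
  obtain ⟨U, hU⟩ := words x hx (fun _ : Fin r => 1) (fun _ => isAlgebraic_one)
    (irr_not_mem hirr) hS hb C1 δ hδ
  refine ⟨U, fun m hm n h Z v hn hh hZ hv hbl => ?_⟩
  have hm0 : (0 : ℝ) ≤ m := Nat.cast_nonneg _
  have hCm : C * m ≤ C1 * m := mul_le_mul_of_nonneg_right hCC hm0
  refine hU m hm n 0 (b ^ (h + m)) v (hn.trans hCm) ?_ (by positivity)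
    (fun p hp hd => Sb_pow hb _ p hp hd) ?_
    (fun l => (hv l).trans (Real.exp_le_exp.2 hCm)) ?_
  · rw [Nat.cast_zero]
    exact ((Nat.cast_nonneg n).trans hn).trans hCm
  · have h1 : ((b ^ (h + m) : ℕ) : ℝ) = Real.exp (Real.log b * ((h + m : ℕ) : ℝ)) := by
      rw [← pow_eq_exp hb, Real.rpow_natCast]
      push_cast
      rfl
    rw [h1]
    apply Real.exp_le_exp.2
    push_cast
    have h2 : (h : ℝ) ≤ |C| * m := hh.trans (mul_le_mul_of_nonneg_right (le_abs_self _) hm0)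
    have h3 : 0 ≤ |C| * m := by positivity
    calc Real.log b * (h + m) ≤ Real.log b * (|C| * m + m) := by gcongr
      _ = (|C| + 1) * Real.log b * m := by ring
      _ ≤ C1 * m := by
          apply mul_le_mul_of_nonneg_right _ hm0
          rw [hC1]
          have := abs_nonneg C
          linarith
  · rw [← hbl, ← blk_int hb Z h m]
    congr 2
    simp only [one_mul]
    exact_mod_cast congrArg (fun u : ℤ => (u : ℝ)) hZ

lemma half_gt {b : ℕ} (hb : 2 ≤ b) (K : ℝ) : ∃ U : ℕ, ∀ m : ℕ, U ≤ m →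
    K < (b : ℝ) ^ ((1 - 1 / 2) * (m : ℝ)) := by
  have hb1 : (1 : ℝ) < b := by exact_mod_cast hb
  have hlb : 0 < Real.log b := Real.log_pos hb1
  have h1 : Tendsto (fun m : ℕ => Real.exp (Real.log b / 2 * (m : ℝ))) atTop atTop :=
    Real.tendsto_exp_atTop.comp
      (tendsto_natCast_atTop_atTop.const_mul_atTop (by positivity))
  obtain ⟨U, hU⟩ := eventually_atTop.1 (h1.eventually_gt_atTop K)
  refine ⟨U, fun m hm => ?_⟩
  have h2 := hU m hm
  rw [pow_eq_exp hb, show Real.log b * ((1 - 1 / 2) * (m : ℝ)) = Real.log b / 2 * (m : ℝ) by ring]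
  exact h2

lemma block_ne {b : ℕ} (hb : 2 ≤ b) (x : ℝ) (hx : IsAlgebraic ℚ x) (hirr : Irrational x)
    (C : ℝ) : ∃ U : ℕ, ∀ m : ℕ, U ≤ m → ∀ n : ℕ, (n : ℝ) ≤ C * m → blk b x n m ≠ 0 := by
  obtain ⟨U1, h1⟩ := integers (r := 0) x hx hirr (S := ∅) (by simp) hb C (1 / 2) (by norm_num)
  obtain ⟨U2, h2⟩ := half_gt hb 1
  refine ⟨U1 + U2, fun m hm n hn h0 => ?_⟩
  have h3 := h1 m (by omega) n 0 0 (fun l => 0) hn (by
    rw [Nat.cast_zero]; exact (Nat.cast_nonneg n).trans hn) (by simp) (fun l => l.elim0)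
    (by simp [h0])
  have h4 := h2 m (by omega)
  simp only [Finset.univ_eq_empty, Finset.prod_empty] at h3
  linarith

/-- the bound for the place of the word is automatic -/
theorem integers' {r : ℕ} (x : ℝ) (hx : IsAlgebraic ℚ x) (hirr : Irrational x)
    {S : Finset ℕ} (hS : ∀ p ∈ S, p.Prime) {b : ℕ} (hb : 2 ≤ b) (C δ : ℝ) (hδ : 0 < δ) :
    ∃ U : ℕ, ∀ m : ℕ, U ≤ m → ∀ (n h Z : ℕ) (v : Fin r → ℤ),
      (n : ℝ) ≤ C * m → (Z : ℝ) ≤ Real.exp (C * m) → (Z : ℤ) = ∑ l, v l →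
      (∀ l, |(v l : ℝ)| ≤ Real.exp (C * m)) →
      (((Z / b ^ h) % b ^ m : ℕ) : ℤ) = blk b x n m →
      Z ≠ 0 ∧ (b : ℝ) ^ ((1 - δ) * (m : ℝ)) ≤ ∏ l, (fr S (v l) : ℝ) := by
  have hb1 : (1 : ℝ) < b := by exact_mod_cast hb
  have hlb : 0 < Real.log b := Real.log_pos hb1
  obtain ⟨U1, h1⟩ := block_ne hb x hx hirr C
  set C1 : ℝ := |C| + |C| / Real.log b with hC1
  have hCC : C ≤ C1 := by
    have := le_abs_self C
    have : 0 ≤ |C| / Real.log b := by positivity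
    linarith
  obtain ⟨U2, h2⟩ := integers (r := r) x hx hirr hS hb C1 δ hδ
  refine ⟨U1 + U2, fun m hm n h Z v hn hZC hZ hv hbl => ?_⟩
  have hm0 : (0 : ℝ) ≤ m := Nat.cast_nonneg _
  have hCm : C * m ≤ C1 * m := mul_le_mul_of_nonneg_right hCC hm0
  have h3 := h1 m (by omega) n hn
  rw [← hbl] at h3
  have hbh : b ^ h ≤ Z := by
    by_contra hlt
    push Not at hlt
    apply h3
    rw [Nat.div_eq_of_lt hlt]
    simp
  have hZ0 : Z ≠ 0 := by
    rintro rfl
    have : 0 < b ^ h := by positivity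
    omega
  refine ⟨hZ0, h2 m (by omega) n h Z v (hn.trans hCm) ?_ hZ
    (fun l => (hv l).trans (Real.exp_le_exp.2 hCm)) hbl⟩
  have h4 : ((b ^ h : ℕ) : ℝ) ≤ Real.exp (C * m) := (by exact_mod_cast hbh : ((b ^ h : ℕ) : ℝ) ≤ Z).trans hZC
  have h5 : ((b ^ h : ℕ) : ℝ) = Real.exp (Real.log b * h) := by
    rw [← pow_eq_exp hb, Real.rpow_natCast]
    push_cast
    rfl
  rw [h5, Real.exp_le_exp] at h4
  have h6 : (h : ℝ) ≤ C * m / Real.log b := by
    rw [le_div_iff₀ hlb]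
    linarith
  refine h6.trans ?_
  have h7 : C * m / Real.log b ≤ |C| * m / Real.log b := by
    gcongr
    exact le_abs_self _
  have h8 : |C| * m / Real.log b = |C| / Real.log b * m := by ring
  have h9 : 0 ≤ |C| * m := by positivity
  rw [hC1, add_mul, ← h8]
  linarith

theorem integers_free (x : ℝ) (hx : IsAlgebraic ℚ x) (hirr : Irrational x)
    {S : Finset ℕ} (hS : ∀ p ∈ S, p.Prime) {b : ℕ} (hb : 2 ≤ b) (C δ : ℝ) (hδ : 0 < δ) :
    ∃ U : ℕ, ∀ m : ℕ, U ≤ m → ∀ n h Z : ℕ,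
      (n : ℝ) ≤ C * m → (Z : ℝ) ≤ Real.exp (C * m) →
      (((Z / b ^ h) % b ^ m : ℕ) : ℤ) = blk b x n m →
      (b : ℝ) ^ ((1 - δ) * (m : ℝ)) ≤ free S Z := by
  obtain ⟨U, hU⟩ := integers' (r := 1) x hx hirr hS hb C δ hδ
  refine ⟨U, fun m hm n h Z hn hZC hbl => ?_⟩
  obtain ⟨hZ0, h1⟩ := hU m hm n h Z (fun _ => (Z : ℤ)) hn hZC (by simp)
    (fun _ => by rw [Int.cast_natCast, abs_of_nonneg (Nat.cast_nonneg _)]; exact hZC) hbl
  simp only [Finset.univ_unique, Finset.prod_singleton] at h1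
  unfold fr at h1
  rwa [if_neg (by exact_mod_cast hZ0)] at h1

lemma digit_sum' (B q m : ℕ) :
    ∑ t ∈ range m, B / q ^ (m - 1 - t) % q * q ^ (m - 1 - t) = B % q ^ m := by
  rw [← Finset.sum_range_reflect]
  have h : ∀ j ∈ range m, B / q ^ (m - 1 - (m - 1 - j)) % q * q ^ (m - 1 - (m - 1 - j)) =
      B / q ^ j % q * q ^ j := by
    intro j hj
    rw [mem_range] at hj
    rw [show m - 1 - (m - 1 - j) = j by omega]
  rw [Finset.sum_congr rfl h]
  clear h
  induction m with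
  | zero => simp [Nat.mod_one]
  | succ m ih =>
    rw [Finset.sum_range_succ, ih, Nat.mod_pow_succ]
    ring

theorem integers_digits (x : ℝ) (hx : IsAlgebraic ℚ x) (hirr : Irrational x)
    {b : ℕ} (hb : 2 ≤ b) (C : ℝ) {c : ℕ} (hc : 2 ≤ c) (R : ℕ) :
    ∃ U : ℕ, ∀ m : ℕ, U ≤ m → ∀ n h Z : ℕ,
      (n : ℝ) ≤ C * m → (Z : ℝ) ≤ Real.exp (C * m) →
      (((Z / b ^ h) % b ^ m : ℕ) : ℤ) = blk b x n m →
      R < {j : ℕ | Z / c ^ j % c ≠ 0}.ncard := by
  have hP : ∀ p ∈ c.primeFactors, p.Prime := fun p hp => Nat.prime_of_mem_primeFactors hp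
  choose U hU using fun s : ℕ => integers' (r := s) x hx hirr hP hb C (1 / 2) (by norm_num)
  obtain ⟨U', hU'⟩ := half_gt hb ((c : ℝ) ^ R)
  refine ⟨∑ s ∈ range (R + 1), U s + U', ?_⟩
  intro m hm n h w hn hZC hbl
  set T : Finset ℕ := (range w).filter (fun j => w / c ^ j % c ≠ 0) with hT
  have hwb : ∀ j, w ≤ j → w < c ^ j := fun j hj =>
    lt_of_lt_of_le (Nat.lt_pow_self (by omega)) (Nat.pow_le_pow_right (by omega) hj)
  have hset : {j : ℕ | w / c ^ j % c ≠ 0} = (T : Set ℕ) := by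
    ext j
    simp only [Set.mem_setOf_eq, hT, coe_filter, mem_range]
    constructor
    · intro h
      refine ⟨?_, h⟩
      by_contra hj
      push Not at hj
      apply h
      rw [Nat.div_eq_of_lt (hwb j hj), Nat.zero_mod]
    · exact fun h => h.2
  rw [hset, Set.ncard_coe_finset]
  by_contra hcard
  push Not at hcard
  have hsum : w = ∑ j ∈ T, w / c ^ j % c * c ^ j := by
    have h1 := digit_sum' w c w
    rw [Nat.mod_eq_of_lt (hwb w le_rfl), ← Finset.sum_range_reflect] at h1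
    have h2 : ∑ j ∈ range w, w / c ^ (w - 1 - (w - 1 - j)) % c *
        c ^ (w - 1 - (w - 1 - j)) = ∑ j ∈ range w, w / c ^ j % c * c ^ j := by
      refine Finset.sum_congr rfl fun j hj => ?_
      rw [mem_range] at hj
      rw [show w - 1 - (w - 1 - j) = j by omega]
    rw [h2] at h1
    rw [hT, Finset.sum_filter]
    conv_lhs => rw [← h1]
    refine Finset.sum_congr rfl fun j _ => ?_
    split_ifs with h
    · rfl
    · push Not at h
      rw [h, zero_mul]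
  have hUle : U T.card ≤ ∑ s ∈ range (R + 1), U s :=
    Finset.single_le_sum (f := U) (fun _ _ => Nat.zero_le _) (mem_range.2 (by omega))
  let f : Fin T.card ≃ T := T.equivFin.symm
  have hterm : ∀ l, w / c ^ (f l : ℕ) % c * c ^ (f l : ℕ) ≤ w := by
    intro l
    conv_rhs => rw [hsum]
    exact Finset.single_le_sum (f := fun j => w / c ^ j % c * c ^ j) (fun _ _ => Nat.zero_le _)
      (f l).2
  have hdig : ∀ l, 1 ≤ w / c ^ (f l : ℕ) % c ∧ w / c ^ (f l : ℕ) % c < c := by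
    intro l
    have h1 := (f l).2
    simp only [hT, mem_filter] at h1
    exact ⟨by omega, Nat.mod_lt _ (by omega)⟩
  obtain ⟨-, h1⟩ := hU T.card m (by omega) n h w
    (fun l => ((w / c ^ (f l : ℕ) % c * c ^ (f l : ℕ) : ℕ) : ℤ)) hn hZC (by
      have h4 : ∑ l, (w / c ^ (f l : ℕ) % c * c ^ (f l : ℕ)) =
          ∑ j ∈ T, w / c ^ j % c * c ^ j := by
        rw [← Finset.sum_coe_sort T (fun j => w / c ^ j % c * c ^ j)]
        exact Equiv.sum_comp f (fun j : T => w / c ^ (j : ℕ) % c * c ^ (j : ℕ))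
      rw [← Nat.cast_sum, h4, ← hsum]) (fun l => by
      rw [Int.cast_natCast, abs_of_nonneg (Nat.cast_nonneg _)]
      have h3 : ((w / c ^ (f l : ℕ) % c * c ^ (f l : ℕ) : ℕ) : ℝ) ≤ w := by
        exact_mod_cast hterm l
      exact h3.trans hZC) hbl
  have h5 : ∏ l, (fr c.primeFactors (((w / c ^ (f l : ℕ) % c * c ^ (f l : ℕ) : ℕ) : ℤ)) : ℝ) ≤
      (c : ℝ) ^ R := by
    calc _ ≤ ∏ _l : Fin T.card, (c : ℝ) := by
          refine Finset.prod_le_prod (fun _ _ => Nat.cast_nonneg _) fun l _ => ?_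
          have h6 := hdig l
          have h7 : (((w / c ^ (f l : ℕ) % c * c ^ (f l : ℕ) : ℕ) : ℤ)) =
              ((w / c ^ (f l : ℕ) % c : ℕ) : ℤ) * ((c : ℤ) ^ (f l : ℕ)) := by push_cast; ring
          unfold fr
          rw [h7, if_neg (mul_ne_zero (by omega) (pow_ne_zero _ (by omega))),
            free_mul hP (by omega) (pow_ne_zero _ (by omega)),
            free_unit hP (u := (c : ℤ) ^ (f l : ℕ)) (pow_ne_zero _ (by omega)) (by
              intro p hp hd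
              rw [Int.natAbs_pow, Int.natAbs_natCast] at hd
              exact Nat.mem_primeFactors.2 ⟨hp, hp.dvd_of_dvd_pow hd, by omega⟩), mul_one]
          have h8 := free_le_abs c.primeFactors ((w / c ^ (f l : ℕ) % c : ℕ) : ℤ)
          refine h8.trans ?_
          rw [Int.cast_natCast, abs_of_nonneg (Nat.cast_nonneg _)]
          exact_mod_cast h6.2.le
      _ = (c : ℝ) ^ T.card := by
          rw [Finset.prod_const, Finset.card_univ, Fintype.card_fin]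
      _ ≤ (c : ℝ) ^ R := pow_le_pow_right₀ (by exact_mod_cast (by omega : 1 ≤ c)) hcard
  have h6 := hU' m (by omega)
  linarith

end Pool.Agent.U773.BD
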