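import Mathlib
import Pool.Agent.U773.BD.Ints

/-! Several blocks of digits. -/

set_option autoImplicit false

open Finset Filter Topology

namespace Pool.Agent.U773.BD

open Pool.Agent.TH419.WI Pool.Agent.N671.OPN Pool.Agent.U773.SF Pool.Agent.U773.WN
  Pool.Agent.U773.RS

theorem blocks {k r : ℕ} (x : Fin k → ℝ) (hx : ∀ j, IsAlgebraic ℚ (x j)) (θ : Fin r → ℝ)
    (hθ : ∀ l, IsAlgebraic ℚ (θ l)) (ℓ : ℝ →ₗ[ℚ] ℚ) (hℓ : ℓ 1 = 0) {S : Finset ℕ}
    (hS : ∀ p ∈ S, p.Prime) {b : ℕ} (hb : 2 ≤ b) (C δ : ℝ) (hδ : 0 < δ) :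
    ∃ U : ℕ, ∀ m : ℕ, U ≤ m → ∀ (n : Fin k → ℕ) (a : Fin k → ℤ) (v : Fin r → ℤ) (M : ℤ),
      (∀ j, (n j : ℝ) ≤ C * m) → (∀ j, |(a j : ℝ)| ≤ Real.exp (C * m)) →
      (∀ l, |(v l : ℝ)| ≤ Real.exp (C * m)) →
      min ((b : ℝ) ^ m) |(b : ℝ) ^ m * ∑ j, (a j : ℝ) * b ^ n j * ((ℓ (x j) : ℚ) : ℝ) -
          ∑ l, ((ℓ (θ l) : ℚ) : ℝ) * v l| * (b : ℝ) ^ (-(δ * (m : ℝ))) ≤
        (∑ j, |(a j : ℝ)| + |∑ j, (a j : ℝ) * blk b (x j) (n j) m - ∑ l, θ l * v l -
          (b : ℝ) ^ m * M|) * ((∏ j, (fr S (a j) : ℝ)) * ∏ l, (fr S (v l) : ℝ)) := by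
  classical
  have hb1 : (1 : ℝ) < b := by exact_mod_cast hb
  have hlb : 0 < Real.log b := Real.log_pos hb1
  have hb0 : (0 : ℝ) < b := by linarith
  set C1 : ℝ := |C| + (|C| + 1) * Real.log b with hC1
  obtain ⟨U, hU⟩ := main (Fin.append x θ) (by
      intro l
      refine Fin.addCases (fun j => ?_) (fun j => ?_) l
      · rw [Fin.append_left]; exact hx j
      · rw [Fin.append_right]; exact hθ j) ℓ hℓ (Sb_prime hS b) C1 (δ * Real.log b)
    (by positivity)
  refine ⟨U, fun m hm n a v M hn ha hv => ?_⟩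
  have hm0 : (0 : ℝ) ≤ m := Nat.cast_nonneg _
  have hbm : (0 : ℝ) < (b : ℝ) ^ m := by positivity
  have hCC : |C| ≤ C1 := by
    have : 0 ≤ (|C| + 1) * Real.log b := by positivity
    linarith
  have hexp : Real.exp (C * m) ≤ Real.exp (C1 * m) := Real.exp_le_exp.2
    (mul_le_mul_of_nonneg_right ((le_abs_self _).trans hCC) hm0)
  have hbe : ∀ j : ℕ, (b : ℝ) ^ j = Real.exp (Real.log b * j) := fun j => by
    rw [← pow_eq_exp hb, Real.rpow_natCast]
  choose M1 hM1 hM1' using fun j => blk_spec b (x j) (n j) m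
  have key := hU m hm (b ^ m) (Fin.append (fun j => a j * (b : ℤ) ^ (n j + m)) fun l => -v l)
    (∑ j, a j * M1 j + M) (by positivity) (fun p hp hd => Sb_pow hb _ p hp hd) (by
      push_cast
      rw [hbe]
      apply Real.exp_le_exp.2
      apply mul_le_mul_of_nonneg_right _ hm0
      rw [hC1]
      nlinarith [abs_nonneg C]) (by
      intro l
      refine Fin.addCases (fun j => ?_) (fun j => ?_) l
      · rw [Fin.append_left]
        push_cast
        rw [abs_mul, abs_of_pos (by positivity : (0 : ℝ) < (b : ℝ) ^ (n j + m)), hbe]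
        calc |(a j : ℝ)| * Real.exp (Real.log b * ((n j + m : ℕ) : ℝ))
            ≤ Real.exp (|C| * m) * Real.exp (Real.log b * ((|C| + 1) * m)) := by
              have h1 : |(a j : ℝ)| ≤ Real.exp (|C| * m) := (ha j).trans (Real.exp_le_exp.2
                (mul_le_mul_of_nonneg_right (le_abs_self _) hm0))
              have h2 : ((n j + m : ℕ) : ℝ) ≤ (|C| + 1) * m := by
                push_cast
                have := (hn j).trans (mul_le_mul_of_nonneg_right (le_abs_self C) hm0)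
                linarith
              have h3 : Real.exp (Real.log b * ((n j + m : ℕ) : ℝ)) ≤
                  Real.exp (Real.log b * ((|C| + 1) * m)) :=
                Real.exp_le_exp.2 (mul_le_mul_of_nonneg_left h2 hlb.le)
              gcongr
          _ = Real.exp (C1 * m) := by rw [← Real.exp_add, hC1]; congr 1; ring
      · rw [Fin.append_right]
        push_cast
        rw [abs_neg]
        exact (hv j).trans hexp)
  have hsum : ∑ l, Fin.append x θ l * (((Fin.append (fun j => a j * (b : ℤ) ^ (n j + m))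
      fun l => -v l : Fin (k + r) → ℤ) l : ℤ) : ℝ) =
      (b : ℝ) ^ m * ∑ j, (a j : ℝ) * b ^ n j * x j - ∑ l, θ l * v l := by
    rw [Fin.sum_univ_add]
    simp only [Fin.append_left, Fin.append_right]
    push_cast
    rw [Finset.mul_sum, sub_eq_add_neg, ← Finset.sum_neg_distrib]
    congr 1
    · exact Finset.sum_congr rfl fun j _ => by rw [pow_add]; ring
    · exact Finset.sum_congr rfl fun j _ => by ring
  have hℓs : ((ℓ ((b : ℝ) ^ m * ∑ j, (a j : ℝ) * b ^ n j * x j - ∑ l, θ l * v l) : ℚ) : ℝ) =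
      (b : ℝ) ^ m * ∑ j, (a j : ℝ) * b ^ n j * ((ℓ (x j) : ℚ) : ℝ) -
        ∑ l, ((ℓ (θ l) : ℚ) : ℝ) * v l := by
    have e1 : (b : ℝ) ^ m * ∑ j, (a j : ℝ) * b ^ n j * x j =
        (((b : ℤ) ^ m : ℤ) : ℝ) * ∑ j, ((a j * (b : ℤ) ^ n j : ℤ) : ℝ) * x j := by
      push_cast
      rfl
    have e2 : ∑ l, θ l * (v l : ℝ) = ∑ l, ((v l : ℤ) : ℝ) * θ l :=
      Finset.sum_congr rfl fun l _ => mul_comm _ _
    rw [e1, e2, map_sub, fun_int, map_sum, map_sum]
    simp only [fun_int]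
    push_cast
    congr 1
    exact Finset.sum_congr rfl fun l _ => mul_comm _ _
  rw [hsum, hℓs, Fin.prod_univ_add] at key
  simp only [Fin.append_left, Fin.append_right] at key
  push_cast at key
  have hprod : (∏ j, (fr (Sb S b) (a j * (b : ℤ) ^ (n j + m)) : ℝ)) *
      ∏ l, (fr (Sb S b) (-v l) : ℝ) ≤ (∏ j, (fr S (a j) : ℝ)) * ∏ l, (fr S (v l) : ℝ) := by
    have h1 : ∏ j, (fr (Sb S b) (a j * (b : ℤ) ^ (n j + m)) : ℝ) ≤ ∏ j, (fr S (a j) : ℝ) :=
      Finset.prod_le_prod (fun _ _ => Nat.cast_nonneg _) fun j _ => by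
        exact_mod_cast fr_le hS hb _ (a j)
    have h2 : ∏ l, (fr (Sb S b) (-v l) : ℝ) ≤ ∏ l, (fr S (v l) : ℝ) :=
      Finset.prod_le_prod (fun _ _ => Nat.cast_nonneg _) fun l _ => by
        rw [fr_neg]
        have := fr_le hS hb 0 (v l)
        rw [pow_zero, mul_one] at this
        exact_mod_cast this
    exact mul_le_mul h1 h2 (Finset.prod_nonneg fun _ _ => Nat.cast_nonneg _)
      (Finset.prod_nonneg fun _ _ => Nat.cast_nonneg _)
  have hP0 : 0 ≤ (∏ j, (fr S (a j) : ℝ)) * ∏ l, (fr S (v l) : ℝ) :=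
    mul_nonneg (Finset.prod_nonneg fun _ _ => Nat.cast_nonneg _)
      (Finset.prod_nonneg fun _ _ => Nat.cast_nonneg _)
  have hdist : |(b : ℝ) ^ m * ∑ j, (a j : ℝ) * b ^ n j * x j - ∑ l, θ l * v l -
      (b : ℝ) ^ m * (∑ j, (a j : ℝ) * M1 j + M)| ≤
      ∑ j, |(a j : ℝ)| + |∑ j, (a j : ℝ) * blk b (x j) (n j) m - ∑ l, θ l * v l -
          (b : ℝ) ^ m * M| := by
    have e3 : (b : ℝ) ^ m * ∑ j, (a j : ℝ) * b ^ n j * x j - ∑ l, θ l * v l -
        (b : ℝ) ^ m * (∑ j, (a j : ℝ) * M1 j + M) =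
        ∑ j, (a j : ℝ) * (b ^ (n j + m) * x j - b ^ m * M1 j - blk b (x j) (n j) m) +
        (∑ j, (a j : ℝ) * blk b (x j) (n j) m - ∑ l, θ l * v l - (b : ℝ) ^ m * M) := by
      have e4 : ∑ j, (a j : ℝ) * (b ^ (n j + m) * x j - b ^ m * M1 j - blk b (x j) (n j) m) =
          (b : ℝ) ^ m * ∑ j, (a j : ℝ) * b ^ n j * x j - (b : ℝ) ^ m * ∑ j, (a j : ℝ) * M1 j -
          ∑ j, (a j : ℝ) * blk b (x j) (n j) m := by
        rw [Finset.mul_sum, Finset.mul_sum, ← Finset.sum_sub_distrib, ← Finset.sum_sub_distrib]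
        exact Finset.sum_congr rfl fun j _ => by rw [pow_add]; ring
      rw [e4]
      ring
    rw [e3]
    refine (abs_add_le _ _).trans (add_le_add ?_ le_rfl)
    refine (Finset.abs_sum_le_sum_abs _ _).trans (Finset.sum_le_sum fun j _ => ?_)
    rw [abs_mul]
    refine mul_le_of_le_one_right (abs_nonneg _) ?_
    rw [abs_le]
    constructor <;> linarith [hM1 j, hM1' j]
  have h5 : (b : ℝ) ^ (-(δ * (m : ℝ))) = Real.exp (-(δ * Real.log b * m)) := by
    rw [pow_eq_exp hb]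
    congr 1
    ring
  rw [h5]
  refine key.trans ?_
  exact mul_le_mul hdist hprod (mul_nonneg (Finset.prod_nonneg fun _ _ => Nat.cast_nonneg _)
      (Finset.prod_nonneg fun _ _ => Nat.cast_nonneg _)) (by positivity)

end Pool.Agent.U773.BD
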