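import Mathlib
import Pool.Agent.U773.BD.Blocks

/-! Common divisors of several blocks of digits. -/

set_option autoImplicit false

open Finset Filter Topology

namespace Pool.Agent.U773.BD

open Pool.Agent.TH419.WI Pool.Agent.N671.OPN Pool.Agent.U773.SF Pool.Agent.U773.WN
  Pool.Agent.U773.RS

section
attribute [local instance] Matrix.seminormedAddCommGroup

/-- a small integer relation -/
lemma small_rel {k : ℕ} (hk : 2 ≤ k) (u : Fin k → ℤ) (B : ℝ) (hB : 1 ≤ B)
    (hu : ∀ j, |(u j : ℝ)| ≤ B) :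
    ∃ a : Fin k → ℤ, a ≠ 0 ∧ ∑ j, a j * u j = 0 ∧
      ∀ j, |(a j : ℝ)| ≤ (k * B) ^ (1 / ((k : ℝ) - 1)) := by
  have hkR : (2 : ℝ) ≤ k := by exact_mod_cast hk
  obtain ⟨a, ha, hAa, hn⟩ := Int.Matrix.exists_ne_zero_int_vec_norm_le
    (Matrix.of fun (_ : Fin 1) j => u j) (by simp; omega) (by simp)
  refine ⟨a, ha, ?_, fun j => ?_⟩
  · have h1 := congrFun hAa 0
    simp only [Matrix.mulVec, dotProduct, Matrix.of_apply, Pi.zero_apply] at h1
    rw [← h1]
    exact Finset.sum_congr rfl fun j _ => mul_comm _ _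
  · have h1 : |(a j : ℝ)| ≤ ‖a‖ := by
      have := norm_le_pi_norm a j
      rwa [Int.norm_eq_abs] at this
    refine h1.trans (hn.trans ?_)
    have h2 : ‖(Matrix.of fun (_ : Fin 1) j => u j)‖ ≤ B := by
      rw [Matrix.norm_le_iff (by linarith)]
      intro i j
      rw [Matrix.of_apply, Int.norm_eq_abs]
      exact hu j
    simp only [Fintype.card_fin, Nat.cast_one]
    apply Real.rpow_le_rpow (by positivity)
    · exact mul_le_mul_of_nonneg_left (max_le hB h2) (by positivity)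
    · apply div_nonneg zero_le_one
      linarith

end

theorem gcd_blocks {k : ℕ} (hk : 2 ≤ k) (x : ℝ) (hx : IsAlgebraic ℚ x) (hirr : Irrational x)
    {b : ℕ} (hb : 2 ≤ b) (C δ : ℝ) (hδ : 0 < δ) :
    ∃ U : ℕ, ∀ m : ℕ, U ≤ m → ∀ n : Fin k → ℕ, (∀ j, (n j : ℝ) ≤ C * m) →
      (∀ i j, i ≠ j → (m : ℝ) / (k + 1) ≤ |(n i : ℝ) - n j|) →
      ∀ g : ℕ, (∀ j, (g : ℤ) ∣ blk b x (n j) m) →
        (g : ℝ) < (b : ℝ) ^ ((2 / ((k : ℝ) + 1) + δ) * (m : ℝ)) := by
  classical
  have hb1 : (1 : ℝ) < b := by exact_mod_cast hb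
  have hb0 : (0 : ℝ) < b := by linarith
  have hlb : 0 < Real.log b := Real.log_pos hb1
  have hkR : (2 : ℝ) ≤ k := by exact_mod_cast hk
  set κ : ℝ := (k : ℝ) with hκ
  set d : ℝ := min δ (1 / (κ + 1)) with hd
  have hd0 : 0 < d := lt_min hδ (by positivity)
  have hd1 : d ≤ 1 / (κ + 1) := min_le_right _ _
  have hdδ : d ≤ δ := min_le_left _ _
  set β : ℝ := 1 / (κ + 1) - d / (κ - 1) with hβ
  have hκ1 : 0 < κ - 1 := by linarith
  have hβ0 : 0 ≤ β := by
    have h1 : d / (κ - 1) ≤ d := div_le_self hd0.le (by linarith)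
    linarith
  have hβ1 : β ≤ 1 := by
    have h1 : 1 / (κ + 1) ≤ 1 := by
      rw [div_le_one (by linarith)]
      linarith
    have h2 : 0 ≤ d / (κ - 1) := by positivity
    linarith
  obtain ⟨ℓ, hℓx, hℓ1⟩ := exists_fun_irr hirr
  obtain ⟨U1, hU1⟩ := block_ne hb x hx hirr C
  set C1 : ℝ := |C| + Real.log b + κ with hC1
  obtain ⟨U2, hU2⟩ := blocks (k := k) (r := 0) (fun _ => x) (fun _ => hx) (fun _ => 0)
    (fun l => l.elim0) ℓ hℓ1 (S := ∅) (by simp) hb C1 (d / 2) (by positivity)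
  -- large powers
  have hlarge : ∀ c K : ℝ, 0 < c → ∃ U : ℕ, ∀ m : ℕ, U ≤ m → K < (b : ℝ) ^ (c * (m : ℝ)) := by
    intro c K hc
    have h1 : Tendsto (fun m : ℕ => Real.exp (Real.log b * c * (m : ℝ))) atTop atTop :=
      Real.tendsto_exp_atTop.comp (tendsto_natCast_atTop_atTop.const_mul_atTop (by positivity))
    obtain ⟨U, hU⟩ := eventually_atTop.1 (h1.eventually_gt_atTop K)
    refine ⟨U, fun m hm => ?_⟩
    have h2 := hU m hm
    rw [pow_eq_exp hb, ← mul_assoc]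
    exact h2
  obtain ⟨U3, hU3⟩ := hlarge (d / (κ - 1)) (κ * κ) (by positivity)
  obtain ⟨U4, hU4⟩ := hlarge (d / 2) (κ * κ * κ ^ k) (by positivity)
  refine ⟨U1 + U2 + U3 + U4 + 1, fun m hm n hn hgap g hg => ?_⟩
  by_contra hcon
  push Not at hcon
  have hm1 : (1 : ℝ) ≤ m := by exact_mod_cast (by omega : 1 ≤ m)
  have hm0 : (0 : ℝ) ≤ m := by linarith
  have hgd : (b : ℝ) ^ ((2 / (κ + 1) + d) * (m : ℝ)) ≤ g := by
    refine le_trans ?_ hcon
    apply Real.rpow_le_rpow_of_exponent_le hb1.le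
    exact mul_le_mul_of_nonneg_right (by linarith) hm0
  have hgR : (0 : ℝ) < g := lt_of_lt_of_le (Real.rpow_pos_of_pos hb0 _) hgd
  choose u hu using hg
  have hu0 : ∀ j, u j ≠ 0 := by
    intro j h0
    have h1 := hU1 m (by omega) (n j) (hn j)
    rw [hu j, h0, mul_zero] at h1
    exact h1 rfl
  set B : ℝ := (b : ℝ) ^ ((1 - 2 / (κ + 1) - d) * (m : ℝ)) with hB
  have hexp1 : 0 ≤ 1 - 2 / (κ + 1) - d := by
    have h1 : (1 : ℝ) - 2 / (κ + 1) - 1 / (κ + 1) = (κ - 2) / (κ + 1) := by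
      field_simp
      ring
    have h2 : 0 ≤ (κ - 2) / (κ + 1) := div_nonneg (by linarith) (by linarith)
    linarith
  have hB1 : 1 ≤ B := Real.one_le_rpow hb1.le (mul_nonneg hexp1 hm0)
  have huB : ∀ j, |(u j : ℝ)| ≤ B := by
    intro j
    have h1 : |((blk b x (n j) m : ℤ) : ℝ)| ≤ (b : ℝ) ^ m := by
      have h2 := blk_nonneg hb x (n j) m
      have h3 := blk_lt hb x (n j) m
      rw [abs_of_nonneg (by exact_mod_cast h2)]
      exact_mod_cast h3.le
    rw [hu j] at h1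
    push_cast at h1
    rw [abs_mul, abs_of_pos hgR] at h1
    have h4 : (b : ℝ) ^ ((2 / (κ + 1) + d) * (m : ℝ)) * |(u j : ℝ)| ≤ (b : ℝ) ^ m :=
      (mul_le_mul_of_nonneg_right hgd (abs_nonneg _)).trans h1
    have h5 : (b : ℝ) ^ m = (b : ℝ) ^ ((2 / (κ + 1) + d) * (m : ℝ)) * B := by
      rw [hB, ← Real.rpow_add hb0, ← Real.rpow_natCast]
      congr 1
      ring
    rw [h5] at h4
    exact le_of_mul_le_mul_left h4 (Real.rpow_pos_of_pos hb0 _)
  obtain ⟨a, ha0, hau, haB⟩ := small_rel hk u B hB1 huB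
  have haA : ∀ j, |(a j : ℝ)| ≤ κ * (b : ℝ) ^ (β * (m : ℝ)) := by
    intro j
    refine (haB j).trans ?_
    rw [Real.mul_rpow (by positivity) (by positivity)]
    have h1 : κ ^ (1 / (κ - 1)) ≤ κ := by
      conv_rhs => rw [← Real.rpow_one κ]
      apply Real.rpow_le_rpow_of_exponent_le (by linarith)
      rw [div_le_one hκ1]
      linarith
    have h2 : B ^ (1 / (κ - 1)) = (b : ℝ) ^ (β * (m : ℝ)) := by
      rw [hB, ← Real.rpow_mul hb0.le]
      congr 1
      rw [hβ]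
      field_simp
      ring
    rw [h2]
    exact mul_le_mul_of_nonneg_right h1 (by positivity)
  set A : ℝ := κ * (b : ℝ) ^ (β * (m : ℝ)) with hA
  have hβp : 1 ≤ (b : ℝ) ^ (β * (m : ℝ)) := Real.one_le_rpow hb1.le (mul_nonneg hβ0 hm0)
  have hA1 : 1 ≤ A := by nlinarith
  -- the sum is not degenerate
  have hq : ∑ j, a j * (b : ℤ) ^ n j ≠ 0 := by
    intro h0
    obtain ⟨j0, hj0⟩ : ∃ j, a j ≠ 0 := by
      by_contra h
      push Not at h
      exact ha0 (funext h)
    obtain ⟨i, hi, hmax⟩ := Finset.exists_max_image (univ.filter fun j => a j ≠ 0) n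
      ⟨j0, by simp [hj0]⟩
    have hai : a i ≠ 0 := (mem_filter.1 hi).2
    rw [← Finset.add_sum_erase univ _ (mem_univ i)] at h0
    have h1 : ((b : ℝ) ^ n i) ≤ ∑ j ∈ univ.erase i, |(a j : ℝ)| * (b : ℝ) ^ n j := by
      have h2 : ((a i * (b : ℤ) ^ n i : ℤ) : ℝ) =
          -((∑ j ∈ univ.erase i, a j * (b : ℤ) ^ n j : ℤ) : ℝ) := by
        have := eq_neg_of_add_eq_zero_left h0
        rw [this]
        push_cast
        rfl
      have h3 : (b : ℝ) ^ n i ≤ |((a i * (b : ℤ) ^ n i : ℤ) : ℝ)| := by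
        push_cast
        rw [abs_mul, abs_of_pos (by positivity : (0 : ℝ) < (b : ℝ) ^ n i)]
        refine le_mul_of_one_le_left (by positivity) ?_
        have : 1 ≤ |a i| := Int.one_le_abs hai
        exact_mod_cast this
      rw [h2, abs_neg] at h3
      push_cast at h3
      refine h3.trans ((Finset.abs_sum_le_sum_abs _ _).trans (Finset.sum_le_sum fun j _ => ?_))
      rw [abs_mul, abs_of_pos (by positivity : (0 : ℝ) < (b : ℝ) ^ n j)]
    have h4 : ∀ j ∈ univ.erase i, |(a j : ℝ)| * (b : ℝ) ^ n j ≤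
        A * ((b : ℝ) ^ n i * (b : ℝ) ^ (-((m : ℝ) / (κ + 1)))) := by
      intro j hj
      by_cases haj : a j = 0
      · rw [haj, Int.cast_zero, abs_zero, zero_mul]
        positivity
      · have h5 := hmax j (by simp [haj])
        have h6 := hgap i j (Finset.ne_of_mem_erase hj).symm
        rw [abs_of_nonneg (by
          have : (n j : ℝ) ≤ n i := by exact_mod_cast h5
          linarith)] at h6
        refine mul_le_mul (haA j) ?_ (by positivity) (by linarith)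
        rw [← Real.rpow_natCast, ← Real.rpow_natCast, ← Real.rpow_add hb0]
        apply Real.rpow_le_rpow_of_exponent_le hb1.le
        linarith
    have h5 : (b : ℝ) ^ n i ≤ κ * (A * ((b : ℝ) ^ n i * (b : ℝ) ^ (-((m : ℝ) / (κ + 1))))) := by
      refine h1.trans ((Finset.sum_le_sum h4).trans ?_)
      rw [Finset.sum_const, nsmul_eq_mul]
      refine mul_le_mul_of_nonneg_right ?_ (by positivity)
      have := Finset.card_erase_le (s := (univ : Finset (Fin k))) (a := i)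
      rw [Finset.card_univ, Fintype.card_fin] at this
      rw [hκ]
      exact_mod_cast this
    have h6 : κ * (A * ((b : ℝ) ^ n i * (b : ℝ) ^ (-((m : ℝ) / (κ + 1))))) =
        (b : ℝ) ^ n i * (κ * κ * (b : ℝ) ^ (-(d / (κ - 1) * m))) := by
      have h7 : (b : ℝ) ^ (-(d / (κ - 1) * m)) = (b : ℝ) ^ (β * (m : ℝ)) *
          (b : ℝ) ^ (-((m : ℝ) / (κ + 1))) := by
        rw [← Real.rpow_add hb0]
        congr 1
        rw [hβ]
        ring
      rw [h7, hA]
      ring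
    rw [h6] at h5
    have h8 : 1 ≤ κ * κ * (b : ℝ) ^ (-(d / (κ - 1) * m)) := by
      have hbn : (0 : ℝ) < (b : ℝ) ^ n i := by positivity
      exact le_of_mul_le_mul_left (by rwa [mul_one]) hbn
    rw [Real.rpow_neg hb0.le] at h8
    have h9 := hU3 m (by omega)
    have h10 : (0 : ℝ) < (b : ℝ) ^ (d / (κ - 1) * (m : ℝ)) := Real.rpow_pos_of_pos hb0 _
    rw [← div_eq_mul_inv, le_div_iff₀ h10, one_mul] at h8
    linarith
  have hCm : ∀ y : ℝ, y ≤ C * m → y ≤ C1 * m := fun y hy => by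
    refine hy.trans (mul_le_mul_of_nonneg_right ?_ hm0)
    have := le_abs_self C
    linarith
  have key := hU2 m (by omega) n a (fun _ => 0) 0 (fun j => hCm _ (hn j)) (fun j => by
    refine (haA j).trans ?_
    have h1 : κ ≤ Real.exp (κ * m) := by
      have h2 := Real.add_one_le_exp (κ * m)
      nlinarith
    have h2 : (b : ℝ) ^ (β * (m : ℝ)) ≤ Real.exp (Real.log b * m) := by
      rw [pow_eq_exp hb]
      apply Real.exp_le_exp.2
      refine mul_le_mul_of_nonneg_left ?_ hlb.le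
      exact mul_le_of_le_one_left hm0 hβ1
    calc A ≤ Real.exp (κ * m) * Real.exp (Real.log b * m) := by
          rw [hA]
          exact mul_le_mul h1 h2 (by positivity) (by positivity)
      _ = Real.exp (κ * m + Real.log b * m) := (Real.exp_add _ _).symm
      _ ≤ _ := by
          apply Real.exp_le_exp.2
          have h3 : 0 ≤ |C| * m := by positivity
          rw [hC1]
          linarith) (fun l => l.elim0)
  have hzero : ∑ j, (a j : ℝ) * (blk b x (n j) m : ℝ) = 0 := by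
    have h1 : ∑ j, a j * blk b x (n j) m = 0 := by
      simp only [hu]
      calc ∑ j, a j * ((g : ℤ) * u j) = (g : ℤ) * ∑ j, a j * u j := by
            rw [Finset.mul_sum]
            exact Finset.sum_congr rfl fun j _ => by ring
        _ = 0 := by rw [hau, mul_zero]
    exact_mod_cast congrArg (fun z : ℤ => (z : ℝ)) h1
  simp only [Finset.univ_eq_empty, Finset.sum_empty, Finset.prod_empty, hℓx, Rat.cast_one,
    mul_one, sub_zero, hzero, Int.cast_zero, mul_zero, abs_zero, add_zero] at key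
  have hmin : min ((b : ℝ) ^ m) |(b : ℝ) ^ m * ∑ j, (a j : ℝ) * (b : ℝ) ^ n j| = (b : ℝ) ^ m := by
    apply min_eq_left
    have hbm : (0 : ℝ) < (b : ℝ) ^ m := by positivity
    rw [abs_mul, abs_of_pos hbm]
    refine le_mul_of_one_le_right hbm.le ?_
    have h1 : 1 ≤ |∑ j, a j * (b : ℤ) ^ n j| := Int.one_le_abs hq
    have h2 : ((∑ j, a j * (b : ℤ) ^ n j : ℤ) : ℝ) = ∑ j, (a j : ℝ) * (b : ℝ) ^ n j := by
      push_cast
      rfl
    rw [← h2]
    exact_mod_cast h1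
  rw [hmin] at key
  have hS1 : ∑ j, |(a j : ℝ)| ≤ κ * A := by
    refine (Finset.sum_le_sum fun j _ => haA j).trans ?_
    rw [Finset.sum_const, nsmul_eq_mul, Finset.card_univ, Fintype.card_fin]
  have hS2 : ∏ j, (fr ∅ (a j) : ℝ) ≤ A ^ k := by
    calc ∏ j, (fr ∅ (a j) : ℝ) ≤ ∏ _j : Fin k, A :=
          Finset.prod_le_prod (fun _ _ => Nat.cast_nonneg _) fun j _ =>
            (fr_le_max _ _).trans (max_le hA1 (haA j))
      _ = A ^ k := by rw [Finset.prod_const, Finset.card_univ, Fintype.card_fin]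
  have h1 : (b : ℝ) ^ m * (b : ℝ) ^ (-(d / 2 * (m : ℝ))) ≤ κ * A * A ^ k := by
    refine key.trans ?_
    exact mul_le_mul hS1 hS2 (Finset.prod_nonneg fun _ _ => Nat.cast_nonneg _) (by positivity)
  have h2 : κ * A * A ^ k = κ * κ * κ ^ k * (b : ℝ) ^ (β * (κ + 1) * m) := by
    have h3 : ((b : ℝ) ^ (β * (m : ℝ))) ^ k = (b : ℝ) ^ (β * κ * m) := by
      rw [← Real.rpow_natCast, ← Real.rpow_mul hb0.le]
      congr 1
      rw [hκ]
      ring
    have h4 : (b : ℝ) ^ (β * (κ + 1) * m) = (b : ℝ) ^ (β * κ * m) * (b : ℝ) ^ (β * (m : ℝ)) := by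
      rw [← Real.rpow_add hb0]
      congr 1
      ring
    rw [h4, hA, mul_pow, h3]
    ring
  rw [h2, ← Real.rpow_natCast, ← Real.rpow_add hb0] at h1
  have h5 : β * (κ + 1) ≤ 1 - d := by
    have h6 : β * (κ + 1) = 1 - d * ((κ + 1) / (κ - 1)) := by
      rw [hβ]
      field_simp
    have h7 : 1 ≤ (κ + 1) / (κ - 1) := by
      rw [le_div_iff₀ hκ1]
      linarith
    nlinarith
  have h8 : (b : ℝ) ^ (β * (κ + 1) * m) ≤ (b : ℝ) ^ ((1 - d) * (m : ℝ)) :=
    Real.rpow_le_rpow_of_exponent_le hb1.le (mul_le_mul_of_nonneg_right h5 hm0)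
  have h9 : (b : ℝ) ^ ((m : ℝ) + -(d / 2 * m)) = (b : ℝ) ^ ((1 - d) * (m : ℝ)) *
      (b : ℝ) ^ (d / 2 * (m : ℝ)) := by
    rw [← Real.rpow_add hb0]
    congr 1
    ring
  rw [h9] at h1
  have h10 := hU4 m (by omega)
  have h11 : (0 : ℝ) < (b : ℝ) ^ ((1 - d) * (m : ℝ)) := Real.rpow_pos_of_pos hb0 _
  have h12 : (b : ℝ) ^ ((1 - d) * (m : ℝ)) * (b : ℝ) ^ (d / 2 * (m : ℝ)) ≤
      (b : ℝ) ^ ((1 - d) * (m : ℝ)) * (κ * κ * κ ^ k) := by
    refine h1.trans ?_
    rw [mul_comm ((b : ℝ) ^ ((1 - d) * (m : ℝ)))]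
    exact mul_le_mul_of_nonneg_left h8 (by positivity)
  have h13 := le_of_mul_le_mul_left h12 h11
  linarith

end Pool.Agent.U773.BD
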