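import Mathlib
import Pool.Agent.U773.BD.Gcd

/-! The homogeneous inequality. -/

set_option autoImplicit false

open Finset Filter Topology

namespace Pool.Agent.U773.BD

open Pool.Agent.TH419.WI Pool.Agent.N671.OPN Pool.Agent.U773.SF Pool.Agent.U773.WN
  Pool.Agent.U773.RS

theorem hom0 {r : ℕ} (θ : Fin r → ℝ) (hθ : ∀ l, IsAlgebraic ℚ (θ l)) (ℓ : ℝ →ₗ[ℚ] ℚ)
    {S : Finset ℕ} (hS : ∀ p ∈ S, p.Prime) (C ε : ℝ) (hε : 0 < ε) :
    ∃ U : ℕ, ∀ N : ℕ, U ≤ N → ∀ X : Fin r → ℤ,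
      (∀ l, X l ≠ 0 ∧ |(X l : ℝ)| ≤ Real.exp (C * N)) →
      ℓ (∑ l, θ l * X l) ≠ 0 →
      |((ℓ (∑ l, θ l * X l) : ℚ) : ℝ)| * Real.exp (-(ε * N)) <
        |∑ l, θ l * X l| * ∏ l, (free S (X l) : ℝ) := by
  classical
  by_contra hcon
  push Not at hcon
  choose N hN X hX hq0 hsm using hcon
  have hNt : Tendsto (fun t => (N t : ℝ)) atTop atTop :=
    tendsto_natCast_atTop_atTop.comp (tendsto_atTop_mono hN tendsto_id)
  have hN0 : ∀ t, (0 : ℝ) ≤ N t := fun t => Nat.cast_nonneg _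
  have hℓX : ∀ Y : Fin r → ℤ, ℓ (∑ l, θ l * Y l) = ∑ l, ℓ (θ l) * Y l := by
    intro Y
    rw [map_sum]
    refine Finset.sum_congr rfl fun l _ => ?_
    have h1 : θ l * (Y l : ℝ) = ((Y l : ℤ) : ℚ) • θ l := by
      rw [Rat.smul_def]
      push_cast
      ring
    rw [h1, map_smul, smul_eq_mul, mul_comm]
  obtain ⟨m, hm0, c, hc⟩ : ∃ m : ℤ, 0 < m ∧ ∃ c : Fin r → ℤ, ∀ l, (c l : ℚ) = m * ℓ (θ l) := by
    refine ⟨∏ l, ((ℓ (θ l)).den : ℤ), Finset.prod_pos fun l _ => by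
      exact_mod_cast (ℓ (θ l)).den_pos, fun l => (∏ j ∈ univ.erase l, ((ℓ (θ j)).den : ℤ)) *
        (ℓ (θ l)).num, fun l => ?_⟩
    rw [← Finset.prod_erase_mul univ _ (mem_univ l)]
    push_cast
    rw [mul_assoc, Rat.den_mul_eq_num]
  have hmR : (1 : ℝ) ≤ m := by exact_mod_cast hm0
  have hmQ : (m : ℚ) ≠ 0 := by exact_mod_cast hm0.ne'
  have hq : ∀ t, ((∑ l, c l * X t l : ℤ) : ℚ) = m * ℓ (∑ l, θ l * X t l) := by
    intro t
    rw [hℓX, Finset.mul_sum]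
    push_cast
    refine Finset.sum_congr rfl fun l _ => ?_
    rw [hc]
    ring
  have hqne : ∀ t, ∑ l, c l * X t l ≠ 0 := by
    intro t h0
    have h1 := hq t
    rw [h0, Int.cast_zero] at h1
    rcases mul_eq_zero.1 h1.symm with h | h
    · exact hmQ h
    · exact hq0 t h
  have hqR : ∀ t, |((ℓ (∑ l, θ l * X t l) : ℚ) : ℝ)| ≤ |((∑ l, c l * X t l : ℤ) : ℝ)| := by
    intro t
    have h1 : ((∑ l, c l * X t l : ℤ) : ℝ) = m * ((ℓ (∑ l, θ l * X t l) : ℚ) : ℝ) := by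
      have := congrArg (fun u : ℚ => (u : ℝ)) (hq t)
      simpa using this
    rw [h1, abs_mul, abs_of_pos (by linarith : (0 : ℝ) < m)]
    exact le_mul_of_one_le_left (abs_nonneg _) hmR
  obtain ⟨l0, hl0⟩ : ∃ l0, c l0 ≠ 0 := by
    by_contra hcon
    push Not at hcon
    exact hqne 0 (Finset.sum_eq_zero fun l _ => by rw [hcon l, zero_mul])
  obtain ⟨A, d, hd, hfin, hA⟩ := exists_order θ hθ
  have hdR : (d : ℝ) ≠ 0 := by exact_mod_cast hd
  let ρ : A →+* ℝ := A.val.toRingHom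
  have hρ : ∀ y : A, ρ y = (y : ℝ) := fun y => rfl
  set V : Submodule ℚ ℝ := LinearMap.ker ℓ with hV
  set T : AddSubgroup A := V.toAddSubgroup.comap ρ.toAddMonoidHom with hTdef
  have hTm : ∀ y : A, y ∈ T ↔ ℓ (ρ y) = 0 := fun y => Iff.rfl
  have hℓint : ∀ (a : ℤ) (y : ℝ), ℓ ((a : ℝ) * y) = a * ℓ y := fun_int ℓ
  have hℓ0 : ℓ (θ l0) ≠ 0 := by
    intro h0
    have h1 := hc l0
    rw [h0, mul_zero] at h1
    exact hl0 (by exact_mod_cast h1)
  have hdQ : (d : ℚ) ≠ 0 := by exact_mod_cast hd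
  have hT : ∀ (a : ℤ) (τ : A), τ ∈ T → (a : A) * ⟨(d : ℝ) * θ l0, hA l0⟩ + τ = 0 → a = 0 := by
    intro a τ hτ h0
    have h1 : (a : ℝ) * ((d : ℝ) * θ l0) + ρ τ = 0 := by
      have := congrArg ρ h0
      rw [map_add, map_mul, map_intCast, map_zero, hρ] at this
      exact this
    have h2 := congrArg ℓ h1
    rw [map_add, hℓint, hℓint, (hTm τ).1 hτ, map_zero, add_zero] at h2
    rcases mul_eq_zero.1 h2 with h | h
    · exact_mod_cast h
    · exact absurd h (mul_ne_zero hdQ hℓ0)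
  set τ : Fin r → A := fun l => (c l0 : A) * ⟨(d : ℝ) * θ l, hA l⟩ -
    (c l : A) * ⟨(d : ℝ) * θ l0, hA l0⟩ with hτdef
  have hτT : ∀ l, τ l ∈ T := by
    intro l
    rw [hTm]
    have h1 : ρ (τ l) = (c l0 : ℝ) * (d * θ l) - (c l : ℝ) * (d * θ l0) := by
      simp only [hτdef]
      rw [map_sub, map_mul, map_mul, map_intCast, map_intCast]
      rfl
    rw [h1, map_sub, hℓint, hℓint, hℓint, hℓint, hc, hc]
    ring
  have hform : ∀ t, ρ (∑ l, ((c l : A) * ⟨(d : ℝ) * θ l0, hA l0⟩ + τ l) * (X t l : A)) =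
      (c l0 * d) * ∑ l, θ l * (X t l : ℝ) := by
    intro t
    rw [map_sum, Finset.mul_sum]
    refine Finset.sum_congr rfl fun l _ => ?_
    have h1 : (c l : A) * ⟨(d : ℝ) * θ l0, hA l0⟩ + τ l =
        (c l0 : A) * ⟨(d : ℝ) * θ l, hA l⟩ := by
      simp only [hτdef]
      ring
    rw [h1, map_mul, map_mul, map_intCast, map_intCast]
    have h2 : ρ ⟨(d : ℝ) * θ l, hA l⟩ = d * θ l := rfl
    rw [h2]
    ring
  refine claim1 A ρ hS _ T hT r (fun t => (N t : ℝ)) hNt c τ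
    (fun t => X t) |C| (ε / 2) (abs_nonneg _) (by positivity) hτT
    (Eventually.of_forall fun t i => ⟨(hX t i).1, (hX t i).2.trans (Real.exp_le_exp.2
      (mul_le_mul_of_nonneg_right (le_abs_self _) (hN0 t)))⟩)
    (Eventually.of_forall fun t => hqne _) ?_
  filter_upwards [ev_const hNt |(c l0 : ℝ) * d| (ε / 2) (by positivity)] with t ht
  have h1 := hsm t
  rw [hform, abs_mul]
  calc |(c l0 : ℝ) * d| * |∑ l, θ l * (X t l : ℝ)| * ∏ l, (free S (X t l) : ℝ)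
      = |(c l0 : ℝ) * d| * (|∑ l, θ l * (X t l : ℝ)| * ∏ l, (free S (X t l) : ℝ)) := by ring
    _ ≤ |(c l0 : ℝ) * d| * (|((ℓ (∑ l, θ l * X t l) : ℚ) : ℝ)| * Real.exp (-(ε * N t))) :=
        mul_le_mul_of_nonneg_left h1 (abs_nonneg _)
    _ ≤ Real.exp (ε / 2 * N t) * (|((∑ l, c l * X t l : ℤ) : ℝ)| * Real.exp (-(ε * N t))) := by
        have := hqR t
        gcongr
    _ = |((∑ l, c l * X t l : ℤ) : ℝ)| * (Real.exp (ε / 2 * N t) * Real.exp (-(ε * N t))) := by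
        ring
    _ = |((∑ l, c l * X t l : ℤ) : ℝ)| * Real.exp (-(ε / 2 * N t)) := by
        rw [← Real.exp_add]; congr 2; ring

end Pool.Agent.U773.BD
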