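import Mathlib
import Pool.Agent.U773.BD.Hom

/-! Residues of the integer parts of `u x` and `w y` modulo units. -/

set_option autoImplicit false

open Finset Filter Topology

namespace Pool.Agent.U773.BD

open Pool.Agent.TH419.WI Pool.Agent.N671.OPN Pool.Agent.U773.SF Pool.Agent.U773.WN
  Pool.Agent.U773.RS

/-- a positive integer with all its primes in `S` -/
def SU (S : Finset ℕ) (D : ℕ) : Prop := 0 < D ∧ ∀ p : ℕ, p.Prime → p ∣ D → p ∈ S

lemma SU.mon {S : Finset ℕ} (hS : ∀ p ∈ S, p.Prime) {D : ℕ} (h : SU S D) :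
    mon (gS S) (fun w => D.factorization (gS S w)) = (D : ℤ) := by
  have h1 := mon_spart (S := S) (n := D)
  rw [h1, spart_self hS h.1.ne' h.2]

lemma SU.fr {S : Finset ℕ} (hS : ∀ p ∈ S, p.Prime) {D : ℕ} (h : SU S D) :
    fr S (D : ℤ) = 1 := by
  refine fr_unit hS (by exact_mod_cast h.1.ne') fun p hp hd => ?_
  rw [Int.natAbs_natCast] at hd
  exact h.2 p hp hd

/-- two relations of units with rational coefficients -/
theorem ratio {S : Finset ℕ} (hS : ∀ p ∈ S, p.Prime) (C ε : ℝ) (hε : 0 < ε) (a b : ℤ)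
    (hab : a ≠ 0 ∨ b ≠ 0) :
    ∃ U : ℕ, ∀ N : ℕ, U ≤ N → ∀ u w : ℕ, SU S u → SU S w → (u : ℝ) ≤ Real.exp (C * N) →
      (w : ℝ) ≤ Real.exp (C * N) →
      |(a : ℝ) * u + b * w| ≤ min (u : ℝ) w * Real.exp (-(ε * N)) → a * u + b * w = 0 := by
  classical
  -- large `N`
  have hlarge : ∀ K : ℝ, ∃ U : ℕ, ∀ N : ℕ, U ≤ N → K < Real.exp (ε * N) := by
    intro K
    have h1 : Tendsto (fun m : ℕ => Real.exp (ε * (m : ℝ))) atTop atTop :=
      Real.tendsto_exp_atTop.comp (tendsto_natCast_atTop_atTop.const_mul_atTop hε)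
    exact eventually_atTop.1 (h1.eventually_gt_atTop K)
  by_cases hsign : 0 ≤ a * b
  · -- no cancellation
    obtain ⟨U, hU⟩ := hlarge 1
    refine ⟨U, fun N hN u w hu hw huC hwC hsm => ?_⟩
    exfalso
    have huR : (1 : ℝ) ≤ u := by exact_mod_cast hu.1
    have hwR : (1 : ℝ) ≤ w := by exact_mod_cast hw.1
    have h1 : min (u : ℝ) w ≤ |(a : ℝ) * u + b * w| := by
      have h2 : |(a : ℝ) * u + b * w| = |(a : ℝ)| * u + |(b : ℝ)| * w := by
        have hs : (0 : ℝ) ≤ a * b := by exact_mod_cast hsign
        have h3 : (0 : ℝ) ≤ (a * u) * (b * w) := by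
          have : (a : ℝ) * u * (b * w) = (a * b) * (u * w) := by ring
          rw [this]; positivity
        rw [(abs_add_eq_add_abs_iff _ _).2 (by
          rcases le_total 0 ((a : ℝ) * u) with h | h
          · rcases le_total 0 ((b : ℝ) * w) with h' | h'
            · exact Or.inl ⟨h, h'⟩
            · rcases eq_or_lt_of_le h with h0 | h0
              · exact Or.inr ⟨by rw [← h0], h'⟩
              · have : (b : ℝ) * w = 0 := by nlinarith
                exact Or.inl ⟨h, by rw [this]⟩
          · rcases le_total 0 ((b : ℝ) * w) with h' | h'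
            · rcases eq_or_lt_of_le h with h0 | h0
              · exact Or.inl ⟨by rw [h0], h'⟩
              · have : (b : ℝ) * w = 0 := by nlinarith
                exact Or.inr ⟨h, by rw [this]⟩
            · exact Or.inr ⟨h, h'⟩), abs_mul, abs_mul, abs_of_pos (by linarith : (0 : ℝ) < u),
          abs_of_pos (by linarith : (0 : ℝ) < w)]
      rw [h2]
      rcases hab with h | h
      · have h3 : (1 : ℝ) ≤ |(a : ℝ)| := by exact_mod_cast Int.one_le_abs h
        calc min (u : ℝ) w ≤ u := min_le_left _ _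
          _ ≤ |(a : ℝ)| * u := le_mul_of_one_le_left (by linarith) h3
          _ ≤ _ := le_add_of_nonneg_right (by positivity)
      · have h3 : (1 : ℝ) ≤ |(b : ℝ)| := by exact_mod_cast Int.one_le_abs h
        calc min (u : ℝ) w ≤ w := min_le_right _ _
          _ ≤ |(b : ℝ)| * w := le_mul_of_one_le_left (by linarith) h3
          _ ≤ _ := le_add_of_nonneg_left (by positivity)
    have h4 := hU N hN
    have h5 : Real.exp (-(ε * N)) < 1 := by
      rw [Real.exp_neg]
      exact inv_lt_one_of_one_lt₀ h4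
    have h6 : 0 < min (u : ℝ) w := lt_min (by linarith) (by linarith)
    nlinarith
  · push Not at hsign
    have ha : a ≠ 0 := by rintro rfl; simp at hsign
    have hb : b ≠ 0 := by rintro rfl; simp at hsign
    set S' : Finset ℕ := S ∪ a.natAbs.primeFactors ∪ b.natAbs.primeFactors with hS'
    have hS'p : ∀ p ∈ S', p.Prime := by
      intro p hp
      simp only [hS', mem_union] at hp
      rcases hp with (h | h) | h
      · exact hS p h
      · exact Nat.prime_of_mem_primeFactors h
      · exact Nat.prime_of_mem_primeFactors h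
    obtain ⟨U1, hU1⟩ := unit_diff hS'p (|C| + Real.log |(a : ℝ)| + Real.log |(b : ℝ)|) (ε / 2)
      (by positivity)
    obtain ⟨U2, hU2⟩ := hlarge 1
    refine ⟨U1 + U2 + 1, fun N hN u w hu hw huC hwC hsm => ?_⟩
    by_contra hne
    have hN1 : (1 : ℝ) ≤ N := by exact_mod_cast (by omega : 1 ≤ N)
    have huR : (1 : ℝ) ≤ u := by exact_mod_cast hu.1
    have hwR : (1 : ℝ) ≤ w := by exact_mod_cast hw.1
    have ha1 : (1 : ℝ) ≤ |(a : ℝ)| := by exact_mod_cast Int.one_le_abs ha
    have hb1 : (1 : ℝ) ≤ |(b : ℝ)| := by exact_mod_cast Int.one_le_abs hb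
    have hla : 0 ≤ Real.log |(a : ℝ)| := Real.log_nonneg ha1
    have hlb : 0 ≤ Real.log |(b : ℝ)| := Real.log_nonneg hb1
    have hsize : ∀ (v : ℕ) (e : ℤ), 1 ≤ |(e : ℝ)| → (v : ℝ) ≤ Real.exp (C * N) →
        Real.log |(e : ℝ)| ≤ Real.log |(a : ℝ)| + Real.log |(b : ℝ)| →
        ((|e| * v : ℤ) : ℝ) ≤ Real.exp ((|C| + Real.log |(a : ℝ)| + Real.log |(b : ℝ)|) * N) := by
      intro v e he hv hle
      push_cast
      calc |(e : ℝ)| * v ≤ Real.exp (Real.log |(e : ℝ)| * N) * Real.exp (|C| * N) := by
            have h1 : |(e : ℝ)| ≤ Real.exp (Real.log |(e : ℝ)| * N) := by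
              conv_lhs => rw [← Real.exp_log (by linarith : (0 : ℝ) < |(e : ℝ)|)]
              apply Real.exp_le_exp.2
              exact le_mul_of_one_le_right (Real.log_nonneg he) hN1
            have h2 : (v : ℝ) ≤ Real.exp (|C| * N) := hv.trans (Real.exp_le_exp.2
              (mul_le_mul_of_nonneg_right (le_abs_self _) (by linarith)))
            exact mul_le_mul h1 h2 (Nat.cast_nonneg _) (Real.exp_pos _).le
        _ ≤ _ := by
            rw [← Real.exp_add]
            apply Real.exp_le_exp.2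
            nlinarith
    have hprim : ∀ (v : ℕ) (e : ℤ), e ≠ 0 → SU S v → (e = a ∨ e = b) →
        ∀ p : ℕ, p.Prime → p ∣ (|e| * (v : ℤ)).natAbs → p ∈ S' := by
      intro v e he hv hcase p hp hd
      rw [Int.natAbs_mul, Int.natAbs_abs, Int.natAbs_natCast] at hd
      simp only [hS', mem_union]
      rcases (hp.dvd_mul).1 hd with h | h
      · rcases hcase with rfl | rfl
        · exact Or.inl (Or.inr (Nat.mem_primeFactors.2 ⟨hp, h, Int.natAbs_ne_zero.2 he⟩))
        · exact Or.inr (Nat.mem_primeFactors.2 ⟨hp, h, Int.natAbs_ne_zero.2 he⟩)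
      · exact Or.inl (Or.inl (hv.2 p hp h))
    have huZ : (0 : ℤ) < u := by exact_mod_cast hu.1
    have hwZ : (0 : ℤ) < w := by exact_mod_cast hw.1
    have key := hU1 N (by omega) (|a| * (u : ℤ)) (|b| * (w : ℤ))
      (mul_pos (abs_pos.2 ha) huZ) (mul_pos (abs_pos.2 hb) hwZ)
      (hprim u a ha hu (Or.inl rfl)) (hprim w b hb hw (Or.inr rfl))
      (hsize u a ha1 huC (by linarith)) (hsize w b hb1 hwC (by linarith)) (by
        intro heq
        apply hne
        rcases lt_or_gt_of_ne ha with h | h
        · have hb' : 0 < b := by nlinarith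
          rw [abs_of_neg h, abs_of_pos hb'] at heq
          linarith
        · have hb' : b < 0 := by nlinarith
          rw [abs_of_pos h, abs_of_neg hb'] at heq
          linarith)
    have h7 : |(((|a| * (u : ℤ) : ℤ) : ℝ)) - ((|b| * (w : ℤ) : ℤ) : ℝ)| =
        |(a : ℝ) * u + b * w| := by
      push_cast
      rcases lt_or_gt_of_ne ha with h | h
      · have hb' : (0 : ℝ) < b := by
          have : 0 < b := by nlinarith
          exact_mod_cast this
        rw [abs_of_neg (by exact_mod_cast h : (a : ℝ) < 0), abs_of_pos hb', ← abs_neg]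
        congr 1
        ring
      · have hb' : (b : ℝ) < 0 := by
          have : b < 0 := by nlinarith
          exact_mod_cast this
        rw [abs_of_pos (by exact_mod_cast h : (0 : ℝ) < a), abs_of_neg hb']
        congr 1
        ring
    rw [h7] at key
    push_cast at key
    have h8 : min (u : ℝ) w * Real.exp (-(ε * N)) ≤ |(a : ℝ)| * u * Real.exp (-(ε / 2 * N)) := by
      apply mul_le_mul
      · exact (min_le_left _ _).trans (le_mul_of_one_le_left (by linarith) ha1)
      · apply Real.exp_le_exp.2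
        have : 0 ≤ ε / 2 * N := by positivity
        linarith
      · exact (Real.exp_pos _).le
      · positivity
    linarith

end Pool.Agent.U773.BD
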