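import Mathlib
import Pool.Agent.U773.BD.Two

/-! The relation given by the subspace theorem with two small forms. -/

set_option autoImplicit false

open Finset Filter Topology

namespace Pool.Agent.U773.BD

open Pool.Agent.TH419.WI Pool.Agent.N671.OPN Pool.Agent.U773.SF Pool.Agent.U773.WN
  Pool.Agent.U773.RS

lemma det5 {R : Type} [CommRing R] (a b c : R) :
    (!![1, 0, 0, 0, 0; 0, 1, 0, 0, 0; 0, 0, 1, 0, 0; a, 0, c, c, 0; 0, b, c, 0, c] :
      Matrix (Fin 5) (Fin 5) R).det = c * c := by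
  rw [Matrix.det_of_isLowerTriangular]
  · simp [Fin.prod_univ_succ]
  · intro i j hij
    rw [OrderDual.toDual_lt_toDual] at hij
    fin_cases i <;> fin_cases j <;> first | rfl | exact absurd hij (by decide)

theorem rel5 {x y : ℝ} (hx : IsAlgebraic ℚ x) (hy : IsAlgebraic ℚ y) {S : Finset ℕ}
    (hS : ∀ p ∈ S, p.Prime) (C ε : ℝ) (hC : 0 ≤ C) (hε : 0 < ε) (N : ℕ → ℝ)
    (hN : Tendsto N atTop atTop) (u w D D' : ℕ → ℕ) (M M' W V : ℕ → ℤ)
    (hu : ∀ t, SU S (u t) ∧ (u t : ℝ) ≤ Real.exp (C * N t))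
    (hw : ∀ t, SU S (w t) ∧ (w t : ℝ) ≤ Real.exp (C * N t))
    (hD : ∀ t, SU S (D t) ∧ (D t : ℝ) ≤ Real.exp (C * N t))
    (hD' : ∀ t, SU S (D' t) ∧ (D' t : ℝ) ≤ Real.exp (C * N t))
    (hW : ∀ t, |(W t : ℝ)| ≤ D t)
    (h1 : ∀ t, |x * u t - D t * M t - W t| ≤ 1)
    (h2 : ∀ t, |y * w t - D' t * M' t - V t| ≤ 1)
    (hsm : ∀ t, 1 + |(W t : ℝ) - V t| ≤ D' t * Real.exp (-(ε * N t))) :
    ∃ r : Fin 5 → ℤ, r ≠ 0 ∧ ∃ᶠ t in atTop,
      r 0 * u t + r 1 * w t + r 2 * W t + r 3 * (D t * M t) + r 4 * (D' t * M' t) = 0 := by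
  classical
  obtain ⟨A, d, hd, hfin, hA⟩ := exists_order ![x, y] (by
    intro i
    fin_cases i
    · simpa using hx
    · simpa using hy)
  have hAx : (d : ℝ) * x ∈ A := by simpa using hA 0
  have hAy : (d : ℝ) * y ∈ A := by simpa using hA 1
  have hdR : (d : ℝ) ≠ 0 := by exact_mod_cast hd
  let φ : A →+* ℂ := (Complex.ofRealHom).comp A.val.toRingHom
  have hφ : ∀ a : A, φ a = ((a : ℝ) : ℂ) := fun a => rfl
  have hdp : 0 < |(d : ℝ)| := abs_pos.2 hdR
  have hmon1 : mon (gS S) (fun _ => 0) = 1 := by simp [mon]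
  set e : ℕ → Fin 5 → Fin S.card → ℕ := fun t =>
    ![fun i => (u t).factorization (gS S i), fun i => (w t).factorization (gS S i),
      fun _ => 0, fun i => (D t).factorization (gS S i),
      fun i => (D' t).factorization (gS S i)] with he
  set z : ℕ → Fin 5 → ℤ := fun t => ![1, 1, W t, M t, M' t] with hz
  have e0 : ∀ t, mon (gS S) (e t 0) = (u t : ℤ) := fun t => by
    simpa [he] using (hu t).1.mon hS
  have e1 : ∀ t, mon (gS S) (e t 1) = (w t : ℤ) := fun t => by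
    simpa [he] using (hw t).1.mon hS
  have e2 : ∀ t, mon (gS S) (e t 2) = 1 := fun t => by
    simpa [he] using hmon1
  have e3 : ∀ t, mon (gS S) (e t 3) = (D t : ℤ) := fun t => by
    simpa [he] using (hD t).1.mon hS
  have e4 : ∀ t, mon (gS S) (e t 4) = (D' t : ℤ) := fun t => by
    simpa [he] using (hD' t).1.mon hS
  have z0 : ∀ t, z t 0 = 1 := fun t => rfl
  have z1 : ∀ t, z t 1 = 1 := fun t => rfl
  have z2 : ∀ t, z t 2 = W t := fun t => rfl
  have z3 : ∀ t, z t 3 = M t := fun t => rfl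
  have z4 : ∀ t, z t 4 = M' t := fun t => rfl
  have p1 : ∀ {v : ℕ}, SU S v → (1 : ℝ) ≤ v := fun h => by exact_mod_cast h.1
  set F : ℕ → ℝ := fun t => 1 + |(W t : ℝ) - V t| with hF
  have hF1 : ∀ t, 1 ≤ F t := fun t => by
    simp only [hF]
    linarith [abs_nonneg ((W t : ℝ) - V t)]
  set B : ℕ → Fin 5 → ℝ := fun t => ![u t, w t, D t, |(d : ℝ)|, |(d : ℝ)| * F t] with hB
  have hN0 : ∀ᶠ t in atTop, 0 ≤ N t := hN.eventually_ge_atTop 0
  have hlog : ∀ {v : ℕ} {t : ℕ}, SU S v → (v : ℝ) ≤ Real.exp (C * N t) →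
      0 ≤ Real.log v ∧ Real.log v ≤ C * N t := by
    intro v t h h'
    have := p1 h
    exact ⟨Real.log_nonneg this, by rwa [Real.log_le_iff_le_exp (by linarith)]⟩
  have hFD : ∀ᶠ t in atTop, F t ≤ D' t := by
    filter_upwards [hN0] with t ht
    refine (hsm t).trans (mul_le_of_le_one_right (Nat.cast_nonneg _) ?_)
    rw [Real.exp_le_one_iff]
    have : 0 ≤ ε * N t := mul_nonneg hε.le ht
    linarith
  have hlF : ∀ᶠ t in atTop, 0 ≤ Real.log (F t) ∧ Real.log (F t) ≤ C * N t ∧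
      Real.log (F t) ≤ Real.log (D' t) - ε * N t := by
    filter_upwards [hFD] with t ht
    have h3 : Real.log (F t) ≤ Real.log (D' t) := Real.log_le_log (by linarith [hF1 t]) ht
    refine ⟨Real.log_nonneg (hF1 t), h3.trans (hlog (hD' t).1 (hD' t).2).2, ?_⟩
    have h4 := Real.log_le_log (by linarith [hF1 t]) (hsm t)
    rw [Real.log_mul (by have := p1 (hD' t).1; linarith) (Real.exp_pos _).ne', Real.log_exp] at h4
    linarith
  suffices key : ∃ r : Fin 5 → ℤ, r ≠ 0 ∧ ∃ᶠ t in atTop,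
      ∑ l, r l * (mon (gS S) (e t l) * z t l) = 0 by
    obtain ⟨r, hr, hfreq⟩ := key
    refine ⟨r, hr, hfreq.mono fun t ht => ?_⟩
    rw [Fin.sum_univ_five] at ht
    rw [e0, e1, e2, e3, e4, z0, z1, z2, z3, z4] at ht
    linear_combination ht
  refine subDiag A φ (n := 5) (by norm_num) (gS S) (gS_pos hS)
    !![1, 0, 0, 0, 0; 0, 1, 0, 0, 0; 0, 0, 1, 0, 0;
      ⟨(d : ℝ) * x, hAx⟩, 0, -(d : A), -(d : A), 0; 0, ⟨(d : ℝ) * y, hAy⟩, -(d : A), 0, -(d : A)]
    (by
      rw [det5]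
      have : (-(d : A)) ≠ 0 := by
        rw [neg_ne_zero]
        exact_mod_cast hd
      exact mul_ne_zero this this)
    (fun i j => Complex.ofReal_im _)
    (4 * C + 1) (ε / 2) (by linarith) (by positivity) N hN e B z ?_ ?_ ?_ ?_ ?_ ?_
  · filter_upwards [hN0] with t ht
    rw [Fin.sum_univ_five, e0, e1, e2, e3, e4]
    push_cast
    rw [Real.log_one]
    have := (hlog (hu t).1 (hu t).2).2
    have := (hlog (hw t).1 (hw t).2).2
    have := (hlog (hD t).1 (hD t).2).2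
    have := (hlog (hD' t).1 (hD' t).2).2
    linarith
  · refine Eventually.of_forall fun t l => ?_
    have := p1 (hu t).1
    have := p1 (hw t).1
    have := p1 (hD t).1
    have := hF1 t
    fin_cases l
    · show (0 : ℝ) < u t
      linarith
    · show (0 : ℝ) < w t
      linarith
    · show (0 : ℝ) < D t
      linarith
    · exact hdp
    · show 0 < |(d : ℝ)| * F t
      positivity
  · filter_upwards [hN0, hlF, hN.eventually_ge_atTop |Real.log (|(d : ℝ)|)|] with t ht hlt hlc l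
    have q1 := hlog (hu t).1 (hu t).2
    have q2 := hlog (hw t).1 (hw t).2
    have q3 := hlog (hD t).1 (hD t).2
    have hCN : 0 ≤ C * N t := mul_nonneg hC ht
    have hle : ∀ v : ℝ, |v| ≤ C * N t → |v| ≤ (4 * C + 1) * N t := fun v hv => by
      linarith
    fin_cases l
    · show |Real.log (u t)| ≤ _
      exact hle _ (by rw [abs_of_nonneg q1.1]; exact q1.2)
    · show |Real.log (w t)| ≤ _
      exact hle _ (by rw [abs_of_nonneg q2.1]; exact q2.2)
    · show |Real.log (D t)| ≤ _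
      exact hle _ (by rw [abs_of_nonneg q3.1]; exact q3.2)
    · show |Real.log (|(d : ℝ)|)| ≤ _
      linarith
    · show |Real.log (|(d : ℝ)| * F t)| ≤ _
      rw [Real.log_mul hdp.ne' (by linarith [hF1 t])]
      refine (abs_add_le _ _).trans ?_
      rw [abs_of_nonneg hlt.1]
      linarith [hlt.2.1]
  · filter_upwards [hN0, hlF, (hN.const_mul_atTop (show 0 < ε / 4 by positivity)).eventually_ge_atTop
      |Real.log (|(d : ℝ)|)|] with t ht hlt hlc
    rw [Fin.sum_univ_five, Fin.sum_univ_five, e0, e1, e2, e3, e4]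
    show Real.log (u t) + Real.log (w t) + Real.log (D t) + Real.log |(d : ℝ)| +
      Real.log (|(d : ℝ)| * F t) + ε / 2 * N t ≤ _
    rw [Real.log_mul hdp.ne' (by linarith [hF1 t])]
    push_cast
    rw [Real.log_one]
    have h5 := le_abs_self (Real.log |(d : ℝ)|)
    linarith [hlt.2.2]
  · refine Eventually.of_forall fun t h0 => ?_
    have := congrFun h0 0
    rw [z0] at this
    exact one_ne_zero this
  · refine Eventually.of_forall fun t l => ?_
    rw [Fin.sum_univ_five, e0, e1, e2, e3, e4, z0, z1, z2, z3, z4]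
    fin_cases l
    · show ‖φ ((1 : A) * _ + 0 * _ + 0 * _ + 0 * _ + 0 * _)‖ ≤ (u t : ℝ)
      simp [hφ]
    · show ‖φ ((0 : A) * _ + 1 * _ + 0 * _ + 0 * _ + 0 * _)‖ ≤ (w t : ℝ)
      simp [hφ]
    · show ‖φ ((0 : A) * _ + 0 * _ + 1 * _ + 0 * _ + 0 * _)‖ ≤ (D t : ℝ)
      have : φ ((0 : A) * (((u t : ℤ) * 1 : ℤ) : A) + 0 * (((w t : ℤ) * 1 : ℤ) : A) +
          1 * (((1 : ℤ) * W t : ℤ) : A) + 0 * (((D t : ℤ) * M t : ℤ) : A) +
          0 * (((D' t : ℤ) * M' t : ℤ) : A)) = (((W t : ℤ) : ℝ) : ℂ) := by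
        simp
      rw [this, Complex.norm_real, Real.norm_eq_abs]
      exact hW t
    · show ‖φ (⟨(d : ℝ) * x, hAx⟩ * _ + 0 * _ + -(d : A) * _ + -(d : A) * _ + 0 * _)‖ ≤ |(d : ℝ)|
      have : φ (⟨(d : ℝ) * x, hAx⟩ * (((u t : ℤ) * 1 : ℤ) : A) + 0 * (((w t : ℤ) * 1 : ℤ) : A) +
          -(d : A) * (((1 : ℤ) * W t : ℤ) : A) + -(d : A) * (((D t : ℤ) * M t : ℤ) : A) +
          0 * (((D' t : ℤ) * M' t : ℤ) : A)) =
          (((d : ℝ) * (x * u t - D t * M t - W t) : ℝ) : ℂ) := by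
        rw [map_add, map_add, map_add, map_add, map_mul, map_mul, map_mul, map_mul, map_mul,
          map_neg, map_zero, hφ ⟨(d : ℝ) * x, hAx⟩]
        simp only [map_intCast]
        push_cast
        ring
      rw [this, Complex.norm_real, Real.norm_eq_abs, abs_mul]
      exact mul_le_of_le_one_right hdp.le (h1 t)
    · show ‖φ (0 * _ + ⟨(d : ℝ) * y, hAy⟩ * _ + -(d : A) * _ + 0 * _ + -(d : A) * _)‖ ≤
        |(d : ℝ)| * F t
      have : φ (0 * (((u t : ℤ) * 1 : ℤ) : A) + ⟨(d : ℝ) * y, hAy⟩ * (((w t : ℤ) * 1 : ℤ) : A) +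
          -(d : A) * (((1 : ℤ) * W t : ℤ) : A) + 0 * (((D t : ℤ) * M t : ℤ) : A) +
          -(d : A) * (((D' t : ℤ) * M' t : ℤ) : A)) =
          (((d : ℝ) * (y * w t - D' t * M' t - W t) : ℝ) : ℂ) := by
        rw [map_add, map_add, map_add, map_add, map_mul, map_mul, map_mul, map_mul, map_mul,
          map_neg, map_zero, hφ ⟨(d : ℝ) * y, hAy⟩]
        simp only [map_intCast]
        push_cast
        ring
      rw [this, Complex.norm_real, Real.norm_eq_abs, abs_mul]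
      refine mul_le_mul_of_nonneg_left ?_ hdp.le
      have h5 : y * w t - D' t * M' t - W t = (y * w t - D' t * M' t - V t) - (W t - V t) := by
        ring
      rw [h5]
      exact (abs_sub _ _).trans (add_le_add (h2 t) le_rfl)

end Pool.Agent.U773.BD
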