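import Mathlib
import Pool.Agent.U773.BD.Rel4

/-! Analysis of the relation. -/

set_option autoImplicit false

open Finset Filter Topology

namespace Pool.Agent.U773.BD

open Pool.Agent.TH419.WI Pool.Agent.N671.OPN Pool.Agent.U773.SF Pool.Agent.U773.WN
  Pool.Agent.U773.RS

/-- the main inequality for two units, sequences -/
lemma main_two {S : Finset ℕ} (hS : ∀ p ∈ S, p.Prime) (C ε : ℝ) (hε : 0 < ε) (N : ℕ → ℕ)
    (hN : Tendsto N atTop atTop) (u w D : ℕ → ℕ) (M : ℕ → ℤ)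
    (hu : ∀ t, SU S (u t) ∧ (u t : ℝ) ≤ Real.exp (C * N t))
    (hw : ∀ t, SU S (w t) ∧ (w t : ℝ) ≤ Real.exp (C * N t))
    (hD : ∀ t, SU S (D t) ∧ (D t : ℝ) ≤ Real.exp (C * N t)) (a b : ℝ)
    (ha : IsAlgebraic ℚ a) (hb : IsAlgebraic ℚ b) (ℓ : ℝ →ₗ[ℚ] ℚ) (hℓ : ℓ 1 = 0) :
    ∀ᶠ t in atTop, min (D t : ℝ) |((ℓ a : ℚ) : ℝ) * u t + ((ℓ b : ℚ) : ℝ) * w t| *
      Real.exp (-(ε * N t)) ≤ |a * u t + b * w t - D t * M t| := by
  obtain ⟨U, hU⟩ := main ![a, b] (by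
    intro i
    fin_cases i
    · simpa using ha
    · simpa using hb) ℓ hℓ hS C ε hε
  filter_upwards [hN.eventually_ge_atTop U] with t ht
  have h1 := hU (N t) ht (D t) ![(u t : ℤ), (w t : ℤ)] (M t) (hD t).1.1 (hD t).1.2 (hD t).2 (by
    intro i
    fin_cases i
    · simpa using (hu t).2
    · simpa using (hw t).2)
  rw [Fin.sum_univ_two, Fin.prod_univ_two] at h1
  simp only [Matrix.cons_val_zero, Matrix.cons_val_one, Int.cast_natCast] at h1
  rw [(hu t).1.fr hS, (hw t).1.fr hS, Nat.cast_one, mul_one, mul_one] at h1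
  have h2 : ((ℓ (a * u t + b * w t) : ℚ) : ℝ) = ((ℓ a : ℚ) : ℝ) * u t + ((ℓ b : ℚ) : ℝ) * w t := by
    have e1 := fun_int ℓ (u t) a
    have e2 := fun_int ℓ (w t) b
    rw [Int.cast_natCast, Int.cast_natCast, mul_comm] at e1 e2
    rw [map_add, e1, e2]
    push_cast
    ring
  rwa [h2] at h1

/-- the homogeneous inequality for two units, sequences -/
lemma hom_two {S : Finset ℕ} (hS : ∀ p ∈ S, p.Prime) (C ε : ℝ) (hε : 0 < ε) (N : ℕ → ℕ)
    (hN : Tendsto N atTop atTop) (u w : ℕ → ℕ)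
    (hu : ∀ t, SU S (u t) ∧ (u t : ℝ) ≤ Real.exp (C * N t))
    (hw : ∀ t, SU S (w t) ∧ (w t : ℝ) ≤ Real.exp (C * N t)) (a b : ℝ)
    (ha : IsAlgebraic ℚ a) (hb : IsAlgebraic ℚ b) (ℓ : ℝ →ₗ[ℚ] ℚ) :
    ∀ᶠ t in atTop, |((ℓ a : ℚ) : ℝ) * u t + ((ℓ b : ℚ) : ℝ) * w t| *
      Real.exp (-(ε * N t)) ≤ |a * u t + b * w t| := by
  obtain ⟨U, hU⟩ := hom0 ![a, b] (by
    intro i
    fin_cases i
    · simpa using ha
    · simpa using hb) ℓ hS C ε hε
  filter_upwards [hN.eventually_ge_atTop U] with t ht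
  have h2 : ((ℓ (a * u t + b * w t) : ℚ) : ℝ) = ((ℓ a : ℚ) : ℝ) * u t + ((ℓ b : ℚ) : ℝ) * w t := by
    have e1 := fun_int ℓ (u t) a
    have e2 := fun_int ℓ (w t) b
    rw [Int.cast_natCast, Int.cast_natCast, mul_comm] at e1 e2
    rw [map_add, e1, e2]
    push_cast
    ring
  by_cases h0 : ℓ (a * u t + b * w t) = 0
  · rw [← h2, h0, Rat.cast_zero, abs_zero, zero_mul]
    exact abs_nonneg _
  have hu1 : ((u t : ℤ)) ≠ 0 := by have := (hu t).1.1; omega
  have hw1 : ((w t : ℤ)) ≠ 0 := by have := (hw t).1.1; omega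
  have h1 := hU (N t) ht ![(u t : ℤ), (w t : ℤ)] (by
    intro i
    fin_cases i
    · exact ⟨hu1, by simpa using (hu t).2⟩
    · exact ⟨hw1, by simpa using (hw t).2⟩) (by
      rw [Fin.sum_univ_two]
      simpa using h0)
  rw [Fin.sum_univ_two, Fin.prod_univ_two] at h1
  simp only [Matrix.cons_val_zero, Matrix.cons_val_one, Int.cast_natCast] at h1
  have e3 : (free S (u t : ℤ) : ℝ) = 1 := by
    have := (hu t).1.fr hS
    unfold fr at this
    rw [if_neg hu1] at this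
    exact_mod_cast this
  have e4 : (free S (w t : ℤ) : ℝ) = 1 := by
    have := (hw t).1.fr hS
    unfold fr at this
    rw [if_neg hw1] at this
    exact_mod_cast this
  rw [e3, e4, mul_one, mul_one, h2] at h1
  exact h1.le

lemma ev_small {ε : ℝ} (hε : 0 < ε) {N : ℕ → ℕ} (hN : Tendsto N atTop atTop) (K : ℝ) :
    ∀ᶠ t in atTop, K ≤ Real.exp (ε * N t) :=
  (Real.tendsto_exp_atTop.comp ((tendsto_natCast_atTop_atTop.comp hN).const_mul_atTop
    hε)).eventually_ge_atTop K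

/-- the analysis of a relation -/
theorem core_small {x y : ℝ} (hx : IsAlgebraic ℚ x) (hy : IsAlgebraic ℚ y) {S : Finset ℕ}
    (hS : ∀ p ∈ S, p.Prime) (C ε : ℝ) (hε : 0 < ε) (N : ℕ → ℕ)
    (hN : Tendsto N atTop atTop) (u w D D' : ℕ → ℕ) (M M' W V : ℕ → ℤ)
    (hu : ∀ t, SU S (u t) ∧ (u t : ℝ) ≤ Real.exp (C * N t))
    (hw : ∀ t, SU S (w t) ∧ (w t : ℝ) ≤ Real.exp (C * N t))
    (hD : ∀ t, SU S (D t) ∧ (D t : ℝ) ≤ Real.exp (C * N t))
    (hD' : ∀ t, SU S (D' t) ∧ (D' t : ℝ) ≤ Real.exp (C * N t))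
    (h1 : ∀ t, |x * u t - D t * M t - W t| ≤ 1)
    (h2 : ∀ t, |y * w t - D' t * M' t - V t| ≤ 1)
    (hDD : ∀ t, D t ≤ D' t)
    (hsm : ∀ᶠ t in atTop, 1 + |(W t : ℝ) - V t| ≤ D t * Real.exp (-(ε * N t)))
    (r0 r1 r2 r3 r4 : ℤ)
    (hrel : ∀ t, r0 * u t + r1 * w t + r2 * W t + r3 * (D t * M t) + r4 * (D' t * M' t) = 0) :
    (r2 - r3 - r4 ≠ 0 → ∀ ℓ : ℝ →ₗ[ℚ] ℚ, ℓ 1 = 0 → ∀ᶠ t in atTop,
      |((ℓ x : ℚ) : ℝ) * u t - ((ℓ y : ℚ) : ℝ) * w t| ≤ D t * Real.exp (-(ε / 4 * N t))) ∧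
    (r2 - r3 - r4 = 0 → ∀ ℓ : ℝ →ₗ[ℚ] ℚ, ∀ᶠ t in atTop,
      |((ℓ (r0 + r3 * x) : ℚ) : ℝ) * u t + ((ℓ (r1 + r4 * y) : ℚ) : ℝ) * w t| ≤
        D t * Real.exp (-(ε / 4 * N t))) := by
  set κ : ℤ := r2 - r3 - r4 with hκ
  set F : ℕ → ℝ := fun t => 1 + |(W t : ℝ) - V t| with hF
  have hF1 : ∀ t, 1 ≤ F t := fun t => by
    simp only [hF]
    linarith [abs_nonneg ((W t : ℝ) - V t)]
  set K : ℝ := 2 * (|(κ : ℝ)| + |(r3 : ℝ)| + |(r4 : ℝ)| + 1) with hK
  have hK0 : 0 < K := by positivity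
  have hKF : ∀ᶠ t in atTop, 2 * K * F t * Real.exp (ε / 4 * N t) <
      D t * Real.exp (-(ε / 4 * N t)) := by
    filter_upwards [hsm, ev_small (show 0 < ε / 4 by positivity) hN (2 * K + 1)] with t ht hKt
    have hD0 : (0 : ℝ) < D t := by exact_mod_cast (hD t).1.1
    have e0 : 0 < Real.exp (ε / 4 * N t) := Real.exp_pos _
    calc 2 * K * F t * Real.exp (ε / 4 * N t)
        ≤ 2 * K * (D t * Real.exp (-(ε * N t))) * Real.exp (ε / 4 * N t) := by gcongr
      _ < Real.exp (ε / 4 * N t) * (D t * Real.exp (-(ε * N t))) * Real.exp (ε / 4 * N t) := by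
          have : 2 * K < Real.exp (ε / 4 * N t) := by linarith
          gcongr
      _ = D t * (Real.exp (ε / 4 * N t) * Real.exp (ε / 4 * N t) * Real.exp (-(ε * N t))) := by
          ring
      _ ≤ D t * Real.exp (-(ε / 4 * N t)) := by
          apply mul_le_mul_of_nonneg_left _ hD0.le
          rw [← Real.exp_add, ← Real.exp_add]
          apply Real.exp_le_exp.2
          have : 0 ≤ ε * N t := by positivity
          linarith
  -- the errors
  have hf2 : ∀ t, |y * w t - D' t * M' t - W t| ≤ F t := by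
    intro t
    have h5 : y * w t - D' t * M' t - W t = (y * w t - D' t * M' t - V t) - (W t - V t) := by
      ring
    rw [h5]
    exact (abs_sub _ _).trans (add_le_add (h2 t) le_rfl)
  have hrelR : ∀ t, (r0 : ℝ) * u t + r1 * w t + r2 * W t + r3 * (D t * M t) +
      r4 * (D' t * M' t) = 0 := fun t => by exact_mod_cast hrel t
  have hPQ : ∀ t, (r0 + r3 * x) * u t + (r1 + r4 * y) * w t = -(κ * W t) +
      (r3 * (x * u t - D t * M t - W t) + r4 * (y * w t - D' t * M' t - W t)) := by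
    intro t
    have h3 := hrelR t
    have h4 : (κ : ℝ) = r2 - r3 - r4 := by rw [hκ]; push_cast; ring
    rw [h4]
    linear_combination h3
  have hbound : ∀ (a b : ℝ) (t : ℕ), |a| ≤ |(κ : ℝ)| + |(r3 : ℝ)| →
      |b| ≤ |(κ : ℝ)| + |(r4 : ℝ)| →
      |a * (x * u t - D t * M t - W t) + b * (y * w t - D' t * M' t - W t)| ≤ K * F t := by
    intro a b t ha hb
    refine (abs_add_le _ _).trans ?_
    rw [abs_mul, abs_mul]
    have e1 : |a| * |x * u t - D t * M t - W t| ≤ (|(κ : ℝ)| + |(r3 : ℝ)|) * 1 :=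
      mul_le_mul ha (h1 t) (abs_nonneg _) (by positivity)
    have e2 : |b| * |y * w t - D' t * M' t - W t| ≤ (|(κ : ℝ)| + |(r4 : ℝ)|) * F t :=
      mul_le_mul hb (hf2 t) (abs_nonneg _) (by positivity)
    have e3 := hF1 t
    have e4 : (|(κ : ℝ)| + |(r3 : ℝ)|) * 1 ≤ (|(κ : ℝ)| + |(r3 : ℝ)|) * F t :=
      mul_le_mul_of_nonneg_left e3 (by positivity)
    have e5 : K * F t = (|(κ : ℝ)| + |(r3 : ℝ)|) * F t + (|(κ : ℝ)| + |(r4 : ℝ)|) * F t +
        (|(r3 : ℝ)| + |(r4 : ℝ)| + 2) * F t := by rw [hK]; ring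
    have e6 : 0 ≤ (|(r3 : ℝ)| + |(r4 : ℝ)| + 2) * F t := by
      have : 0 ≤ F t := by linarith
      positivity
    linarith
  have halg : ∀ r : ℤ, IsAlgebraic ℚ (r : ℝ) := fun r => isAlgebraic_int r
  refine ⟨fun hκ0 ℓ hℓ => ?_, fun hκ0 ℓ => ?_⟩
  · have m1 := main_two hS C (ε / 4) (by positivity) N hN u w D (fun t => κ * M t) hu hw hD
      (κ * x + (r0 + r3 * x)) (r1 + r4 * y)
      (((halg κ).mul hx).add ((halg r0).add ((halg r3).mul hx)))
      ((halg r1).add ((halg r4).mul hy)) ℓ hℓ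
    have m2 := main_two hS C (ε / 4) (by positivity) N hN u w D' (fun t => κ * M' t) hu hw hD'
      (r0 + r3 * x) (κ * y + (r1 + r4 * y))
      ((halg r0).add ((halg r3).mul hx))
      (((halg κ).mul hy).add ((halg r1).add ((halg r4).mul hy))) ℓ hℓ
    filter_upwards [m1, m2, hKF] with t g1 g2 g3
    have hD0 : (0 : ℝ) < D t := by exact_mod_cast (hD t).1.1
    have hDD' : (D t : ℝ) ≤ D' t := by exact_mod_cast hDD t
    have e0 : 0 < Real.exp (-(ε / 4 * N t)) := Real.exp_pos _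
    have s1 : (κ * x + (r0 + r3 * x)) * u t + (r1 + r4 * y) * w t - D t * ((κ * M t : ℤ) : ℝ) =
        (κ + r3) * (x * u t - D t * M t - W t) + r4 * (y * w t - D' t * M' t - W t) := by
      have := hPQ t
      push_cast
      linear_combination this
    have s2 : (r0 + r3 * x) * u t + (κ * y + (r1 + r4 * y)) * w t - D' t * ((κ * M' t : ℤ) : ℝ) =
        r3 * (x * u t - D t * M t - W t) + (κ + r4) * (y * w t - D' t * M' t - W t) := by
      have := hPQ t
      push_cast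
      linear_combination this
    rw [s1] at g1
    rw [s2] at g2
    have b1 := g1.trans (hbound _ _ t (abs_add_le _ _) (by
      have := abs_nonneg (κ : ℝ); linarith))
    have b2 := g2.trans (hbound _ _ t (by have := abs_nonneg (κ : ℝ); linarith) (abs_add_le _ _))
    have lx : ((ℓ (κ * x + (r0 + r3 * x)) : ℚ) : ℝ) = (κ + r3) * ((ℓ x : ℚ) : ℝ) := by
      have e1 : ((r0 : ℤ) : ℝ) = (r0 : ℝ) * 1 := (mul_one _).symm
      rw [map_add, map_add, fun_int, fun_int, e1, fun_int, hℓ]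
      push_cast
      ring
    have lx' : ((ℓ (r0 + r3 * x) : ℚ) : ℝ) = r3 * ((ℓ x : ℚ) : ℝ) := by
      have e1 : ((r0 : ℤ) : ℝ) = (r0 : ℝ) * 1 := (mul_one _).symm
      rw [map_add, fun_int, e1, fun_int, hℓ]
      push_cast
      ring
    have ly : ((ℓ (κ * y + (r1 + r4 * y)) : ℚ) : ℝ) = (κ + r4) * ((ℓ y : ℚ) : ℝ) := by
      have e1 : ((r1 : ℤ) : ℝ) = (r1 : ℝ) * 1 := (mul_one _).symm
      rw [map_add, map_add, fun_int, fun_int, e1, fun_int, hℓ]
      push_cast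
      ring
    have ly' : ((ℓ (r1 + r4 * y) : ℚ) : ℝ) = r4 * ((ℓ y : ℚ) : ℝ) := by
      have e1 : ((r1 : ℤ) : ℝ) = (r1 : ℝ) * 1 := (mul_one _).symm
      rw [map_add, fun_int, e1, fun_int, hℓ]
      push_cast
      ring
    rw [lx, ly'] at b1
    rw [lx', ly] at b2
    set X1 := (κ + r3) * ((ℓ x : ℚ) : ℝ) * u t + r4 * ((ℓ y : ℚ) : ℝ) * w t with hX1
    set X2 := r3 * ((ℓ x : ℚ) : ℝ) * u t + (κ + r4) * ((ℓ y : ℚ) : ℝ) * w t with hX2
    have hexp : Real.exp (ε / 4 * N t) * Real.exp (-(ε / 4 * N t)) = 1 := by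
      rw [← Real.exp_add]; simp
    have hep : 0 < Real.exp (ε / 4 * N t) := Real.exp_pos _
    have fin : ∀ (E X : ℝ), (D t : ℝ) ≤ E → min E |X| * Real.exp (-(ε / 4 * N t)) ≤ K * F t →
        |X| ≤ K * F t * Real.exp (ε / 4 * N t) := by
      intro E X hE hmin
      rcases le_total E |X| with h | h
      · rw [min_eq_left h] at hmin
        have : D t * Real.exp (-(ε / 4 * N t)) ≤ K * F t :=
          (mul_le_mul_of_nonneg_right hE e0.le).trans hmin
        have h8 : 0 ≤ K * F t := by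
          have := hF1 t
          positivity
        have h7 : K * F t ≤ K * F t * Real.exp (ε / 4 * N t) := by
          apply le_mul_of_one_le_right h8
          apply Real.one_le_exp
          positivity
        linarith
      · rw [min_eq_right h] at hmin
        calc |X| = |X| * Real.exp (-(ε / 4 * N t)) * Real.exp (ε / 4 * N t) := by
              rw [mul_assoc, mul_comm (Real.exp (-(ε / 4 * N t))), hexp, mul_one]
          _ ≤ _ := mul_le_mul_of_nonneg_right hmin hep.le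
    have c1 := fin _ _ le_rfl b1
    have c2 := fin _ _ hDD' b2
    have hκ1 : (1 : ℝ) ≤ |(κ : ℝ)| := by exact_mod_cast Int.one_le_abs hκ0
    have c3 : |(κ : ℝ)| * |((ℓ x : ℚ) : ℝ) * u t - ((ℓ y : ℚ) : ℝ) * w t| ≤ |X1| + |X2| := by
      rw [← abs_mul]
      have : (κ : ℝ) * (((ℓ x : ℚ) : ℝ) * u t - ((ℓ y : ℚ) : ℝ) * w t) = X1 - X2 := by
        rw [hX1, hX2]; ring
      rw [this]
      exact abs_sub _ _
    have c4 : |((ℓ x : ℚ) : ℝ) * u t - ((ℓ y : ℚ) : ℝ) * w t| ≤ |X1| + |X2| :=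
      (le_mul_of_one_le_left (abs_nonneg _) hκ1).trans c3
    linarith
  · have m1 := hom_two hS C (ε / 4) (by positivity) N hN u w hu hw
      (r0 + r3 * x) (r1 + r4 * y)
      ((halg r0).add ((halg r3).mul hx))
      ((halg r1).add ((halg r4).mul hy)) ℓ
    filter_upwards [m1, hKF] with t g1 g3
    have hκR : (κ : ℝ) = 0 := by exact_mod_cast hκ0
    have s1 := hPQ t
    rw [hκR, zero_mul, neg_zero, zero_add] at s1
    rw [s1] at g1
    have b1 := g1.trans (hbound _ _ t (by have := abs_nonneg (κ : ℝ); linarith)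
      (by have := abs_nonneg (κ : ℝ); linarith))
    have hexp : Real.exp (ε / 4 * N t) * Real.exp (-(ε / 4 * N t)) = 1 := by
      rw [← Real.exp_add]; simp
    set X := ((ℓ (r0 + r3 * x) : ℚ) : ℝ) * u t + ((ℓ (r1 + r4 * y) : ℚ) : ℝ) * w t with hX
    calc |X| = |X| * Real.exp (-(ε / 4 * N t)) * Real.exp (ε / 4 * N t) := by
          rw [mul_assoc, mul_comm (Real.exp (-(ε / 4 * N t))), hexp, mul_one]
      _ ≤ K * F t * Real.exp (ε / 4 * N t) := mul_le_mul_of_nonneg_right b1 (Real.exp_pos _).le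
      _ ≤ _ := by
          have h8 : 0 ≤ K * F t * Real.exp (ε / 4 * N t) := by
            have := hF1 t
            positivity
          linarith

end Pool.Agent.U773.BD
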