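import Mathlib
import Pool.Agent.U773.BD.Core2

/-! Residues of integer parts: two multiplicatively independent bases. -/

set_option autoImplicit false

open Finset Filter Topology

namespace Pool.Agent.U773.BD

open Pool.Agent.TH419.WI Pool.Agent.N671.OPN Pool.Agent.U773.SF Pool.Agent.U773.WN
  Pool.Agent.U773.RS

theorem ratioQ {S : Finset ℕ} (hS : ∀ p ∈ S, p.Prime) (C ε : ℝ) (hε : 0 < ε) (a b : ℚ)
    (hab : a ≠ 0 ∨ b ≠ 0) :
    ∃ U : ℕ, ∀ N : ℕ, U ≤ N → ∀ u w : ℕ, SU S u → SU S w → (u : ℝ) ≤ Real.exp (C * N) →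
      (w : ℝ) ≤ Real.exp (C * N) →
      |(a : ℝ) * u + b * w| ≤ min (u : ℝ) w * Real.exp (-(ε * N)) → a * u + b * w = 0 := by
  have hda : (0 : ℤ) < a.den := by exact_mod_cast a.den_pos
  have hdb : (0 : ℤ) < b.den := by exact_mod_cast b.den_pos
  obtain ⟨U, hU⟩ := ratio hS C (ε / 2) (by positivity) (a.num * b.den) (b.num * a.den) (by
    rcases hab with h | h
    · exact Or.inl (mul_ne_zero (Rat.num_ne_zero.2 h) hdb.ne')
    · exact Or.inr (mul_ne_zero (Rat.num_ne_zero.2 h) hda.ne'))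
  obtain ⟨U', hU'⟩ := eventually_atTop.1 (ev_small (show 0 < ε / 2 by positivity) tendsto_id
    ((a.den : ℝ) * b.den))
  refine ⟨U + U', fun N hN u w hu hw huC hwC hsm => ?_⟩
  have ea : (a : ℝ) * a.den = a.num := by
    have := Rat.mul_den_eq_num a
    exact_mod_cast this
  have eb : (b : ℝ) * b.den = b.num := by
    have := Rat.mul_den_eq_num b
    exact_mod_cast this
  have h1 : (((a.num * b.den : ℤ) : ℝ)) * u + ((b.num * a.den : ℤ) : ℝ) * w =
      (a.den * b.den) * (a * u + b * w) := by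
    push_cast
    rw [← ea, ← eb]
    ring
  have hdd : (0 : ℝ) ≤ (a.den : ℝ) * b.den := by positivity
  have h2 := hU N (by omega) u w hu hw huC hwC (by
    rw [h1, abs_mul, abs_of_nonneg hdd]
    have h3 := hU' N (by omega)
    simp only [id] at h3
    have hm : 0 ≤ min (u : ℝ) w := le_min (Nat.cast_nonneg _) (Nat.cast_nonneg _)
    calc (a.den : ℝ) * b.den * |(a : ℝ) * u + b * w|
        ≤ Real.exp (ε / 2 * N) * (min (u : ℝ) w * Real.exp (-(ε * N))) :=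
          mul_le_mul h3 hsm (abs_nonneg _) (Real.exp_pos _).le
      _ = min (u : ℝ) w * (Real.exp (ε / 2 * N) * Real.exp (-(ε * N))) := by ring
      _ = min (u : ℝ) w * Real.exp (-(ε / 2 * N)) := by
          rw [← Real.exp_add]; congr 2; ring)
  have h4 : (((a.num * b.den : ℤ) : ℝ)) * u + ((b.num * a.den : ℤ) : ℝ) * w = 0 := by
    exact_mod_cast h2
  rw [h1] at h4
  have hdd' : ((a.den : ℝ) * b.den) ≠ 0 := by
    have : (0 : ℝ) < a.den := by exact_mod_cast a.den_pos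
    have : (0 : ℝ) < b.den := by exact_mod_cast b.den_pos
    positivity
  rcases mul_eq_zero.1 h4 with h | h
  · exact absurd h hdd'
  · exact_mod_cast h

/-- the moduli are comparable -/
lemma comp {y : ℝ} (hy : IsAlgebraic ℚ y) (hyi : Irrational y) {S : Finset ℕ}
    (hS : ∀ p ∈ S, p.Prime) (C ε : ℝ) (hε : 0 < ε) (N : ℕ → ℕ)
    (hN : Tendsto N atTop atTop) (w D D' : ℕ → ℕ) (M' W V : ℕ → ℤ)
    (hw : ∀ t, SU S (w t) ∧ (w t : ℝ) ≤ Real.exp (C * N t))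
    (hD' : ∀ t, SU S (D' t) ∧ (D' t : ℝ) ≤ Real.exp (C * N t)) (K : ℝ)
    (hK : 0 < K) (hDw : ∀ t, (D' t : ℝ) ≤ K * w t) (hW : ∀ t, |(W t : ℝ)| ≤ D t)
    (h2 : ∀ t, |y * w t - D' t * M' t - V t| ≤ 1)
    (hsm : ∀ t, 1 + |(W t : ℝ) - V t| ≤ D' t * Real.exp (-(ε * N t))) :
    ∀ᶠ t in atTop, D' t * Real.exp (-(ε / 4 * N t)) ≤ D t ∧
      1 + |(W t : ℝ) - V t| ≤ D t * Real.exp (-(3 * ε / 4 * N t)) := by
  obtain ⟨ℓ, hℓy, hℓ1⟩ := exists_fun_irr hyi
  have m1 := main_two hS C (ε / 8) (by positivity) N hN w w D' M' hw hw hD' y 0 hy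
    isAlgebraic_zero ℓ hℓ1
  filter_upwards [m1, ev_small (show 0 < ε / 8 by positivity) hN (2 * (K + 1))] with t g1 g2
  have hD0 : (0 : ℝ) < D' t := by exact_mod_cast (hD' t).1.1
  have hw0 : (0 : ℝ) < w t := by exact_mod_cast (hw t).1.1
  rw [hℓy, map_zero, Rat.cast_one, Rat.cast_zero, one_mul, zero_mul, add_zero,
    add_zero, abs_of_pos hw0] at g1
  have h3 : |y * w t - D' t * M' t| ≤ D t + D' t * Real.exp (-(ε * N t)) := by
    have e1 : y * w t - D' t * M' t = (y * w t - D' t * M' t - V t) - (W t - V t) + W t := by ring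
    rw [e1]
    calc |(y * w t - D' t * M' t - V t) - (W t - V t) + W t|
        ≤ |(y * w t - D' t * M' t - V t) - (W t - V t)| + |(W t : ℝ)| := abs_add_le _ _
      _ ≤ (1 + |(W t : ℝ) - V t|) + D t := by
          refine add_le_add ((abs_sub _ _).trans (add_le_add (h2 t) le_rfl)) (hW t)
      _ ≤ _ := by linarith [hsm t]
  have h4 : D' t / (K + 1) ≤ min (D' t : ℝ) (w t) := by
    refine le_min ?_ ?_
    · exact div_le_self hD0.le (by linarith)
    · rw [div_le_iff₀ (by linarith)]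
      have := hDw t
      nlinarith
  have e8 : 0 < Real.exp (-(ε / 8 * N t)) := Real.exp_pos _
  have h5 : D' t / (K + 1) * Real.exp (-(ε / 8 * N t)) ≤ D t + D' t * Real.exp (-(ε * N t)) :=
    ((mul_le_mul_of_nonneg_right h4 e8.le).trans g1).trans h3
  have hεN : 0 ≤ ε * N t := by positivity
  have h6 : Real.exp (-(ε * N t)) ≤ Real.exp (-(ε / 4 * N t)) := by
    apply Real.exp_le_exp.2
    linarith
  have h7 : 2 * Real.exp (-(ε / 4 * N t)) ≤ 1 / (K + 1) * Real.exp (-(ε / 8 * N t)) := by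
    have e1 : Real.exp (-(ε / 8 * N t)) = Real.exp (ε / 8 * N t) * Real.exp (-(ε / 4 * N t)) := by
      rw [← Real.exp_add]; congr 1; ring
    rw [e1, ← mul_assoc]
    apply mul_le_mul_of_nonneg_right _ (Real.exp_pos _).le
    rw [div_mul_eq_mul_div, one_mul, le_div_iff₀ (by linarith)]
    linarith
  have h8 : D' t * Real.exp (-(ε / 4 * N t)) ≤ D t := by
    have e1 : D' t / (K + 1) * Real.exp (-(ε / 8 * N t)) =
        D' t * (1 / (K + 1) * Real.exp (-(ε / 8 * N t))) := by ring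
    rw [e1] at h5
    have h9 := mul_le_mul_of_nonneg_left h7 hD0.le
    have h10 := mul_le_mul_of_nonneg_left h6 hD0.le
    linarith
  refine ⟨h8, (hsm t).trans ?_⟩
  have e1 : D' t * Real.exp (-(ε * N t)) = (D' t * Real.exp (-(ε / 4 * N t))) *
      Real.exp (-(3 * ε / 4 * N t)) := by
    rw [mul_assoc, ← Real.exp_add]; congr 2; ring
  rw [e1]
  exact mul_le_mul_of_nonneg_right h8 (Real.exp_pos _).le

theorem two_bases {x y : ℝ} (hx : IsAlgebraic ℚ x) (hxi : Irrational x) (hy : IsAlgebraic ℚ y)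
    (hyi : Irrational y) {S : Finset ℕ} (hS : ∀ p ∈ S, p.Prime) {b c : ℕ} (hb : 2 ≤ b)
    (hc : 2 ≤ c) (hbc : ∀ i j : ℕ, b ^ i = c ^ j → i = 0)
    (hbS : ∀ p : ℕ, p.Prime → p ∣ b → p ∈ S) (hcS : ∀ p : ℕ, p.Prime → p ∣ c → p ∈ S)
    (C ε : ℝ) (hε : 0 < ε) :
    ∃ U : ℕ, ∀ N : ℕ, U ≤ N → ∀ (i j D D' : ℕ) (M M' W V : ℤ),
      SU S D → SU S D' → D ≤ b ^ i → D' ≤ c ^ j → ((b ^ i : ℕ) : ℝ) ≤ Real.exp (C * N) →
      ((c ^ j : ℕ) : ℝ) ≤ Real.exp (C * N) → D ≤ D' → |(W : ℝ)| ≤ D →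
      |x * (b ^ i : ℕ) - D * M - W| ≤ 1 → |y * (c ^ j : ℕ) - D' * M' - V| ≤ 1 →
      D' * Real.exp (-(ε * N)) < 1 + |(W : ℝ) - V| := by
  classical
  by_contra hcon
  push Not at hcon
  choose N hNU i j D D' M M' W V hD hD' hDu hDw huC hwC hDD hW h1 h2 hsm using hcon
  have hN : Tendsto N atTop atTop := tendsto_atTop_mono hNU tendsto_id
  have hNR : Tendsto (fun t => (N t : ℝ)) atTop atTop := tendsto_natCast_atTop_atTop.comp hN
  have hC0 : 0 ≤ C := by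
    by_contra hneg
    push Not at hneg
    have h3 : (1 : ℝ) ≤ N 1 := by exact_mod_cast hNU 1
    have h4 : Real.exp (C * N 1) < 1 := by
      rw [Real.exp_lt_one_iff]
      nlinarith
    have h5 : (1 : ℝ) ≤ ((b ^ i 1 : ℕ) : ℝ) := by
      exact_mod_cast Nat.one_le_pow _ _ (by omega)
    linarith [huC 1]
  have hSU : ∀ (a k : ℕ), 2 ≤ a → (∀ p : ℕ, p.Prime → p ∣ a → p ∈ S) → SU S (a ^ k) :=
    fun a k ha haS => ⟨by positivity, fun p hp hd => haS p hp (hp.dvd_of_dvd_pow hd)⟩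
  have hu : ∀ t, SU S (b ^ i t) ∧ ((b ^ i t : ℕ) : ℝ) ≤ Real.exp (C * N t) :=
    fun t => ⟨hSU b _ hb hbS, huC t⟩
  have hw : ∀ t, SU S (c ^ j t) ∧ ((c ^ j t : ℕ) : ℝ) ≤ Real.exp (C * N t) :=
    fun t => ⟨hSU c _ hc hcS, hwC t⟩
  have hDC : ∀ t, SU S (D t) ∧ (D t : ℝ) ≤ Real.exp (C * N t) := fun t =>
    ⟨hD t, (by exact_mod_cast hDu t : (D t : ℝ) ≤ ((b ^ i t : ℕ) : ℝ)).trans (huC t)⟩
  have hDC' : ∀ t, SU S (D' t) ∧ (D' t : ℝ) ≤ Real.exp (C * N t) := fun t =>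
    ⟨hD' t, (by exact_mod_cast hDw t : (D' t : ℝ) ≤ ((c ^ j t : ℕ) : ℝ)).trans (hwC t)⟩
  obtain ⟨r, hr, hfreq⟩ := rel5 hx hy hS C ε hC0 hε (fun t => (N t : ℝ)) hNR
    (fun t => b ^ i t) (fun t => c ^ j t) D D' M M' W V hu hw hDC hDC' hW h1 h2 hsm
  obtain ⟨ψ, hψ, hrel⟩ := Filter.extraction_of_frequently_atTop hfreq
  have hψt := hψ.tendsto_atTop
  have hNψ : Tendsto (fun t => N (ψ t)) atTop atTop := hN.comp hψt
  have hcmp := comp hy hyi hS C ε hε (fun t => N (ψ t)) hNψ (fun t => c ^ j (ψ t))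
    (fun t => D (ψ t)) (fun t => D' (ψ t)) (fun t => M' (ψ t)) (fun t => W (ψ t))
    (fun t => V (ψ t)) (fun t => hw _) (fun t => hDC' _) 1 one_pos
    (fun t => by rw [one_mul]; exact_mod_cast hDw _) (fun t => hW _) (fun t => h2 _)
    (fun t => hsm _)
  obtain ⟨hk1, hk2⟩ := core_small hx hy hS C (3 * ε / 4) (by positivity) (fun t => N (ψ t)) hNψ
    (fun t => b ^ i (ψ t)) (fun t => c ^ j (ψ t)) (fun t => D (ψ t)) (fun t => D' (ψ t))
    (fun t => M (ψ t)) (fun t => M' (ψ t)) (fun t => W (ψ t)) (fun t => V (ψ t))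
    (fun t => hu _) (fun t => hw _) (fun t => hDC _) (fun t => hDC' _) (fun t => h1 _)
    (fun t => h2 _) (fun t => hDD _) (hcmp.mono fun t ht => ht.2)
    (r 0) (r 1) (r 2) (r 3) (r 4) hrel
  set ε1 : ℝ := 3 * ε / 4 / 4 with hε1
  have hε10 : 0 < ε1 := by positivity
  -- a relation of the units is impossible
  have himp : ∀ a a' : ℚ, (a ≠ 0 ∨ a' ≠ 0) →
      (∀ᶠ t in atTop, a * ((b ^ i (ψ t) : ℕ) : ℚ) + a' * ((c ^ j (ψ t) : ℕ) : ℚ) = 0) → False := by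
    intro a a' haa hev
    have hgrow : Tendsto (fun t => (((b ^ i (ψ t) : ℕ)) : ℝ)) atTop atTop := by
      have h3 : Tendsto (fun t => Real.exp (3 * ε / 4 * (N (ψ t) : ℝ))) atTop atTop :=
        Real.tendsto_exp_atTop.comp ((tendsto_natCast_atTop_atTop.comp hNψ).const_mul_atTop
          (by positivity))
      refine tendsto_atTop_mono' _ ?_ h3
      filter_upwards [hcmp] with t ht
      have h4 : 1 ≤ 1 + |(W (ψ t) : ℝ) - V (ψ t)| := by linarith [abs_nonneg ((W (ψ t) : ℝ) - V (ψ t))]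
      have h5 : 1 ≤ (D (ψ t) : ℝ) * Real.exp (-(3 * ε / 4 * (N (ψ t) : ℝ))) := h4.trans ht.2
      have h6 : Real.exp (3 * ε / 4 * (N (ψ t) : ℝ)) ≤ D (ψ t) := by
        have e1 : Real.exp (3 * ε / 4 * (N (ψ t) : ℝ)) *
            Real.exp (-(3 * ε / 4 * (N (ψ t) : ℝ))) = 1 := by
          rw [← Real.exp_add]; simp
        have e2 : 0 < Real.exp (-(3 * ε / 4 * (N (ψ t) : ℝ))) := Real.exp_pos _
        rw [← e1] at h5
        exact le_of_mul_le_mul_right h5 e2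
      exact h6.trans (by exact_mod_cast hDu _)
    obtain ⟨T, hT⟩ := eventually_atTop.1 hev
    obtain ⟨t2, ht2, ht2'⟩ := ((hgrow.eventually_gt_atTop ((b ^ i (ψ T) : ℕ) : ℝ)).and
      (eventually_ge_atTop T)).exists
    have hlt : i (ψ T) < i (ψ t2) := by
      have : b ^ i (ψ T) < b ^ i (ψ t2) := by exact_mod_cast ht2
      exact (Nat.pow_lt_pow_iff_right (by omega)).1 this
    have q1 := hT T le_rfl
    have q2 := hT t2 ht2'
    have pb : ∀ k, (0 : ℚ) < ((b ^ k : ℕ) : ℚ) := fun k => by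
      exact_mod_cast Nat.pow_pos (by omega : 0 < b)
    have pc : ∀ k, (0 : ℚ) < ((c ^ k : ℕ) : ℚ) := fun k => by
      exact_mod_cast Nat.pow_pos (by omega : 0 < c)
    have ha : a ≠ 0 := by
      rintro rfl
      rw [zero_mul, zero_add] at q1
      rcases mul_eq_zero.1 q1 with h | h
      · rcases haa with h' | h'
        · exact h' rfl
        · exact h' h
      · exact (pc _).ne' h
    have h3 : ((b ^ i (ψ T) : ℕ) : ℚ) * ((c ^ j (ψ t2) : ℕ) : ℚ) =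
        ((b ^ i (ψ t2) : ℕ) : ℚ) * ((c ^ j (ψ T) : ℕ) : ℚ) := by
      have h4 : a * (((b ^ i (ψ T) : ℕ) : ℚ) * ((c ^ j (ψ t2) : ℕ) : ℚ) -
        ((b ^ i (ψ t2) : ℕ) : ℚ) * ((c ^ j (ψ T) : ℕ) : ℚ)) = 0 := by
        linear_combination ((c ^ j (ψ t2) : ℕ) : ℚ) * q1 - ((c ^ j (ψ T) : ℕ) : ℚ) * q2
      rcases mul_eq_zero.1 h4 with h | h
      · exact absurd h ha
      · linarith
    have h4 : b ^ i (ψ T) * c ^ j (ψ t2) = b ^ i (ψ t2) * c ^ j (ψ T) := by exact_mod_cast h3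
    obtain ⟨s, hs⟩ := Nat.exists_eq_add_of_lt hlt
    have h5 : c ^ j (ψ t2) = b ^ (s + 1) * c ^ j (ψ T) := by
      have : b ^ i (ψ T) * c ^ j (ψ t2) = b ^ i (ψ T) * (b ^ (s + 1) * c ^ j (ψ T)) := by
        rw [h4, hs]
        ring
      exact Nat.eq_of_mul_eq_mul_left (Nat.pow_pos (by omega)) this
    have h6 : j (ψ T) ≤ j (ψ t2) := by
      rw [← Nat.pow_le_pow_iff_right (show 1 < c by omega), h5]
      exact Nat.le_mul_of_pos_left _ (Nat.pow_pos (by omega))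
    obtain ⟨s', hs'⟩ := Nat.exists_eq_add_of_le h6
    rw [hs', pow_add, mul_comm (c ^ j (ψ T))] at h5
    have h7 : b ^ (s + 1) = c ^ s' :=
      (Nat.eq_of_mul_eq_mul_right (Nat.pow_pos (by omega)) h5).symm
    have := hbc _ _ h7
    omega
  -- small implies zero
  have hzero : ∀ a a' : ℚ, (a ≠ 0 ∨ a' ≠ 0) →
      (∀ᶠ t in atTop, |(a : ℝ) * ((b ^ i (ψ t) : ℕ) : ℝ) + a' * ((c ^ j (ψ t) : ℕ) : ℝ)| ≤
        D (ψ t) * Real.exp (-(ε1 * N (ψ t)))) → False := by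
    intro a a' haa hev
    obtain ⟨U, hU⟩ := ratioQ hS C ε1 hε10 a a' haa
    refine himp a a' haa ?_
    filter_upwards [hev, hNψ.eventually_ge_atTop U] with t ht ht'
    refine hU _ ht' _ _ (hu _).1 (hw _).1 (hu _).2 (hw _).2 (ht.trans ?_)
    apply mul_le_mul_of_nonneg_right _ (Real.exp_pos _).le
    refine le_min (by exact_mod_cast hDu _) ?_
    exact_mod_cast (hDD _).trans (hDw _)
  obtain ⟨ℓ, hℓx, hℓ1⟩ := exists_fun_irr hxi
  obtain ⟨ℓ', hℓy, hℓ1'⟩ := exists_fun_irr hyi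
  by_cases hκ : r 2 - r 3 - r 4 = 0
  · have hval : ∀ (g : ℝ →ₗ[ℚ] ℚ), g 1 = 0 → ∀ (a a' : ℤ) (z : ℝ), g (a + a' * z) = a' * g z := by
      intro g hg a a' z
      have e1 : ((a : ℤ) : ℝ) = (a : ℝ) * 1 := (mul_one _).symm
      rw [map_add, fun_int, e1, fun_int, hg, mul_zero, zero_add]
    have h34 : r 3 = 0 ∧ r 4 = 0 := by
      by_contra hne
      by_cases h3 : r 3 = 0
      · have h4 : r 4 ≠ 0 := fun h => hne ⟨h3, h⟩
        refine hzero (ℓ' (r 0 + r 3 * x)) (ℓ' (r 1 + r 4 * y)) (Or.inr ?_) (hk2 hκ ℓ')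
        rw [hval ℓ' hℓ1', hℓy, mul_one]
        exact_mod_cast h4
      · refine hzero (ℓ (r 0 + r 3 * x)) (ℓ (r 1 + r 4 * y)) (Or.inl ?_) (hk2 hκ ℓ)
        rw [hval ℓ hℓ1, hℓx, mul_one]
        exact_mod_cast h3
    have h2' : r 2 = 0 := by omega
    refine himp (r 0) (r 1) ?_ (Eventually.of_forall fun t => ?_)
    · by_contra hne
      push Not at hne
      apply hr
      funext l
      fin_cases l
      · exact_mod_cast hne.1
      · exact_mod_cast hne.2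
      · exact h2'
      · exact h34.1
      · exact h34.2
    · have := hrel t
      rw [h2', h34.1, h34.2, zero_mul, zero_mul, zero_mul, add_zero, add_zero, add_zero] at this
      exact_mod_cast this
  · refine hzero (ℓ x) (-ℓ y) (Or.inl (by rw [hℓx]; exact one_ne_zero)) ?_
    filter_upwards [hk1 hκ ℓ hℓ1] with t ht
    have e1 : ((ℓ x : ℚ) : ℝ) * ((b ^ i (ψ t) : ℕ) : ℝ) + ((-ℓ y : ℚ) : ℝ) *
        ((c ^ j (ψ t) : ℕ) : ℝ) = ((ℓ x : ℚ) : ℝ) * ((b ^ i (ψ t) : ℕ) : ℝ) -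
        ((ℓ y : ℚ) : ℝ) * ((c ^ j (ψ t) : ℕ) : ℝ) := by
      push_cast
      ring
    rw [e1]
    exact ht

end Pool.Agent.U773.BD
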