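import Mathlib
import Pool.Agent.U773.BD.TwoBases

/-! Residues of integer parts: linearly independent numbers. -/

set_option autoImplicit false

open Finset Filter Topology

namespace Pool.Agent.U773.BD

open Pool.Agent.TH419.WI Pool.Agent.N671.OPN Pool.Agent.U773.SF Pool.Agent.U773.WN
  Pool.Agent.U773.RS

lemma nosmall {ε : ℝ} (hε : 0 < ε) {N : ℕ → ℕ} (hN : Tendsto N atTop atTop) {u D : ℕ → ℕ}
    (hu : ∀ t, 0 < u t) (K : ℝ) (hK : 0 ≤ K) (hD : ∀ t, (D t : ℝ) ≤ K * u t) (a : ℝ)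
    (h : ∀ᶠ t in atTop, |a * u t| ≤ D t * Real.exp (-(ε * N t))) : a = 0 := by
  by_contra ha
  have ha' : 0 < |a| := abs_pos.2 ha
  obtain ⟨t, ht, ht'⟩ := (h.and (ev_small hε hN ((K + 1) / |a|))).exists
  have hu0 : (0 : ℝ) < u t := by exact_mod_cast hu t
  rw [abs_mul, abs_of_pos hu0] at ht
  have e0 : 0 < Real.exp (-(ε * N t)) := Real.exp_pos _
  have h1 : |a| * u t ≤ K * u t * Real.exp (-(ε * N t)) :=
    ht.trans (mul_le_mul_of_nonneg_right (hD t) e0.le)
  have h2 : |a| ≤ K * Real.exp (-(ε * N t)) := by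
    have h3 : |a| * u t ≤ (K * Real.exp (-(ε * N t))) * u t := by linarith
    exact le_of_mul_le_mul_right h3 hu0
  rw [div_le_iff₀ ha'] at ht'
  have h4 : Real.exp (ε * N t) * Real.exp (-(ε * N t)) = 1 := by rw [← Real.exp_add]; simp
  have h5 : (K + 1) * Real.exp (-(ε * N t)) ≤ |a| := by
    calc (K + 1) * Real.exp (-(ε * N t)) ≤ (Real.exp (ε * N t) * |a|) * Real.exp (-(ε * N t)) :=
          mul_le_mul_of_nonneg_right ht' e0.le
      _ = |a| * (Real.exp (ε * N t) * Real.exp (-(ε * N t))) := by ring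
      _ = |a| := by rw [h4, mul_one]
  nlinarith

theorem indep_units {x y : ℝ} (hx : IsAlgebraic ℚ x) (hy : IsAlgebraic ℚ y)
    (hind : ∀ a b c : ℚ, (a : ℝ) + b * x + c * y = 0 → a = 0 ∧ b = 0 ∧ c = 0) {S : Finset ℕ}
    (hS : ∀ p ∈ S, p.Prime) (C ε : ℝ) (hε : 0 < ε) :
    ∃ U : ℕ, ∀ N : ℕ, U ≤ N → ∀ (u w D D' : ℕ) (M M' W V : ℤ),
      SU S u → SU S w → SU S D → SU S D' → D ≤ u → D' ≤ w → (u : ℝ) ≤ Real.exp (C * N) →
      (w : ℝ) ≤ Real.exp (C * N) → D ≤ D' → |(W : ℝ)| ≤ D →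
      |x * u - D * M - W| ≤ 1 → |y * w - D' * M' - V| ≤ 1 →
      D' * Real.exp (-(ε * N)) < 1 + |(W : ℝ) - V| := by
  classical
  by_contra hcon
  push Not at hcon
  choose N hNU u w D D' M M' W V hu0 hw0 hD hD' hDu hDw huC hwC hDD hW h1 h2 hsm using hcon
  have hN : Tendsto N atTop atTop := tendsto_atTop_mono hNU tendsto_id
  have hNR : Tendsto (fun t => (N t : ℝ)) atTop atTop := tendsto_natCast_atTop_atTop.comp hN
  have hC0 : 0 ≤ C := by
    by_contra hneg
    push Not at hneg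
    have h3 : (1 : ℝ) ≤ N 1 := by exact_mod_cast hNU 1
    have h4 : Real.exp (C * N 1) < 1 := by
      rw [Real.exp_lt_one_iff]
      nlinarith
    have h5 : (1 : ℝ) ≤ u 1 := by exact_mod_cast (hu0 1).1
    linarith [huC 1]
  -- functionals
  obtain ⟨ℓx, hxx, hx0⟩ := exists_fun (Submodule.span ℚ {1, y}) (x := x) (by
    intro h
    obtain ⟨a, b, hab⟩ := Submodule.mem_span_pair.1 h
    have := hind a (-1) b (by
      rw [Rat.smul_def, Rat.smul_def] at hab
      push_cast
      linarith)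
    exact absurd this.2.1 (by norm_num))
  have hx1 : ℓx 1 = 0 := hx0 _ (Submodule.subset_span (by simp))
  have hxy : ℓx y = 0 := hx0 _ (Submodule.subset_span (by simp))
  obtain ⟨ℓy, hyy, hy0⟩ := exists_fun (Submodule.span ℚ {1, x}) (x := y) (by
    intro h
    obtain ⟨a, b, hab⟩ := Submodule.mem_span_pair.1 h
    have := hind a b (-1) (by
      rw [Rat.smul_def, Rat.smul_def] at hab
      push_cast
      linarith)
    exact absurd this.2.2 (by norm_num))
  have hy1 : ℓy 1 = 0 := hy0 _ (Submodule.subset_span (by simp))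
  have hyx : ℓy x = 0 := hy0 _ (Submodule.subset_span (by simp))
  obtain ⟨ℓ1, h11, h10⟩ := exists_fun (Submodule.span ℚ {x, y}) (x := 1) (by
    intro h
    obtain ⟨a, b, hab⟩ := Submodule.mem_span_pair.1 h
    have := hind (-1) a b (by
      rw [Rat.smul_def, Rat.smul_def] at hab
      push_cast
      linarith)
    exact absurd this.1 (by norm_num))
  have h1x : ℓ1 x = 0 := h10 _ (Submodule.subset_span (by simp))
  have h1y : ℓ1 y = 0 := h10 _ (Submodule.subset_span (by simp))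
  have hyi : Irrational y := by
    rintro ⟨q, hq⟩
    have := hind q 0 (-1) (by push_cast; linarith)
    exact absurd this.2.2 (by norm_num)
  have hu : ∀ t, SU S (u t) ∧ (u t : ℝ) ≤ Real.exp (C * N t) := fun t => ⟨hu0 t, huC t⟩
  have hw : ∀ t, SU S (w t) ∧ (w t : ℝ) ≤ Real.exp (C * N t) := fun t => ⟨hw0 t, hwC t⟩
  have hDC : ∀ t, SU S (D t) ∧ (D t : ℝ) ≤ Real.exp (C * N t) := fun t =>
    ⟨hD t, (by exact_mod_cast hDu t : (D t : ℝ) ≤ u t).trans (huC t)⟩
  have hDC' : ∀ t, SU S (D' t) ∧ (D' t : ℝ) ≤ Real.exp (C * N t) := fun t =>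
    ⟨hD' t, (by exact_mod_cast hDw t : (D' t : ℝ) ≤ w t).trans (hwC t)⟩
  obtain ⟨r, hr, hfreq⟩ := rel5 hx hy hS C ε hC0 hε (fun t => (N t : ℝ)) hNR
    u w D D' M M' W V hu hw hDC hDC' hW h1 h2 hsm
  obtain ⟨ψ, hψ, hrel⟩ := Filter.extraction_of_frequently_atTop hfreq
  have hψt := hψ.tendsto_atTop
  have hcmp := comp hy hyi hS C ε hε N hN w D D' M' W V hw hDC' 1 one_pos
    (fun t => by rw [one_mul]; exact_mod_cast hDw _) hW h2 hsm
  have hval : ∀ (g : ℝ →ₗ[ℚ] ℚ) (a a' : ℤ) (z : ℝ), g (a + a' * z) = a * g 1 + a' * g z := by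
    intro g a a' z
    have e1 : ((a : ℤ) : ℝ) = (a : ℝ) * 1 := (mul_one _).symm
    rw [map_add, fun_int, e1, fun_int]
  set ε1 : ℝ := 3 * ε / 4 / 4 with hε1
  have hε10 : 0 < ε1 := by positivity
  have hNψ : Tendsto (fun t => N (ψ t)) atTop atTop := hN.comp hψt
  obtain ⟨hk1, hk2⟩ := core_small hx hy hS C (3 * ε / 4) (by positivity) (fun t => N (ψ t)) hNψ
    (fun t => u (ψ t)) (fun t => w (ψ t)) (fun t => D (ψ t)) (fun t => D' (ψ t))
    (fun t => M (ψ t)) (fun t => M' (ψ t)) (fun t => W (ψ t)) (fun t => V (ψ t))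
    (fun t => hu _) (fun t => hw _) (fun t => hDC _) (fun t => hDC' _) (fun t => h1 _)
    (fun t => h2 _) (fun t => hDD _) (hψt.eventually (hcmp.mono fun t ht => ht.2))
    (r 0) (r 1) (r 2) (r 3) (r 4) hrel
  have hDuR : ∀ t, (D (ψ t) : ℝ) ≤ 1 * u (ψ t) := fun t => by
    rw [one_mul]; exact_mod_cast hDu _
  have hDwR : ∀ t, (D (ψ t) : ℝ) ≤ 1 * w (ψ t) := fun t => by
    rw [one_mul]; exact_mod_cast (hDD _).trans (hDw _)
  by_cases hκ : r 2 - r 3 - r 4 = 0
  swap
  · have h3 := nosmall (u := fun t => u (ψ t)) (D := fun t => D (ψ t)) hε10 hNψ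
      (fun t => (hu0 _).1) 1 zero_le_one hDuR (1 : ℝ) (by
        filter_upwards [hk1 hκ ℓx hx1] with t ht
        rw [hxx, hxy, Rat.cast_one, Rat.cast_zero, zero_mul, sub_zero] at ht
        exact ht)
    exact one_ne_zero h3
  have h3 : r 3 = 0 := by
    have h3 := nosmall (u := fun t => u (ψ t)) (D := fun t => D (ψ t)) hε10 hNψ
      (fun t => (hu0 _).1) 1 zero_le_one hDuR (r 3 : ℝ) (by
        filter_upwards [hk2 hκ ℓx] with t ht
        rw [hval, hval, hx1, hxx, hxy] at ht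
        push_cast at ht
        simp only [mul_zero, zero_add, mul_one, add_zero, zero_mul] at ht
        exact ht)
    exact_mod_cast h3
  have h4 : r 4 = 0 := by
    have h3 := nosmall (u := fun t => w (ψ t)) (D := fun t => D (ψ t)) hε10 hNψ
      (fun t => (hw0 _).1) 1 zero_le_one hDwR (r 4 : ℝ) (by
        filter_upwards [hk2 hκ ℓy] with t ht
        rw [hval, hval, hy1, hyx, hyy] at ht
        push_cast at ht
        simp only [mul_zero, zero_add, mul_one, add_zero, zero_mul] at ht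
        exact ht)
    exact_mod_cast h3
  have h20 : r 2 = 0 := by omega
  have hrel' : ∀ t, r 0 * u (ψ t) + r 1 * w (ψ t) = 0 := fun t => by
    have := hrel t
    rwa [h20, h3, h4, zero_mul, zero_mul, zero_mul, add_zero, add_zero, add_zero] at this
  have hr01 : r 0 ≠ 0 ∧ r 1 ≠ 0 := by
    have hu1 : (u (ψ 0) : ℤ) ≠ 0 := by have := (hu0 (ψ 0)).1; omega
    have hw1 : (w (ψ 0) : ℤ) ≠ 0 := by have := (hw0 (ψ 0)).1; omega
    have h5 := hrel' 0
    constructor
    · intro h0
      rw [h0, zero_mul, zero_add] at h5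
      rcases mul_eq_zero.1 h5 with h | h
      · apply hr
        funext l
        fin_cases l
        · exact h0
        · exact h
        · exact h20
        · exact h3
        · exact h4
      · exact hw1 h
    · intro h0
      rw [h0, zero_mul, add_zero] at h5
      rcases mul_eq_zero.1 h5 with h | h
      · apply hr
        funext l
        fin_cases l
        · exact h
        · exact h0
        · exact h20
        · exact h3
        · exact h4
      · exact hu1 h
  -- a common unit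
  set a0 : ℕ := (r 0).natAbs with ha0
  set b0 : ℕ := (r 1).natAbs with hb0
  have ha0p : 0 < a0 := Int.natAbs_pos.2 hr01.1
  have hb0p : 0 < b0 := Int.natAbs_pos.2 hr01.2
  have hnat : ∀ t, a0 * u (ψ t) = b0 * w (ψ t) := by
    intro t
    have h5 : r 0 * u (ψ t) = -(r 1 * w (ψ t)) := by linarith [hrel' t]
    have h6 := congrArg Int.natAbs h5
    rwa [Int.natAbs_neg, Int.natAbs_mul, Int.natAbs_mul, Int.natAbs_natCast,
      Int.natAbs_natCast] at h6
  obtain ⟨g0, a', b', hgp, hcop, ha', hb'⟩ : ∃ g0 a' b' : ℕ, 0 < g0 ∧ Nat.Coprime a' b' ∧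
      a0 = g0 * a' ∧ b0 = g0 * b' := by
    refine ⟨a0.gcd b0, a0 / a0.gcd b0, b0 / a0.gcd b0, Nat.gcd_pos_of_pos_left _ ha0p,
      Nat.coprime_div_gcd_div_gcd (Nat.gcd_pos_of_pos_left _ ha0p),
      (Nat.mul_div_cancel' (Nat.gcd_dvd_left _ _)).symm,
      (Nat.mul_div_cancel' (Nat.gcd_dvd_right _ _)).symm⟩
  have ha'p : 0 < a' := by
    rcases Nat.eq_zero_or_pos a' with h | h
    · rw [h, mul_zero] at ha'; omega
    · exact h
  have hb'p : 0 < b' := by
    rcases Nat.eq_zero_or_pos b' with h | h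
    · rw [h, mul_zero] at hb'; omega
    · exact h
  have hnat' : ∀ t, a' * u (ψ t) = b' * w (ψ t) := by
    intro t
    have h5 := hnat t
    rw [ha', hb', mul_assoc, mul_assoc] at h5
    exact Nat.eq_of_mul_eq_mul_left hgp h5
  have hdvd : ∀ t, b' ∣ u (ψ t) := fun t =>
    (hcop.symm).dvd_of_dvd_mul_left (Dvd.intro _ (hnat' t).symm)
  choose v hv using hdvd
  have hv' : ∀ t, w (ψ t) = a' * v t := by
    intro t
    have h5 := hnat' t
    rw [hv t] at h5
    have h6 : b' * (a' * v t) = b' * w (ψ t) := by rw [← h5]; ring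
    exact (Nat.eq_of_mul_eq_mul_left hb'p h6).symm
  have hvp : ∀ t, 0 < v t := fun t => by
    rcases Nat.eq_zero_or_pos (v t) with h | h
    · have := (hu0 (ψ t)).1
      rw [hv t, h, mul_zero] at this
      omega
    · exact h
  have hvS : ∀ t, SU S (v t) ∧ (v t : ℝ) ≤ Real.exp (C * N (ψ t)) := by
    intro t
    refine ⟨⟨hvp t, fun p hp hd => (hu0 (ψ t)).2 p hp ?_⟩, ?_⟩
    · rw [hv t]
      exact hd.mul_left _
    · refine le_trans ?_ (huC (ψ t))
      have : v t ≤ u (ψ t) := by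
        rw [hv t]
        exact Nat.le_mul_of_pos_left _ hb'p
      exact_mod_cast this
  have e1 : ∀ t, (b' * x : ℝ) * v t = x * u (ψ t) := fun t => by
    rw [hv t]; push_cast; ring
  have e2 : ∀ t, (a' * y : ℝ) * v t = y * w (ψ t) := fun t => by
    rw [hv' t]; push_cast; ring
  have hbx : IsAlgebraic ℚ ((b' : ℝ) * x) := (isAlgebraic_natCast b').mul hx
  have hay : IsAlgebraic ℚ ((a' : ℝ) * y) := (isAlgebraic_natCast a').mul hy
  obtain ⟨s, hs, hfreq'⟩ := rel4 hbx hay hS C ε hC0 hε (fun t => (N (ψ t) : ℝ)) (hNR.comp hψt)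
    v (fun t => D (ψ t)) (fun t => D' (ψ t)) (fun t => M (ψ t)) (fun t => M' (ψ t))
    (fun t => W (ψ t)) (fun t => V (ψ t)) hvS (fun t => hDC _) (fun t => hDC' _) (fun t => hW _)
    (fun t => by rw [e1]; exact h1 _) (fun t => by rw [e2]; exact h2 _) (fun t => hsm _)
  obtain ⟨χ, hχ, hrel4⟩ := Filter.extraction_of_frequently_atTop hfreq'
  have hχt := hχ.tendsto_atTop
  have hNχ : Tendsto (fun t => N (ψ (χ t))) atTop atTop := hNψ.comp hχt
  obtain ⟨hj1, hj2⟩ := core_small hbx hay hS C (3 * ε / 4) (by positivity)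
    (fun t => N (ψ (χ t))) hNχ
    (fun t => v (χ t)) (fun t => v (χ t)) (fun t => D (ψ (χ t))) (fun t => D' (ψ (χ t)))
    (fun t => M (ψ (χ t))) (fun t => M' (ψ (χ t))) (fun t => W (ψ (χ t))) (fun t => V (ψ (χ t)))
    (fun t => hvS _) (fun t => hvS _) (fun t => hDC _) (fun t => hDC' _)
    (fun t => by rw [e1]; exact h1 _)
    (fun t => by rw [e2]; exact h2 _) (fun t => hDD _)
    (hχt.eventually (hψt.eventually (hcmp.mono fun t ht => ht.2)))
    (s 0) 0 (s 1) (s 2) (s 3) (fun t => by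
      have := hrel4 t
      linear_combination this)
  have hDv : ∀ t, (D (ψ (χ t)) : ℝ) ≤ b' * v (χ t) := fun t => by
    have h5 : D (ψ (χ t)) ≤ b' * v (χ t) := by
      rw [← hv]; exact hDu _
    exact_mod_cast h5
  have hb'R : (0 : ℝ) < b' := by exact_mod_cast hb'p
  have ha'R : (0 : ℝ) < a' := by exact_mod_cast ha'p
  have fl : ∀ (g : ℝ →ₗ[ℚ] ℚ) (n : ℕ) (z : ℝ), g ((n : ℝ) * z) = n * g z := by
    intro g n z
    have := fun_int g (n : ℤ) z
    rwa [Int.cast_natCast, Int.cast_natCast] at this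
  have nos : ∀ a : ℝ, (∀ᶠ t in atTop, |a * v (χ t)| ≤
      D (ψ (χ t)) * Real.exp (-(ε1 * N (ψ (χ t))))) → a = 0 := fun a ha =>
    nosmall (u := fun t => v (χ t)) (D := fun t => D (ψ (χ t))) hε10 hNχ
      (fun t => hvp _) b' hb'R.le hDv a ha
  by_cases hκ' : s 1 - s 2 - s 3 = 0
  swap
  · have h5 := nos b' (by
      filter_upwards [hj1 hκ' ℓx hx1] with t ht
      rw [fl, fl, hxx, hxy] at ht
      push_cast at ht
      simp only [mul_zero, mul_one, zero_mul, sub_zero] at ht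
      exact ht)
    exact hb'R.ne' h5
  have t2 : s 2 = 0 := by
    have h5 := nos (s 2 * b') (by
      filter_upwards [hj2 hκ' ℓx] with t ht
      rw [hval, hval, fl, fl, hx1, hxx, hxy] at ht
      push_cast at ht
      simp only [mul_zero, zero_add, mul_one, add_zero, zero_mul] at ht
      exact ht)
    rcases mul_eq_zero.1 h5 with h | h
    · exact_mod_cast h
    · exact absurd h hb'R.ne'
  have t3 : s 3 = 0 := by
    have h5 := nos (s 3 * a') (by
      filter_upwards [hj2 hκ' ℓy] with t ht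
      rw [hval, hval, fl, fl, hy1, hyx, hyy] at ht
      push_cast at ht
      simp only [mul_zero, zero_add, mul_one, add_zero, zero_mul] at ht
      exact ht)
    rcases mul_eq_zero.1 h5 with h | h
    · exact_mod_cast h
    · exact absurd h ha'R.ne'
  have t0 : s 0 = 0 := by
    have h5 := nos (s 0) (by
      filter_upwards [hj2 hκ' ℓ1] with t ht
      rw [hval, hval, fl, fl, h11, h1x, h1y] at ht
      push_cast at ht
      simp only [mul_zero, mul_one, add_zero, zero_mul] at ht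
      exact ht)
    exact_mod_cast h5
  apply hs
  funext l
  fin_cases l
  · exact t0
  · show s 1 = 0
    omega
  · exact t2
  · exact t3

end Pool.Agent.U773.BD
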