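import Mathlib
import Pool.Agent.U773.BD.Indep

/-! Symmetric forms and digits. -/

set_option autoImplicit false

open Finset Filter Topology

namespace Pool.Agent.U773.BD

/-- the residue modulo `D` of the integer part of `u x` -/
noncomputable def res (u D : ℕ) (x : ℝ) : ℤ := ⌊(u : ℝ) * x⌋ % (D : ℤ)

lemma res_spec {D : ℕ} (hD : 0 < D) (u : ℕ) (x : ℝ) :
    |((res u D x : ℤ) : ℝ)| ≤ D ∧
    |x * u - D * ((⌊(u : ℝ) * x⌋ / (D : ℤ) : ℤ) : ℝ) - (res u D x : ℤ)| ≤ 1 := by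
  have hDZ : (0 : ℤ) < D := by exact_mod_cast hD
  constructor
  · have h1 : 0 ≤ res u D x := Int.emod_nonneg _ hDZ.ne'
    have h2 : res u D x < D := Int.emod_lt_of_pos _ hDZ
    rw [abs_of_nonneg (by exact_mod_cast h1)]
    exact_mod_cast h2.le
  · have h1 : ((⌊(u : ℝ) * x⌋ : ℤ) : ℝ) = ((res u D x : ℤ) : ℝ) +
        D * ((⌊(u : ℝ) * x⌋ / (D : ℤ) : ℤ) : ℝ) := by
      have := Int.emod_add_mul_ediv ⌊(u : ℝ) * x⌋ (D : ℤ)
      unfold res
      exact_mod_cast this.symm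
    have h2 := Int.floor_le ((u : ℝ) * x)
    have h3 := Int.lt_floor_add_one ((u : ℝ) * x)
    rw [abs_le]
    constructor <;> linarith

theorem final_bases {x y : ℝ} (hx : IsAlgebraic ℚ x) (hxi : Irrational x) (hy : IsAlgebraic ℚ y)
    (hyi : Irrational y) {S : Finset ℕ} (hS : ∀ p ∈ S, p.Prime) {b c : ℕ} (hb : 2 ≤ b)
    (hc : 2 ≤ c) (hbc : ∀ i j : ℕ, b ^ i = c ^ j → i = 0) (C ε : ℝ) (hε : 0 < ε) :
    ∃ U : ℕ, ∀ N : ℕ, U ≤ N → ∀ i j D D' : ℕ,
      SU S D → SU S D' → D ≤ b ^ i → D' ≤ c ^ j → ((b ^ i : ℕ) : ℝ) ≤ Real.exp (C * N) →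
      ((c ^ j : ℕ) : ℝ) ≤ Real.exp (C * N) →
      max (D : ℝ) D' * Real.exp (-(ε * N)) ≤
        1 + |((res (b ^ i) D x : ℤ) : ℝ) - (res (c ^ j) D' y : ℤ)| := by
  set S' : Finset ℕ := S ∪ b.primeFactors ∪ c.primeFactors with hS'
  have hS'p : ∀ p ∈ S', p.Prime := by
    intro p hp
    simp only [hS', mem_union] at hp
    rcases hp with (h | h) | h
    · exact hS p h
    · exact Nat.prime_of_mem_primeFactors h
    · exact Nat.prime_of_mem_primeFactors h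
  have hbS : ∀ p : ℕ, p.Prime → p ∣ b → p ∈ S' := fun p hp h => by
    simp only [hS', mem_union]
    exact Or.inl (Or.inr (Nat.mem_primeFactors.2 ⟨hp, h, by omega⟩))
  have hcS : ∀ p : ℕ, p.Prime → p ∣ c → p ∈ S' := fun p hp h => by
    simp only [hS', mem_union]
    exact Or.inr (Nat.mem_primeFactors.2 ⟨hp, h, by omega⟩)
  have hup : ∀ {D : ℕ}, SU S D → SU S' D := fun h => ⟨h.1, fun p hp hd => by
    simp only [hS', mem_union]
    exact Or.inl (Or.inl (h.2 p hp hd))⟩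
  have hcb : ∀ i j : ℕ, c ^ i = b ^ j → i = 0 := by
    intro i j h
    have h1 := hbc j i h.symm
    rw [h1, pow_zero] at h
    rcases Nat.pow_eq_one.1 h with h2 | h2
    · omega
    · exact h2
  obtain ⟨U1, hU1⟩ := two_bases hx hxi hy hyi hS'p hb hc hbc hbS hcS C ε hε
  obtain ⟨U2, hU2⟩ := two_bases hy hyi hx hxi hS'p hc hb hcb hcS hbS C ε hε
  refine ⟨U1 + U2, fun N hN i j D D' hD hD' hDb hDc hbC hcC => ?_⟩
  obtain ⟨a1, a2⟩ := res_spec hD.1 (b ^ i) x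
  obtain ⟨a3, a4⟩ := res_spec hD'.1 (c ^ j) y
  rcases le_total D D' with h | h
  · rw [max_eq_right (by exact_mod_cast h)]
    exact (hU1 N (by omega) i j D D' _ _ _ _ (hup hD) (hup hD') hDb hDc hbC hcC h a1 a2 a4).le
  · rw [max_eq_left (by exact_mod_cast h), abs_sub_comm]
    exact (hU2 N (by omega) j i D' D _ _ _ _ (hup hD') (hup hD) hDc hDb hcC hbC h a3 a4 a2).le

theorem final_indep {x y : ℝ} (hx : IsAlgebraic ℚ x) (hy : IsAlgebraic ℚ y)
    (hind : ∀ a b c : ℚ, (a : ℝ) + b * x + c * y = 0 → a = 0 ∧ b = 0 ∧ c = 0) {S : Finset ℕ}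
    (hS : ∀ p ∈ S, p.Prime) (C ε : ℝ) (hε : 0 < ε) :
    ∃ U : ℕ, ∀ N : ℕ, U ≤ N → ∀ u w D D' : ℕ,
      SU S u → SU S w → SU S D → SU S D' → D ≤ u → D' ≤ w → (u : ℝ) ≤ Real.exp (C * N) →
      (w : ℝ) ≤ Real.exp (C * N) →
      max (D : ℝ) D' * Real.exp (-(ε * N)) ≤
        1 + |((res u D x : ℤ) : ℝ) - (res w D' y : ℤ)| := by
  obtain ⟨U1, hU1⟩ := indep_units hx hy hind hS C ε hε
  obtain ⟨U2, hU2⟩ := indep_units hy hx (fun a b c h => by
    have := hind a c b (by linarith)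
    exact ⟨this.1, this.2.2, this.2.1⟩) hS C ε hε
  refine ⟨U1 + U2, fun N hN u w D D' hu hw hD hD' hDu hDw huC hwC => ?_⟩
  obtain ⟨a1, a2⟩ := res_spec hD.1 u x
  obtain ⟨a3, a4⟩ := res_spec hD'.1 w y
  rcases le_total D D' with h | h
  · rw [max_eq_right (by exact_mod_cast h)]
    exact (hU1 N (by omega) u w D D' _ _ _ _ hu hw hD hD' hDu hDw huC hwC h a1 a2 a4).le
  · rw [max_eq_left (by exact_mod_cast h), abs_sub_comm]
    exact (hU2 N (by omega) w u D' D _ _ _ _ hw hu hD' hD hDw hDu hwC huC h a3 a4 a2).le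

lemma blk_res (b : ℕ) (x : ℝ) (n m : ℕ) : blk b x n m = res (b ^ (n + m)) (b ^ m) x := by
  unfold blk res
  push_cast
  rfl

/-- from residues to digits -/
lemma digits_of {b : ℕ} (hb : 2 ≤ b) (δ : ℝ) (hδ : 0 < δ) :
    ∃ ε : ℝ, 0 < ε ∧ ∃ U : ℕ, ∀ m : ℕ, U ≤ m → ∀ X E : ℝ, (b : ℝ) ^ m ≤ X →
      X * Real.exp (-(ε * m)) ≤ 1 + E → (b : ℝ) ^ ((1 - δ) * (m : ℝ)) ≤ E := by
  have hb1 : (1 : ℝ) < b := by exact_mod_cast hb
  have hb0 : (0 : ℝ) < b := by linarith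
  have hlb : 0 < Real.log b := Real.log_pos hb1
  set d : ℝ := min δ (1 / 2) with hd
  have hd0 : 0 < d := lt_min hδ (by norm_num)
  obtain ⟨U, hU⟩ := eventually_atTop.1 (ev_small (show 0 < d / 2 * Real.log b by positivity)
    tendsto_id 2)
  refine ⟨d / 2 * Real.log b, by positivity, U, fun m hm X E hX hE => ?_⟩
  have h1 := hU m hm
  simp only [id] at h1
  have h2 : (b : ℝ) ^ m * Real.exp (-(d / 2 * Real.log b * m)) = (b : ℝ) ^ ((1 - d) * (m : ℝ)) *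
      Real.exp (d / 2 * Real.log b * m) := by
    rw [← Real.rpow_natCast, pow_eq_exp hb, pow_eq_exp hb, ← Real.exp_add, ← Real.exp_add]
    congr 1
    ring
  have h3 : (b : ℝ) ^ ((1 - d) * (m : ℝ)) * Real.exp (d / 2 * Real.log b * m) ≤ 1 + E := by
    rw [← h2]
    exact (mul_le_mul_of_nonneg_right hX (Real.exp_pos _).le).trans hE
  have h4 : 1 ≤ (b : ℝ) ^ ((1 - d) * (m : ℝ)) := by
    apply Real.one_le_rpow hb1.le
    have : d ≤ 1 / 2 := min_le_right _ _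
    have : (0 : ℝ) ≤ m := Nat.cast_nonneg _
    nlinarith
  have h5 : (b : ℝ) ^ ((1 - δ) * (m : ℝ)) ≤ (b : ℝ) ^ ((1 - d) * (m : ℝ)) := by
    apply Real.rpow_le_rpow_of_exponent_le hb1.le
    apply mul_le_mul_of_nonneg_right _ (Nat.cast_nonneg _)
    have : d ≤ δ := min_le_left _ _
    linarith
  nlinarith

theorem final_bases_digits {x y : ℝ} (hx : IsAlgebraic ℚ x) (hxi : Irrational x)
    (hy : IsAlgebraic ℚ y) (hyi : Irrational y) {b c : ℕ} (hb : 2 ≤ b)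
    (hc : 2 ≤ c) (hbc : ∀ i j : ℕ, b ^ i = c ^ j → i = 0) (C δ : ℝ) (hδ : 0 < δ) :
    ∃ U : ℕ, ∀ m : ℕ, U ≤ m → ∀ n n' m' : ℕ, (n : ℝ) ≤ C * m → (n' : ℝ) ≤ C * m →
      (m' : ℝ) ≤ C * m →
      (b : ℝ) ^ ((1 - δ) * (m : ℝ)) ≤ |(blk b x n m : ℝ) - blk c y n' m'| := by
  obtain ⟨ε, hε, U1, hU1⟩ := digits_of hb δ hδ
  have hSp : ∀ p ∈ (b.primeFactors ∪ c.primeFactors), p.Prime := by
    intro p hp
    rcases mem_union.1 hp with h | h <;> exact Nat.prime_of_mem_primeFactors h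
  set C1 : ℝ := (2 * |C| + 1) * (Real.log b + Real.log c) with hC1
  obtain ⟨U2, hU2⟩ := final_bases hx hxi hy hyi hSp hb hc hbc C1 ε hε
  have hlb : 0 < Real.log b := Real.log_pos (by exact_mod_cast hb)
  have hlc : 0 < Real.log c := Real.log_pos (by exact_mod_cast hc)
  refine ⟨U1 + U2, fun m hm n n' m' hn hn' hm' => ?_⟩
  have hm0 : (0 : ℝ) ≤ m := Nat.cast_nonneg _
  have hCm : C * m ≤ |C| * m := mul_le_mul_of_nonneg_right (le_abs_self _) hm0
  have hC0 : 0 ≤ |C| * m := by positivity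
  have hsz : ∀ (a k : ℕ), 2 ≤ a → Real.log a ≤ Real.log b + Real.log c →
      (k : ℝ) ≤ (2 * |C| + 1) * m → ((a ^ k : ℕ) : ℝ) ≤ Real.exp (C1 * m) := by
    intro a k ha hla hk
    push_cast
    rw [← Real.rpow_natCast, pow_eq_exp ha]
    apply Real.exp_le_exp.2
    have h1 : 0 ≤ Real.log a := Real.log_nonneg (by exact_mod_cast (by omega : 1 ≤ a))
    calc Real.log a * k ≤ (Real.log b + Real.log c) * ((2 * |C| + 1) * m) := by
          apply mul_le_mul hla hk (Nat.cast_nonneg _) (by positivity)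
      _ = C1 * m := by rw [hC1]; ring
  have key := hU2 m (by omega) (n + m) (n' + m') (b ^ m) (c ^ m')
    ⟨by positivity, fun p hp hd => mem_union_left _ (Nat.mem_primeFactors.2
      ⟨hp, hp.dvd_of_dvd_pow hd, by omega⟩)⟩
    ⟨by positivity, fun p hp hd => mem_union_right _ (Nat.mem_primeFactors.2
      ⟨hp, hp.dvd_of_dvd_pow hd, by omega⟩)⟩
    (Nat.pow_le_pow_right (by omega) (by omega)) (Nat.pow_le_pow_right (by omega) (by omega))
    (hsz b _ hb (by linarith) (by push_cast; linarith))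
    (hsz c _ hc (by linarith) (by push_cast; linarith))
  rw [← blk_res, ← blk_res] at key
  refine hU1 m (by omega) _ _ ?_ key
  push_cast
  exact le_max_left _ _

theorem final_indep_digits {x y : ℝ} (hx : IsAlgebraic ℚ x) (hy : IsAlgebraic ℚ y)
    (hind : ∀ a b c : ℚ, (a : ℝ) + b * x + c * y = 0 → a = 0 ∧ b = 0 ∧ c = 0)
    {b c : ℕ} (hb : 2 ≤ b) (hc : 2 ≤ c) (C δ : ℝ) (hδ : 0 < δ) :
    ∃ U : ℕ, ∀ m : ℕ, U ≤ m → ∀ n n' m' : ℕ, (n : ℝ) ≤ C * m → (n' : ℝ) ≤ C * m →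
      (m' : ℝ) ≤ C * m →
      (b : ℝ) ^ ((1 - δ) * (m : ℝ)) ≤ |(blk b x n m : ℝ) - blk c y n' m'| := by
  obtain ⟨ε, hε, U1, hU1⟩ := digits_of hb δ hδ
  have hSp : ∀ p ∈ (b.primeFactors ∪ c.primeFactors), p.Prime := by
    intro p hp
    rcases mem_union.1 hp with h | h <;> exact Nat.prime_of_mem_primeFactors h
  set C1 : ℝ := (2 * |C| + 1) * (Real.log b + Real.log c) with hC1
  obtain ⟨U2, hU2⟩ := final_indep hx hy hind hSp C1 ε hε
  have hlb : 0 < Real.log b := Real.log_pos (by exact_mod_cast hb)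
  have hlc : 0 < Real.log c := Real.log_pos (by exact_mod_cast hc)
  refine ⟨U1 + U2, fun m hm n n' m' hn hn' hm' => ?_⟩
  have hm0 : (0 : ℝ) ≤ m := Nat.cast_nonneg _
  have hCm : C * m ≤ |C| * m := mul_le_mul_of_nonneg_right (le_abs_self _) hm0
  have hC0 : 0 ≤ |C| * m := by positivity
  have hsz : ∀ (a k : ℕ), 2 ≤ a → Real.log a ≤ Real.log b + Real.log c →
      (k : ℝ) ≤ (2 * |C| + 1) * m → ((a ^ k : ℕ) : ℝ) ≤ Real.exp (C1 * m) := by
    intro a k ha hla hk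
    push_cast
    rw [← Real.rpow_natCast, pow_eq_exp ha]
    apply Real.exp_le_exp.2
    have h1 : 0 ≤ Real.log a := Real.log_nonneg (by exact_mod_cast (by omega : 1 ≤ a))
    calc Real.log a * k ≤ (Real.log b + Real.log c) * ((2 * |C| + 1) * m) := by
          apply mul_le_mul hla hk (Nat.cast_nonneg _) (by positivity)
      _ = C1 * m := by rw [hC1]; ring
  have hSb : ∀ k, SU (b.primeFactors ∪ c.primeFactors) (b ^ k) := fun k =>
    ⟨by positivity, fun p hp hd => mem_union_left _ (Nat.mem_primeFactors.2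
      ⟨hp, hp.dvd_of_dvd_pow hd, by omega⟩)⟩
  have hSc : ∀ k, SU (b.primeFactors ∪ c.primeFactors) (c ^ k) := fun k =>
    ⟨by positivity, fun p hp hd => mem_union_right _ (Nat.mem_primeFactors.2
      ⟨hp, hp.dvd_of_dvd_pow hd, by omega⟩)⟩
  have key := hU2 m (by omega) (b ^ (n + m)) (c ^ (n' + m')) (b ^ m) (c ^ m')
    (hSb _) (hSc _) (hSb _) (hSc _)
    (Nat.pow_le_pow_right (by omega) (by omega)) (Nat.pow_le_pow_right (by omega) (by omega))
    (hsz b _ hb (by linarith) (by push_cast; linarith))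
    (hsz c _ hc (by linarith) (by push_cast; linarith))
  rw [← blk_res, ← blk_res] at key
  refine hU1 m (by omega) _ _ ?_ key
  push_cast
  exact le_max_left _ _

end Pool.Agent.U773.BD
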