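import Mathlib
import Pool.Agent.U773.BD.Final2

/-! Multiplicatively dependent bases, and the complete statement on digits. -/

set_option autoImplicit false

open Finset Filter Topology

namespace Pool.Agent.U773.BD

lemma lowerW {x : ℝ} (hx : IsAlgebraic ℚ x) (hxi : Irrational x) {b : ℕ} (hb : 2 ≤ b)
    (C ε : ℝ) (hε : 0 < ε) :
    ∃ U : ℕ, ∀ m : ℕ, U ≤ m → ∀ n : ℕ, (n : ℝ) ≤ C * m →
      (b : ℝ) ^ m * Real.exp (-(ε * m)) ≤ 1 + blk b x n m := by
  have hlb : 0 < Real.log b := Real.log_pos (by exact_mod_cast hb)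
  obtain ⟨ℓ, hℓx, hℓ1⟩ := exists_fun_irr hxi
  obtain ⟨U, hU⟩ := main (fun _ : Fin 1 => x) (fun _ => hx) ℓ hℓ1 (Sb_prime (S := ∅) (by simp) b)
    ((|C| + 1) * Real.log b) ε hε
  refine ⟨U, fun m hm n hn => ?_⟩
  have hm0 : (0 : ℝ) ≤ m := Nat.cast_nonneg _
  obtain ⟨M, h1, h2⟩ := blk_spec b x n m
  have hnC : (n : ℝ) + m ≤ (|C| + 1) * m := by
    have := hn.trans (mul_le_mul_of_nonneg_right (le_abs_self C) hm0)
    linarith
  have hbm : (0 : ℝ) < (b : ℝ) ^ m := by positivity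
  have key := hU m hm (b ^ m) (fun _ => (b : ℤ) ^ (n + m)) M (by positivity)
    (fun p hp hd => Sb_pow hb _ p hp hd) (by
      push_cast
      rw [← Real.rpow_natCast, pow_eq_exp hb]
      apply Real.exp_le_exp.2
      have h3 : (m : ℝ) ≤ (|C| + 1) * m := by
        have : 0 ≤ |C| * m := by positivity
        linarith
      nlinarith) (fun _ => by
      push_cast
      rw [abs_of_pos (by positivity), ← Real.rpow_natCast, pow_eq_exp hb]
      apply Real.exp_le_exp.2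
      push_cast
      nlinarith)
  simp only [Finset.univ_unique, Finset.sum_singleton, Finset.prod_singleton] at key
  rw [fr_unit (Sb_prime (S := ∅) (by simp) b) (u := (b : ℤ) ^ (n + m)) (by positivity) (by
    intro p hp hd
    rw [Int.natAbs_pow, Int.natAbs_natCast] at hd
    exact Sb_pow hb _ p hp hd), Nat.cast_one, mul_one] at key
  have h3 : ℓ (x * (((b : ℤ) ^ (n + m) : ℤ) : ℝ)) = (b : ℚ) ^ (n + m) := by
    rw [mul_comm, fun_int, hℓx, mul_one]
    push_cast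
    rfl
  rw [h3] at key
  push_cast at key
  rw [abs_of_pos (by positivity : (0 : ℝ) < (b : ℝ) ^ (n + m)), min_eq_left (by
    exact pow_le_pow_right₀ (by exact_mod_cast (by omega : 1 ≤ b)) (by omega))] at key
  refine key.trans ?_
  have h4 : (0 : ℝ) ≤ blk b x n m := by exact_mod_cast blk_nonneg hb x n m
  rw [mul_comm x, abs_of_nonneg (by linarith)]
  linarith

theorem dep_bases {x y : ℝ} (hx : IsAlgebraic ℚ x) (hxi : Irrational x)
    (hy : IsAlgebraic ℚ y) {b c : ℕ} (hb : 2 ≤ b)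
    (hc : 2 ≤ c) (I J : ℕ) (hI : 0 < I) (hJ : 0 < J) (hIJ : b ^ I = c ^ J) (ρ q : ℚ)
    (hyx : y = ρ * x + q) (C δ : ℝ) (hδ : 0 < δ) :
    ∃ U : ℕ, ∀ m : ℕ, U ≤ m → ∀ n n' m' : ℕ, (n : ℝ) ≤ C * m → (n' : ℝ) ≤ C * m →
      (m' : ℝ) ≤ C * m → Irrational ((b : ℝ) ^ (n + m) * x - (c : ℝ) ^ (n' + m') * y) →
      (b : ℝ) ^ ((1 - δ) * (m : ℝ)) ≤ |(blk b x n m : ℝ) - blk c y n' m'| := by
  classical
  have hlb : 0 < Real.log b := Real.log_pos (by exact_mod_cast hb)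
  have hlc : 0 < Real.log c := Real.log_pos (by exact_mod_cast hc)
  obtain ⟨ε, hε, U1, hU1⟩ := digits_of hb δ hδ
  set S : Finset ℕ := b.primeFactors ∪ c.primeFactors with hS
  have hSp : ∀ p ∈ S, p.Prime := by
    intro p hp
    rcases mem_union.1 hp with h | h <;> exact Nat.prime_of_mem_primeFactors h
  have hSb : ∀ k, SU S (b ^ k) := fun k =>
    ⟨by positivity, fun p hp hd => mem_union_left _ (Nat.mem_primeFactors.2
      ⟨hp, hp.dvd_of_dvd_pow hd, by omega⟩)⟩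
  have hSc : ∀ k, SU S (c ^ k) := fun k =>
    ⟨by positivity, fun p hp hd => mem_union_right _ (Nat.mem_primeFactors.2
      ⟨hp, hp.dvd_of_dvd_pow hd, by omega⟩)⟩
  set C1 : ℝ := (2 * |C| + 1) * (Real.log b + Real.log c) with hC1
  obtain ⟨ℓ, hℓx, hℓ1⟩ := exists_fun_irr hxi
  have hℓy : ℓ y = ρ := by
    have e1 : y = ρ • x + q • (1 : ℝ) := by
      rw [hyx, Rat.smul_def, Rat.smul_def, mul_one]
    rw [e1, map_add, map_smul, map_smul, hℓx, hℓ1]
    simp
  obtain ⟨U2, hU2⟩ := lowerW hx hxi hb C (ε / 4) (by positivity)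
  obtain ⟨U3, hU3⟩ := main ![x, y] (by
    intro i
    fin_cases i
    · simpa using hx
    · simpa using hy) ℓ hℓ1 hSp C1 (ε / 4) (by positivity)
  obtain ⟨U4, hU4⟩ := ratioQ hSp C1 (ε / 4) (by positivity) 1 (-ρ) (Or.inl one_ne_zero)
  set h0 : ℕ := b ^ I with hh0
  obtain ⟨U5, hU5⟩ := eventually_atTop.1 (ev_small (show 0 < ε / 4 by positivity) tendsto_id
    (2 * (h0 : ℝ)))
  refine ⟨U1 + U2 + U3 + U4 + U5 + 1, fun m hm n n' m' hn hn' hm' hirr => ?_⟩
  have hm0 : (0 : ℝ) ≤ m := Nat.cast_nonneg _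
  have hm1 : (1 : ℝ) ≤ m := by exact_mod_cast (by omega : 1 ≤ m)
  have hCm : C * m ≤ |C| * m := mul_le_mul_of_nonneg_right (le_abs_self _) hm0
  have hC0 : 0 ≤ |C| * m := by positivity
  have hsz : ∀ (a k : ℕ), 2 ≤ a → Real.log a ≤ Real.log b + Real.log c →
      (k : ℝ) ≤ (2 * |C| + 1) * m → ((a ^ k : ℕ) : ℝ) ≤ Real.exp (C1 * m) := by
    intro a k ha hla hk
    push_cast
    rw [← Real.rpow_natCast, pow_eq_exp ha]
    apply Real.exp_le_exp.2
    have h1 : 0 ≤ Real.log a := Real.log_nonneg (by exact_mod_cast (by omega : 1 ≤ a))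
    calc Real.log a * k ≤ (Real.log b + Real.log c) * ((2 * |C| + 1) * m) := by
          apply mul_le_mul hla hk (Nat.cast_nonneg _) (by positivity)
      _ = C1 * m := by rw [hC1]; ring
  -- the common modulus
  set k : ℕ := min (m / I) (m' / J) with hk
  set G : ℕ := h0 ^ k with hG
  have hh1 : 1 ≤ h0 := Nat.one_le_pow _ _ (by omega)
  have hGpos : 0 < G := by positivity
  have hG1 : G ∣ b ^ m := by
    have h1 : G = b ^ (I * k) := by rw [hG, hh0, ← pow_mul]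
    rw [h1]
    apply Nat.pow_dvd_pow
    calc I * k ≤ I * (m / I) := Nat.mul_le_mul_left _ (min_le_left _ _)
      _ ≤ m := Nat.mul_div_le _ _
  have hG2 : G ∣ c ^ m' := by
    have h1 : G = c ^ (J * k) := by rw [hG, hIJ, ← pow_mul]
    rw [h1]
    apply Nat.pow_dvd_pow
    calc J * k ≤ J * (m' / J) := Nat.mul_le_mul_left _ (min_le_right _ _)
      _ ≤ m' := Nat.mul_div_le _ _
  have hGsize : min (b ^ m) (c ^ m') ≤ h0 * G := by
    rcases le_total (m / I) (m' / J) with h | h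
    · refine (min_le_left _ _).trans ?_
      rw [hG, hk, min_eq_left h, hh0, ← pow_mul, ← pow_add]
      apply Nat.pow_le_pow_right (by omega)
      have := Nat.lt_mul_div_succ m hI
      rw [Nat.mul_add, Nat.mul_one] at this
      omega
    · refine (min_le_right _ _).trans ?_
      rw [hG, hk, min_eq_right h, hIJ, ← pow_mul, ← pow_add]
      apply Nat.pow_le_pow_right (by omega)
      have := Nat.lt_mul_div_succ m' hJ
      rw [Nat.mul_add, Nat.mul_one] at this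
      omega
  have hGS : ∀ p : ℕ, p.Prime → p ∣ G → p ∈ S := fun p hp hd => (hSb m).2 p hp (hd.trans hG1)
  have hGbm : G ≤ b ^ m := Nat.le_of_dvd (by positivity) hG1
  have hGcm : G ≤ c ^ m' := Nat.le_of_dvd (by positivity) hG2
  have hbu : b ^ m ≤ b ^ (n + m) := Nat.pow_le_pow_right (by omega) (by omega)
  have hcw : c ^ m' ≤ c ^ (n' + m') := Nat.pow_le_pow_right (by omega) (by omega)
  have huC := hsz b (n + m) hb (by linarith) (by push_cast; linarith)
  have hwC := hsz c (n' + m') hc (by linarith) (by push_cast; linarith)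
  have hGC : (G : ℝ) ≤ Real.exp (C1 * m) :=
    (by exact_mod_cast hGbm.trans hbu : (G : ℝ) ≤ ((b ^ (n + m) : ℕ) : ℝ)).trans huC
  obtain ⟨M1, a1, a2⟩ := blk_spec b x n m
  obtain ⟨M2, a3, a4⟩ := blk_spec c y n' m'
  obtain ⟨d1, hd1⟩ := hG1
  obtain ⟨d2, hd2⟩ := hG2
  have hd1R : (b : ℝ) ^ m = G * d1 := by exact_mod_cast hd1
  have hd2R : (c : ℝ) ^ m' = G * d2 := by exact_mod_cast hd2
  set W : ℝ := (blk b x n m : ℝ) with hW
  set V : ℝ := (blk c y n' m' : ℝ) with hV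
  have key := hU3 m (by omega) G ![((b ^ (n + m) : ℕ) : ℤ), -((c ^ (n' + m') : ℕ) : ℤ)]
    (d1 * M1 - d2 * M2) hGpos hGS hGC (by
      intro i
      fin_cases i
      · show |(((b ^ (n + m) : ℕ) : ℤ) : ℝ)| ≤ _
        rw [Int.cast_natCast, abs_of_nonneg (Nat.cast_nonneg _)]
        exact huC
      · show |((-((c ^ (n' + m') : ℕ) : ℤ) : ℤ) : ℝ)| ≤ _
        rw [Int.cast_neg, Int.cast_natCast, abs_neg, abs_of_nonneg (Nat.cast_nonneg _)]
        exact hwC)
  rw [Fin.sum_univ_two, Fin.prod_univ_two] at key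
  simp only [Matrix.cons_val_zero, Matrix.cons_val_one] at key
  rw [fr_neg, (hSb _).fr hSp, (hSc _).fr hSp, Nat.cast_one, mul_one, mul_one] at key
  have hform : x * (((b ^ (n + m) : ℕ) : ℤ) : ℝ) + y * ((-((c ^ (n' + m') : ℕ) : ℤ) : ℤ) : ℝ) =
      (b : ℝ) ^ (n + m) * x - (c : ℝ) ^ (n' + m') * y := by
    push_cast
    ring
  have hlval : ((ℓ ((b : ℝ) ^ (n + m) * x - (c : ℝ) ^ (n' + m') * y) : ℚ) : ℝ) =
      ((1 : ℚ) : ℝ) * ((b ^ (n + m) : ℕ) : ℝ) + ((-ρ : ℚ) : ℝ) * ((c ^ (n' + m') : ℕ) : ℝ) := by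
    have e1 : (b : ℝ) ^ (n + m) * x = ((((b ^ (n + m) : ℕ) : ℤ)) : ℝ) * x := by push_cast; ring
    have e2 : (c : ℝ) ^ (n' + m') * y = ((((c ^ (n' + m') : ℕ) : ℤ)) : ℝ) * y := by push_cast; ring
    rw [e1, e2, map_sub, fun_int, fun_int, hℓx, hℓy]
    push_cast
    ring
  rw [hform, hlval] at key
  have hE : |(b : ℝ) ^ (n + m) * x - (c : ℝ) ^ (n' + m') * y -
      G * (((d1 * M1 - d2 * M2 : ℤ)) : ℝ)| ≤ 1 + |W - V| := by
    have e1 : (b : ℝ) ^ (n + m) * x - (c : ℝ) ^ (n' + m') * y -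
        G * (((d1 * M1 - d2 * M2 : ℤ)) : ℝ) =
        ((b : ℝ) ^ (n + m) * x - (b : ℝ) ^ m * M1 - W) -
        ((c : ℝ) ^ (n' + m') * y - (c : ℝ) ^ m' * M2 - V) + (W - V) := by
      rw [hd1R, hd2R]
      push_cast
      ring
    rw [e1]
    refine (abs_add_le _ _).trans (add_le_add ?_ le_rfl)
    rw [abs_le]
    constructor <;> linarith
  have hGR : (0 : ℝ) < G := by exact_mod_cast hGpos
  have hne : (((b ^ (n + m) : ℕ) : ℚ)) * 1 + (-ρ) * ((c ^ (n' + m') : ℕ) : ℚ) ≠ 0 := by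
    intro h
    apply hirr
    refine ⟨-q * ((c ^ (n' + m') : ℕ) : ℚ), ?_⟩
    have h1 : ((b ^ (n + m) : ℕ) : ℝ) = ρ * ((c ^ (n' + m') : ℕ) : ℝ) := by
      have : ((b ^ (n + m) : ℕ) : ℚ) = ρ * ((c ^ (n' + m') : ℕ) : ℚ) := by linarith
      exact_mod_cast this
    push_cast at h1 ⊢
    rw [h1, hyx]
    ring
  have hrat : min (((b ^ (n + m) : ℕ)) : ℝ) ((c ^ (n' + m') : ℕ) : ℝ) *
      Real.exp (-(ε / 4 * m)) < |((1 : ℚ) : ℝ) * ((b ^ (n + m) : ℕ) : ℝ) +
        ((-ρ : ℚ) : ℝ) * ((c ^ (n' + m') : ℕ) : ℝ)| := by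
    by_contra hle
    push Not at hle
    have := hU4 m (by omega) _ _ (hSb _) (hSc _) huC hwC hle
    apply hne
    linarith
  have hGmin : (G : ℝ) ≤ min (((b ^ (n + m) : ℕ)) : ℝ) ((c ^ (n' + m') : ℕ) : ℝ) := by
    refine le_min ?_ ?_
    · exact_mod_cast hGbm.trans hbu
    · exact_mod_cast hGcm.trans hcw
  have e4 : 0 < Real.exp (-(ε / 4 * m)) := Real.exp_pos _
  have e4' : Real.exp (-(ε / 4 * m)) ≤ 1 := by
    rw [Real.exp_le_one_iff]
    have : 0 ≤ ε / 4 * m := by positivity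
    linarith
  have hkey2 : (G : ℝ) * Real.exp (-(ε / 4 * m)) * Real.exp (-(ε / 4 * m)) ≤ 1 + |W - V| := by
    refine le_trans ?_ (key.trans hE)
    apply mul_le_mul_of_nonneg_right _ e4.le
    refine le_min (mul_le_of_le_one_right hGR.le e4') ?_
    exact (mul_le_mul_of_nonneg_right hGmin e4.le).trans hrat.le
  have hlow := hU2 m (by omega) n hn
  have h5 := hU5 m (by omega)
  simp only [id] at h5
  -- the conclusion
  have hbm : (0 : ℝ) < (b : ℝ) ^ m := by positivity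
  have hh0R : (1 : ℝ) ≤ h0 := by exact_mod_cast hh1
  have hee : Real.exp (-(ε * m)) = Real.exp (-(ε / 4 * m)) * Real.exp (-(ε / 4 * m)) *
      Real.exp (-(ε / 4 * m)) * Real.exp (-(ε / 4 * m)) := by
    rw [← Real.exp_add, ← Real.exp_add, ← Real.exp_add]
    congr 1
    ring
  have h6 : 2 * (h0 : ℝ) * Real.exp (-(ε / 4 * m)) ≤ 1 := by
    have e6 : Real.exp (ε / 4 * m) * Real.exp (-(ε / 4 * m)) = 1 := by
      rw [← Real.exp_add]; simp
    calc 2 * (h0 : ℝ) * Real.exp (-(ε / 4 * m)) ≤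
          Real.exp (ε / 4 * m) * Real.exp (-(ε / 4 * m)) := mul_le_mul_of_nonneg_right h5 e4.le
      _ = 1 := e6
  set z := Real.exp (-(ε / 4 * (m : ℝ))) with hz
  refine hU1 m (by omega) ((b : ℝ) ^ m) _ le_rfl ?_
  rw [hee]
  have hV1 : V < (c : ℝ) ^ m' := by
    have := blk_lt hc y n' m'
    rw [hV]
    exact_mod_cast this
  have hV0 : 0 ≤ V := by
    have := blk_nonneg hc y n' m'
    rw [hV]
    exact_mod_cast this
  have hGs : min ((b : ℝ) ^ m) ((c : ℝ) ^ m') ≤ h0 * G := by exact_mod_cast hGsize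
  have hWV : W - V ≤ |W - V| := le_abs_self _
  -- if `c ^ m'` is small then `W - V` is large
  by_cases hcase : (c : ℝ) ^ m' ≤ (b : ℝ) ^ m * z / 2
  · have h7 : (b : ℝ) ^ m * (z * z * z * z) ≤ (b : ℝ) ^ m * z / 2 := by
      have h8 : z * z * z * z ≤ z * z := by
        have : z * z ≤ 1 := by nlinarith
        nlinarith [mul_pos e4 e4]
      have h9 : z ≤ 1 / 2 := by nlinarith
      have h10 : z * z ≤ z / 2 := by nlinarith
      calc (b : ℝ) ^ m * (z * z * z * z) ≤ (b : ℝ) ^ m * (z / 2) :=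
            mul_le_mul_of_nonneg_left (h8.trans h10) hbm.le
        _ = _ := by ring
    linarith
  · push Not at hcase
    have h7 : (b : ℝ) ^ m * z / 2 ≤ h0 * G := by
      refine le_trans (le_min ?_ hcase.le) hGs
      have := mul_le_of_le_one_right hbm.le e4'
      linarith
    have h8 : (b : ℝ) ^ m * (z * z * z * z) = (2 * h0 * z) * (((b : ℝ) ^ m * z / 2) * z * z) / h0 := by
      field_simp
    rw [h8]
    calc (2 * h0 * z) * (((b : ℝ) ^ m * z / 2) * z * z) / h0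
        ≤ 1 * ((h0 * G) * z * z) / h0 := by gcongr
      _ = G * z * z := by field_simp
      _ ≤ 1 + |W - V| := hkey2

theorem complete {x y : ℝ} (hx : IsAlgebraic ℚ x) (hxi : Irrational x)
    (hy : IsAlgebraic ℚ y) (hyi : Irrational y) {b c : ℕ} (hb : 2 ≤ b)
    (hc : 2 ≤ c) (C δ : ℝ) (hδ : 0 < δ) :
    ∃ U : ℕ, ∀ m : ℕ, U ≤ m → ∀ n n' m' : ℕ, (n : ℝ) ≤ C * m → (n' : ℝ) ≤ C * m →
      (m' : ℝ) ≤ C * m → Irrational ((b : ℝ) ^ (n + m) * x - (c : ℝ) ^ (n' + m') * y) →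
      (b : ℝ) ^ ((1 - δ) * (m : ℝ)) ≤ |(blk b x n m : ℝ) - blk c y n' m'| := by
  by_cases hbc : ∀ i j : ℕ, b ^ i = c ^ j → i = 0
  · obtain ⟨U, hU⟩ := final_bases_digits hx hxi hy hyi hb hc hbc C δ hδ
    exact ⟨U, fun m hm n n' m' h1 h2 h3 _ => hU m hm n n' m' h1 h2 h3⟩
  push Not at hbc
  obtain ⟨I, J, hIJ, hI⟩ := hbc
  have hJ : J ≠ 0 := by
    rintro rfl
    rw [pow_zero] at hIJ
    rcases Nat.pow_eq_one.1 hIJ with h | h
    · omega
    · exact hI h
  by_cases hind : ∀ a b c : ℚ, (a : ℝ) + b * x + c * y = 0 → a = 0 ∧ b = 0 ∧ c = 0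
  · obtain ⟨U, hU⟩ := final_indep_digits hx hy hind hb hc C δ hδ
    exact ⟨U, fun m hm n n' m' h1 h2 h3 _ => hU m hm n n' m' h1 h2 h3⟩
  push Not at hind
  obtain ⟨a1, a2, a3, hrel, hne⟩ := hind
  have ha3 : a3 ≠ 0 := by
    rintro rfl
    by_cases h2 : a2 = 0
    · subst h2
      have : a1 = 0 := by
        have h3 : (a1 : ℝ) = 0 := by simpa using hrel
        exact_mod_cast h3
      exact hne this rfl rfl
    · apply hxi
      refine ⟨-a1 / a2, ?_⟩
      have h2R : (a2 : ℝ) ≠ 0 := by exact_mod_cast h2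
      push_cast
      rw [div_eq_iff h2R]
      rw [Rat.cast_zero, zero_mul, add_zero] at hrel
      linarith
  refine dep_bases hx hxi hy hb hc I J (by omega) (by omega) hIJ (-a2 / a3) (-a1 / a3) ?_ C δ hδ
  have h3R : (a3 : ℝ) ≠ 0 := by exact_mod_cast ha3
  push_cast
  field_simp
  linarith

end Pool.Agent.U773.BD
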